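import Pool.Agent.KST.Defs

/-! Row N1: a natural special case of the hypotheses -/

set_option autoImplicit false

open scoped BigOperators RealInnerProductSpace

namespace Pool.Agent.KST

noncomputable section

open Classical

variable {d : ℕ}

theorem n1_li {κ : Type} [Fintype κ] (p : κ → Prop) (b : κ → E d) :
    LinearIndependent ℝ (fun l : {l : κ // p l} => b l.1) ↔
      ∀ c : κ → ℝ, (∀ l, ¬ p l → c l = 0) → ∑ l, c l • b l = 0 → ∀ l, c l = 0 := by
  have key : ∀ c : κ → ℝ, (∀ l, ¬ p l → c l = 0) →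
      ∑ l, c l • b l = ∑ l : {l : κ // p l}, c l.1 • b l.1 := by
    intro c hc
    rw [← Finset.sum_subtype (Finset.univ.filter p) (by simp) (fun l => c l • b l)]
    symm
    apply Finset.sum_subset (Finset.subset_univ _)
    intro l _ hl
    rw [hc l (by simpa using hl), zero_smul]
  rw [Fintype.linearIndependent_iff]
  constructor
  · intro h c hc hs l
    by_cases hl : p l
    · exact h (fun l => c l.1) (by rw [← key c hc]; exact hs) ⟨l, hl⟩
    · exact hc l hl
  · intro h c hs l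
    have h1 := h (fun l => if h : p l then c ⟨l, h⟩ else 0) (by
      intro l hl
      simp [hl]) (by
      rw [key _ (by intro l hl; simp [hl]), ← hs]
      apply Finset.sum_congr rfl
      intro l _
      rw [dif_pos l.2]) l.1
    rw [dif_pos l.2] at h1
    exact h1

theorem n1_cap {K : Set (E d)} (hK : IsCompact K) (f : E d → ℝ) (hf : Continuous f) (v : E d)
    (h1 : ∀ x ∈ K, x ≠ v → f x < 1) (W : Set (E d)) (hW : IsOpen W) (hv : v ∈ W) :
    ∃ c : ℝ, 1 < c ∧ ∀ x ∈ K, 1 ≤ c * f x → x ∈ W := by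
  by_cases hne : (K \ W).Nonempty
  · obtain ⟨x0, hx0, hmax⟩ := (hK.diff hW).exists_isMaxOn hne hf.continuousOn
    have h2 : f x0 < 1 := h1 x0 hx0.1 (fun h => hx0.2 (h ▸ hv))
    have h3 : 0 < |f x0| + 1 := by positivity
    have h4 : f x0 ≤ |f x0| := le_abs_self _
    have h5 : 0 < (1 - f x0) / (2 * (|f x0| + 1)) := by
      apply div_pos (by linarith) (by positivity)
    refine ⟨1 + (1 - f x0) / (2 * (|f x0| + 1)), by linarith, ?_⟩
    intro x hx hcx
    by_contra hxW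
    have h6 : f x ≤ f x0 := hmax ⟨hx, hxW⟩
    have h7 : (1 + (1 - f x0) / (2 * (|f x0| + 1))) * f x ≤
        (1 + (1 - f x0) / (2 * (|f x0| + 1))) * f x0 :=
      mul_le_mul_of_nonneg_left h6 (by linarith)
    have h8 : (1 - f x0) / (2 * (|f x0| + 1)) * f x0 < 1 - f x0 := by
      rw [div_mul_eq_mul_div, div_lt_iff₀ (by positivity)]
      have : (1 - f x0) * f x0 ≤ (1 - f x0) * |f x0| :=
        mul_le_mul_of_nonneg_left h4 (by linarith)
      nlinarith
    nlinarith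
  · refine ⟨2, by norm_num, ?_⟩
    intro x hx _
    by_contra hxW
    exact hne ⟨x, hx, hxW⟩

theorem n1_isCompact {α : Type} [Fintype α] (a : α → E d) (hb : Bornology.IsBounded (Pol a)) :
    IsCompact (Pol a) := by
  apply Metric.isCompact_of_isClosed_isBounded _ hb
  have : Pol a = ⋂ l, {x : E d | |⟪a l, x⟫| ≤ 1} := by
    ext x; simp [Pol]
  rw [this]
  apply isClosed_iInter
  intro l
  exact isClosed_le (by fun_prop) continuous_const

/-- the average normal at `v` -/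
def n1g {α : Type} [Fintype α] (a : α → E d) (v : E d) : E d :=
  (1 / ((Finset.univ.filter (fun i => |⟪a i, v⟫| = 1)).card : ℝ)) •
    ∑ i ∈ Finset.univ.filter (fun i => |⟪a i, v⟫| = 1), ⟪a i, v⟫ • a i

theorem n1g_inner {α : Type} [Fintype α] (a : α → E d) (v x : E d) :
    ⟪n1g a v, x⟫ = (∑ i ∈ Finset.univ.filter (fun i => |⟪a i, v⟫| = 1), ⟪a i, v⟫ * ⟪a i, x⟫) /
      ((Finset.univ.filter (fun i => |⟪a i, v⟫| = 1)).card : ℝ) := by
  rw [n1g, real_inner_smul_left, sum_inner]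
  simp only [real_inner_smul_left]
  ring

theorem n1g_self {α : Type} [Fintype α] (a : α → E d) (v : E d) (h : ∃ i, |⟪a i, v⟫| = 1) :
    ⟪n1g a v, v⟫ = 1 := by
  rw [n1g_inner]
  have h1 : ∀ i ∈ Finset.univ.filter (fun i => |⟪a i, v⟫| = 1), ⟪a i, v⟫ * ⟪a i, v⟫ = 1 := by
    intro i hi
    rw [Finset.mem_filter] at hi
    rw [← abs_mul_abs_self, hi.2, mul_one]
  rw [Finset.sum_congr rfl h1, Finset.sum_const, nsmul_eq_mul, mul_one]
  apply div_self
  obtain ⟨i, hi⟩ := h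
  have : (Finset.univ.filter (fun i => |⟪a i, v⟫| = 1)).card ≠ 0 := by
    rw [Finset.card_ne_zero]
    exact ⟨i, by simp [hi]⟩
  exact_mod_cast this

theorem n1g_lt {α : Type} [Fintype α] (a : α → E d) (v : E d) (h : ∃ i, |⟪a i, v⟫| = 1)
    {x : E d} (hx : x ∈ Pol a) (hne : ¬ ∀ i, |⟪a i, v⟫| = 1 → ⟪a i, x⟫ = ⟪a i, v⟫) :
    ⟪n1g a v, x⟫ < 1 := by
  rw [n1g_inner]
  have hpos : (0 : ℝ) < ((Finset.univ.filter (fun i => |⟪a i, v⟫| = 1)).card : ℝ) := by
    obtain ⟨i, hi⟩ := h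
    exact_mod_cast Finset.card_pos.2 ⟨i, by simp [hi]⟩
  rw [div_lt_one hpos]
  have h1 : ∀ i ∈ Finset.univ.filter (fun i => |⟪a i, v⟫| = 1), ⟪a i, v⟫ * ⟪a i, x⟫ ≤ 1 := by
    intro i hi
    rw [Finset.mem_filter] at hi
    have := abs_mul ⟪a i, v⟫ ⟪a i, x⟫
    rw [hi.2, one_mul] at this
    calc ⟪a i, v⟫ * ⟪a i, x⟫ ≤ |⟪a i, v⟫ * ⟪a i, x⟫| := le_abs_self _
      _ = |⟪a i, x⟫| := this
      _ ≤ 1 := hx i
  have h2 : ∑ i ∈ Finset.univ.filter (fun i => |⟪a i, v⟫| = 1), ⟪a i, v⟫ * ⟪a i, x⟫ <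
      ∑ i ∈ Finset.univ.filter (fun i => |⟪a i, v⟫| = 1), (1 : ℝ) := by
    apply Finset.sum_lt_sum h1
    by_contra hcon
    push Not at hcon
    apply hne
    intro i hi
    have h3 := hcon i (by simp [hi])
    have h4 := h1 i (by simp [hi])
    have h5 : ⟪a i, v⟫ * ⟪a i, x⟫ = 1 := le_antisymm h4 h3
    have h6 : ⟪a i, v⟫ * ⟪a i, v⟫ = 1 := by rw [← abs_mul_abs_self, hi, mul_one]
    have h7 : ⟪a i, v⟫ * (⟪a i, x⟫ - ⟪a i, v⟫) = 0 := by linarith [mul_sub ⟪a i, v⟫ ⟪a i, x⟫ ⟪a i, v⟫]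
    rcases mul_eq_zero.1 h7 with h8 | h8
    · rw [h8, abs_zero] at hi
      exact absurd hi (by norm_num)
    · linarith
  rw [Finset.sum_const, nsmul_eq_mul, mul_one] at h2
  exact h2

theorem n1_pol_neg {α : Type} [Fintype α] {a : α → E d} {x : E d} (hx : x ∈ Pol a) :
    -x ∈ Pol a := by
  intro l
  rw [inner_neg_right, abs_neg]
  exact hx l

/-- non-simple points -/
def n1NS {α : Type} [Fintype α] (a : α → E d) : Set (E d) :=
  {x | x ∈ Pol a ∧ ¬ LinearIndependent ℝ (fun i : {i : α // |⟪a i, x⟫| = 1} => a i.1)}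

theorem n1NS_neg {α : Type} [Fintype α] {a : α → E d} {x : E d} (hx : x ∈ n1NS a) :
    -x ∈ n1NS a := by
  refine ⟨n1_pol_neg hx.1, ?_⟩
  have h := hx.2
  rw [n1_li (fun i => |⟪a i, x⟫| = 1) a] at h
  rw [n1_li (fun i => |⟪a i, -x⟫| = 1) a]
  simpa only [inner_neg_right, abs_neg] using h

theorem n1NS_tight {α : Type} [Fintype α] {a : α → E d} {x : E d} (hx : x ∈ n1NS a) :
    ∃ i, |⟪a i, x⟫| = 1 := by
  by_contra hcon
  push Not at hcon
  apply hx.2
  rw [n1_li (fun i => |⟪a i, x⟫| = 1) a]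
  intro c hc _ l
  exact hc l (hcon l)

theorem n1NS_up {α : Type} [Fintype α] {a : α → E d} {v x : E d} (hv : v ∈ n1NS a)
    (hx : x ∈ Pol a) (h : ∀ i, |⟪a i, v⟫| = 1 → ⟪a i, x⟫ = ⟪a i, v⟫) : x ∈ n1NS a := by
  refine ⟨hx, fun hli => hv.2 ?_⟩
  rw [n1_li (fun i => |⟪a i, x⟫| = 1) a] at hli
  rw [n1_li (fun i => |⟪a i, v⟫| = 1) a]
  intro c hc hs
  apply hli c _ hs
  intro l hl
  apply hc l
  intro hvl
  apply hl
  rw [h l hvl]
  exact hvl

theorem n1_coe {s t : SignType} (h : ((s : SignType) : ℝ) = ((t : SignType) : ℝ)) : s = t := by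
  have h1 := congrArg SignType.sign h
  have hc : ∀ s : SignType, SignType.sign ((s : SignType) : ℝ) = s := by
    intro s
    rcases s with _ | _ | _ <;> simp
  rwa [hc, hc] at h1

theorem nat_hyp {α : Type} [Fintype α] (a : α → E d) (hb : Bornology.IsBounded (Pol a))
    (hns : ∀ x ∈ Pol a, ¬ LinearIndependent ℝ (fun i : {i : α // |⟪a i, x⟫| = 1} => a i.1) →
      LinearIndependent ℝ (fun i : {i : α // |⟪a i, x⟫| = 1 ∧ ∃ y ∈ Pol a, y ≠ x ∧
        ¬ LinearIndependent ℝ (fun k : {k : α // |⟪a k, y⟫| = 1} => a k.1) ∧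
        ⟪a i, y⟫ = ⟪a i, x⟫} => a i.1)) :
    ∃ (r : ℕ) (g : Fin r → E d), Hyp a g := by
  have hmono : ∀ v ∈ n1NS a, ∀ x ∈ Pol a, (∀ i, |⟪a i, v⟫| = 1 → ⟪a i, x⟫ = ⟪a i, v⟫) →
      x = v := by
    intro v hv x hx h
    by_contra hne
    have hxN := n1NS_up hv hx h
    apply hv.2
    have h1 := hns v hv.1 hv.2
    rw [n1_li (fun i => |⟪a i, v⟫| = 1 ∧ ∃ y ∈ Pol a, y ≠ v ∧
      ¬ LinearIndependent ℝ (fun k : {k : α // |⟪a k, y⟫| = 1} => a k.1) ∧
        ⟪a i, y⟫ = ⟪a i, v⟫) a] at h1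
    rw [n1_li (fun i => |⟪a i, v⟫| = 1) a]
    intro c hc hs
    apply h1 c _ hs
    intro l hl
    apply hc
    intro hlv
    exact hl ⟨hlv, x, hx, hne, hxN.2, h l hlv⟩
  -- finiteness
  have hfin : (n1NS a).Finite := by
    apply Set.Finite.of_finite_image (f := fun x : E d => fun i : α =>
      if |⟪a i, x⟫| = 1 then SignType.sign ⟪a i, x⟫ else 0) (Set.toFinite _)
    intro x hx y hy hxy
    apply hmono y hy x hx.1
    intro i hi
    have h1 := congrFun hxy i
    simp only [hi, if_true] at h1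
    have hy0 : ⟪a i, y⟫ ≠ 0 := by
      intro h0; rw [h0, abs_zero] at hi; exact absurd hi (by norm_num)
    by_cases hxi : |⟪a i, x⟫| = 1
    · rw [if_pos hxi] at h1
      rcases eq_or_eq_neg_of_abs_eq hxi with h2 | h2 <;>
        rcases eq_or_eq_neg_of_abs_eq hi with h3 | h3
      · rw [h2, h3]
      · rw [h2, h3] at h1
        exact absurd h1 (by simp)
      · rw [h2, h3] at h1
        exact absurd h1 (by simp)
      · rw [h2, h3]
    · rw [if_neg hxi] at h1
      exact absurd (sign_eq_zero_iff.1 h1.symm) hy0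
  obtain ⟨U, hU, hUd⟩ := hfin.t2_separation
  -- the neighbourhoods
  let O : E d → Set (E d) := fun v => U v ∩ {x | -x ∈ U (-v)} ∩
    ⋂ i : α, {x | (⟪a i, v⟫ ≠ 1 → ⟪a i, x⟫ ≠ 1) ∧ (⟪a i, v⟫ ≠ -1 → ⟪a i, x⟫ ≠ -1)}
  have hOo : ∀ v, IsOpen (O v) := by
    intro v
    apply IsOpen.inter
    · apply IsOpen.inter (hU v).2
      exact (hU (-v)).2.preimage continuous_neg
    · apply isOpen_iInter_of_finite
      intro i
      have hcont : Continuous (fun x : E d => ⟪a i, x⟫) := by fun_prop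
      apply IsOpen.inter (s := {x : E d | ⟪a i, v⟫ ≠ 1 → ⟪a i, x⟫ ≠ 1})
        (t := {x : E d | ⟪a i, v⟫ ≠ -1 → ⟪a i, x⟫ ≠ -1})
      · by_cases h : ⟪a i, v⟫ = 1
        · have : {x : E d | ⟪a i, v⟫ ≠ 1 → ⟪a i, x⟫ ≠ 1} = Set.univ := by
            ext x; simp [h]
          rw [this]; exact isOpen_univ
        · have : {x : E d | ⟪a i, v⟫ ≠ 1 → ⟪a i, x⟫ ≠ 1} = {x : E d | ⟪a i, x⟫ ≠ 1} := by
            ext x; simp [h]
          rw [this]; exact isOpen_ne_fun hcont continuous_const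
      · by_cases h : ⟪a i, v⟫ = -1
        · have : {x : E d | ⟪a i, v⟫ ≠ -1 → ⟪a i, x⟫ ≠ -1} = Set.univ := by
            ext x; simp [h]
          rw [this]; exact isOpen_univ
        · have : {x : E d | ⟪a i, v⟫ ≠ -1 → ⟪a i, x⟫ ≠ -1} = {x : E d | ⟪a i, x⟫ ≠ -1} := by
            ext x; simp [h]
          rw [this]; exact isOpen_ne_fun hcont continuous_const
  have hOv : ∀ v, v ∈ O v := by
    intro v
    refine ⟨⟨(hU v).1, (hU (-v)).1⟩, ?_⟩
    rw [Set.mem_iInter]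
    intro i
    exact ⟨fun h => h, fun h => h⟩
  have hlam : ∀ v, ∃ c : ℝ, v ∈ n1NS a → 1 < c ∧ ∀ x ∈ Pol a, 1 ≤ c * ⟪n1g a v, x⟫ → x ∈ O v := by
    intro v
    by_cases hv : v ∈ n1NS a
    · obtain ⟨c, hc, hc'⟩ := n1_cap (n1_isCompact a hb) (fun x => ⟪n1g a v, x⟫) (by fun_prop) v (by
        intro x hx hne
        apply n1g_lt a v (n1NS_tight hv) hx
        intro h
        exact hne (hmono v hv x hx h)) (O v) (hOo v) (hOv v)
      exact ⟨c, fun _ => ⟨hc, hc'⟩⟩
    · exact ⟨0, fun h => absurd h hv⟩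
  choose lam hlam using hlam
  -- representatives
  let R : Finset (E d) := hfin.toFinset.filter (fun v => WellOrderingRel v (-v))
  have hR : ∀ v, v ∈ R → v ∈ n1NS a := by
    intro v hv
    exact hfin.mem_toFinset.1 (Finset.mem_filter.1 hv).1
  have hRno : ∀ v ∈ R, -v ∉ R := by
    intro v hv hv'
    have h1 := (Finset.mem_filter.1 hv).2
    have h2 := (Finset.mem_filter.1 hv').2
    rw [neg_neg] at h2
    exact asymm_of WellOrderingRel h1 h2
  have hRex : ∀ v ∈ n1NS a, v ∈ R ∨ -v ∈ R := by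
    intro v hv
    have hv0 : v ≠ -v := by
      intro h
      obtain ⟨i, hi⟩ := n1NS_tight hv
      have h1 : ⟪a i, v⟫ = -⟪a i, v⟫ := by
        have h2 := congrArg (fun z => ⟪a i, z⟫) h
        simp only [inner_neg_right] at h2
        exact h2
      have h0 : ⟪a i, v⟫ = 0 := by linarith
      rw [h0, abs_zero] at hi
      exact absurd hi (by norm_num)
    rcases trichotomous_of WellOrderingRel v (-v) with h | h | h
    · left
      exact Finset.mem_filter.2 ⟨hfin.mem_toFinset.2 hv, h⟩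
    · exact absurd h hv0
    · right
      refine Finset.mem_filter.2 ⟨hfin.mem_toFinset.2 (n1NS_neg hv), ?_⟩
      rw [neg_neg]; exact h
  let e := R.equivFin
  let vv : Fin R.card → E d := fun j => (e.symm j).1
  have hvR : ∀ j, vv j ∈ R := fun j => (e.symm j).2
  have hvinj : ∀ j k, vv j = vv k → j = k := by
    intro j k h
    exact e.symm.injective (Subtype.ext h)
  have hvsurj : ∀ v ∈ R, ∃ j, vv j = v := by
    intro v hv
    exact ⟨e ⟨v, hv⟩, by simp [vv]⟩
  let g : Fin R.card → E d := fun j => lam (vv j) • n1g a (vv j)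
  have hg : ∀ j x, ⟪g j, x⟫ = lam (vv j) * ⟪n1g a (vv j), x⟫ := by
    intro j x
    exact real_inner_smul_left _ _ _
  have hgv : ∀ j, ⟪g j, vv j⟫ = lam (vv j) := by
    intro j
    rw [hg, n1g_self a _ (n1NS_tight (hR _ (hvR j))), mul_one]
  -- caps
  have hcap : ∀ j (s : SignType) x, x ∈ Pol a → 1 ≤ ((s : SignType) : ℝ) * ⟪g j, x⟫ →
      s ≠ 0 ∧ ((s : SignType) : ℝ) • vv j ∈ n1NS a ∧ x ∈ U (((s : SignType) : ℝ) • vv j) ∧
      ∀ i, |⟪a i, x⟫| = 1 → ⟪a i, ((s : SignType) : ℝ) • vv j⟫ = ⟪a i, x⟫ := by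
    intro j s x hx h
    have hj := hR _ (hvR j)
    rcases hs : s with _ | _ | _
    · exfalso
      rw [hs] at h
      change 1 ≤ ((0 : SignType) : ℝ) * _ at h
      rw [SignType.coe_zero, zero_mul] at h
      exact absurd h (by norm_num)
    · rw [hs] at h
      change 1 ≤ ((-1 : SignType) : ℝ) * _ at h
      have h' : 1 ≤ lam (vv j) * ⟪n1g a (vv j), -x⟫ := by
        rw [SignType.coe_neg_one, neg_one_mul, hg] at h
        rw [inner_neg_right, mul_neg]
        exact h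
      have h2 := (hlam (vv j) hj).2 (-x) (n1_pol_neg hx) h'
      have h3 : (((-1 : SignType)) : ℝ) • vv j = - vv j := by simp
      refine ⟨by decide, ?_⟩
      change (((-1 : SignType)) : ℝ) • vv j ∈ n1NS a ∧ x ∈ U ((((-1 : SignType)) : ℝ) • vv j) ∧
        ∀ i, |⟪a i, x⟫| = 1 → ⟪a i, (((-1 : SignType)) : ℝ) • vv j⟫ = ⟪a i, x⟫
      rw [h3]
      refine ⟨n1NS_neg hj, ?_, ?_⟩
      · have := h2.1.2
        change - -x ∈ U (-vv j) at this
        rwa [neg_neg] at this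
      · intro i hi
        have h4 := Set.mem_iInter.1 h2.2 i
        change (⟪a i, vv j⟫ ≠ 1 → ⟪a i, -x⟫ ≠ 1) ∧ (⟪a i, vv j⟫ ≠ -1 → ⟪a i, -x⟫ ≠ -1) at h4
        rw [inner_neg_right] at h4 ⊢
        rcases eq_or_eq_neg_of_abs_eq hi with h5 | h5
        · have : ⟪a i, vv j⟫ = -1 := by
            by_contra hne
            exact h4.2 hne (by rw [h5])
          rw [this, h5, neg_neg]
        · have : ⟪a i, vv j⟫ = 1 := by
            by_contra hne
            exact h4.1 hne (by rw [h5, neg_neg])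
          rw [this, h5]
    · rw [hs] at h
      change 1 ≤ ((1 : SignType) : ℝ) * _ at h
      rw [SignType.coe_one, one_mul, hg] at h
      have h2 := (hlam (vv j) hj).2 x hx h
      have h3 : (((1 : SignType)) : ℝ) • vv j = vv j := by simp
      refine ⟨by decide, ?_⟩
      change (((1 : SignType)) : ℝ) • vv j ∈ n1NS a ∧ x ∈ U ((((1 : SignType)) : ℝ) • vv j) ∧
        ∀ i, |⟪a i, x⟫| = 1 → ⟪a i, (((1 : SignType)) : ℝ) • vv j⟫ = ⟪a i, x⟫
      rw [h3]
      refine ⟨hj, h2.1.1, ?_⟩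
      intro i hi
      have h4 := Set.mem_iInter.1 h2.2 i
      change (⟪a i, vv j⟫ ≠ 1 → ⟪a i, x⟫ ≠ 1) ∧ (⟪a i, vv j⟫ ≠ -1 → ⟪a i, x⟫ ≠ -1) at h4
      rcases eq_or_eq_neg_of_abs_eq hi with h5 | h5
      · by_contra hne
        rw [h5] at hne
        exact h4.1 hne h5
      · by_contra hne
        rw [h5] at hne
        exact h4.2 hne h5
  have hrep : ∀ j k, ∀ s t : SignType, s ≠ 0 → t ≠ 0 →
      ((s : SignType) : ℝ) • vv j = ((t : SignType) : ℝ) • vv k → j = k ∧ s = t := by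
    intro j k s t hs ht h
    have hcase : ∀ s : SignType, s ≠ 0 → s = 1 ∨ s = -1 := by decide
    rcases hcase s hs with rfl | rfl <;> rcases hcase t ht with rfl | rfl
    · simp only [SignType.coe_one, one_smul] at h
      exact ⟨hvinj _ _ h, rfl⟩
    · exfalso
      simp only [SignType.coe_one, one_smul, SignType.coe_neg_one, neg_smul] at h
      have := hvR j
      rw [h] at this
      exact hRno _ (hvR k) this
    · exfalso
      simp only [SignType.coe_one, one_smul, SignType.coe_neg_one, neg_smul] at h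
      have := hvR k
      rw [← h] at this
      exact hRno _ (hvR j) this
    · simp only [SignType.coe_neg_one, neg_smul, one_smul, neg_inj] at h
      exact ⟨hvinj _ _ h, rfl⟩
  have hdisj : ∀ x ∈ Pol a, ∀ j k, ∀ s t : SignType, 1 ≤ ((s : SignType) : ℝ) * ⟪g j, x⟫ →
      1 ≤ ((t : SignType) : ℝ) * ⟪g k, x⟫ → j = k ∧ s = t := by
    intro x hx j k s t hs ht
    obtain ⟨hs0, hsN, hsU, hsi⟩ := hcap j s x hx hs
    obtain ⟨ht0, htN, htU, hti⟩ := hcap k t x hx ht
    apply hrep j k s t hs0 ht0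
    by_contra hne
    exact Set.disjoint_left.1 (hUd hsN htN hne) hsU htU
  have habs1 : ∀ s : SignType, s ≠ 0 → |((s : SignType) : ℝ)| = 1 := by
    intro s hs
    rcases s with _ | _ | _
    · exact absurd rfl hs
    · simp
    · simp
  have hind : ∀ j, LinearIndependent ℝ (fun p : {p : α × SignType // p.2 ≠ 0 ∧
      (∃ x ∈ Pol a, 1 ≤ ⟪g j, x⟫ ∧ ⟪a p.1, x⟫ = ((p.2 : SignType) : ℝ)) ∧
      ∃ x ∈ Pol a, (∃ k, 1 ≤ |⟪g k, x⟫|) ∧ ⟪g j, x⟫ < 1 ∧
        ⟪a p.1, x⟫ = ((p.2 : SignType) : ℝ)} => a p.1.1) := by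
    intro j
    have hj := hR _ (hvR j)
    have h1 := hns _ hj.1 hj.2
    have hkey : ∀ p : {p : α × SignType // p.2 ≠ 0 ∧
      (∃ x ∈ Pol a, 1 ≤ ⟪g j, x⟫ ∧ ⟪a p.1, x⟫ = ((p.2 : SignType) : ℝ)) ∧
      ∃ x ∈ Pol a, (∃ k, 1 ≤ |⟪g k, x⟫|) ∧ ⟪g j, x⟫ < 1 ∧
        ⟪a p.1, x⟫ = ((p.2 : SignType) : ℝ)}, ⟪a p.1.1, vv j⟫ = ((p.1.2 : SignType) : ℝ) ∧
        ∃ y ∈ Pol a, y ≠ vv j ∧
          ¬ LinearIndependent ℝ (fun k : {k : α // |⟪a k, y⟫| = 1} => a k.1) ∧
          ⟪a p.1.1, y⟫ = ⟪a p.1.1, vv j⟫ := by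
      rintro ⟨⟨i, σ⟩, hσ, ⟨x, hx, hgx, hax⟩, ⟨y, hy, ⟨k, hk⟩, hgy, hay⟩⟩
      change ⟪a i, x⟫ = ((σ : SignType) : ℝ) at hax
      change ⟪a i, y⟫ = ((σ : SignType) : ℝ) at hay
      change ⟪a i, vv j⟫ = ((σ : SignType) : ℝ) ∧ ∃ y ∈ Pol a, y ≠ vv j ∧
          ¬ LinearIndependent ℝ (fun k : {k : α // |⟪a k, y⟫| = 1} => a k.1) ∧
          ⟪a i, y⟫ = ⟪a i, vv j⟫
      have hσ1 := habs1 σ hσ
      obtain ⟨-, -, -, hti⟩ := hcap j 1 x hx (by rw [SignType.coe_one, one_mul]; exact hgx)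
      have h2 := hti i (by rw [hax]; exact hσ1)
      rw [SignType.coe_one, one_smul, hax] at h2
      refine ⟨h2, ?_⟩
      have hex : ∃ t : SignType, 1 ≤ ((t : SignType) : ℝ) * ⟪g k, y⟫ := by
        rcases le_abs'.1 hk with h3 | h3
        · refine ⟨-1, ?_⟩
          rw [SignType.coe_neg_one]
          linarith
        · refine ⟨1, ?_⟩
          rw [SignType.coe_one]
          linarith
      obtain ⟨t, ht⟩ := hex
      obtain ⟨ht0, htN, -, hti'⟩ := hcap k t y hy ht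
      have h3 := hti' i (by rw [hay]; exact hσ1)
      refine ⟨_, htN.1, ?_, htN.2, ?_⟩
      · intro heq
        obtain ⟨rfl, rfl⟩ := hrep k j t 1 ht0 (by decide) (by
          rw [heq, SignType.coe_one, one_smul])
        rw [SignType.coe_one, one_mul] at ht
        linarith
      · rw [h3, h2, hay]
    refine h1.comp (fun p => ⟨p.1.1, by rw [(hkey p).1]; exact habs1 _ p.2.1, (hkey p).2⟩) ?_
    intro p q hpq
    have h2 : p.1.1 = q.1.1 := congrArg (fun z => z.1) hpq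
    apply Subtype.ext
    apply Prod.ext h2
    apply n1_coe
    rw [← (hkey p).1, ← (hkey q).1, h2]
  refine ⟨R.card, g, ?_, hdisj, hind⟩
  -- simplicity
  intro s hs
  obtain ⟨x, hx⟩ := (Finset.mem_filter.1 hs).2
  have hxP : x ∈ Pol a := by
    intro i
    by_cases h : s (Sum.inl i) = 0
    · exact ((hx (Sum.inl i)).1 h).le
    · have h1 := (hx (Sum.inl i)).2 h
      change ⟪a i, x⟫ = _ at h1
      rw [h1]
      rcases hsl : s (Sum.inl i) with _ | _ | _
      · exact absurd hsl h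
      · simp
      · simp
  have htight : ∀ i, s (Sum.inl i) ≠ 0 ↔ |⟪a i, x⟫| = 1 := by
    intro i
    constructor
    · intro h
      have h1 := (hx (Sum.inl i)).2 h
      change ⟪a i, x⟫ = _ at h1
      rw [h1]
      rcases hsl : s (Sum.inl i) with _ | _ | _
      · exact absurd hsl h
      · simp
      · simp
    · intro h h0
      have h1 := (hx (Sum.inl i)).1 h0
      change |⟪a i, x⟫| < 1 at h1
      rw [h] at h1
      exact lt_irrefl _ h1
  have hgle : ∀ j, |⟪g j, x⟫| ≤ 1 := by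
    intro j
    by_cases h : s (Sum.inr j) = 0
    · exact ((hx (Sum.inr j)).1 h).le
    · have h1 := (hx (Sum.inr j)).2 h
      change ⟪g j, x⟫ = _ at h1
      rw [h1]
      rcases hsl : s (Sum.inr j) with _ | _ | _
      · exact absurd hsl h
      · simp
      · simp
  have hxNS : x ∉ n1NS a := by
    intro hxN
    rcases hRex x hxN with h | h
    · obtain ⟨j, hj⟩ := hvsurj x h
      have h1 := hgv j
      rw [hj] at h1
      have h2 := (hlam x hxN).1
      have h3 := hgle j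
      rw [h1, abs_of_pos (by linarith)] at h3
      linarith
    · obtain ⟨j, hj⟩ := hvsurj (-x) h
      have h1 := hgv j
      rw [hj, inner_neg_right] at h1
      have h2 := (hlam (-x) (n1NS_neg hxN)).1
      have h3 := hgle j
      have h4 : ⟪g j, x⟫ = - lam (-x) := by linarith
      rw [h4, abs_neg, abs_of_pos (by linarith)] at h3
      linarith
  have hli : LinearIndependent ℝ (fun i : {i : α // |⟪a i, x⟫| = 1} => a i.1) := by
    by_contra h
    exact hxNS ⟨hxP, h⟩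
  rw [n1_li (fun i => |⟪a i, x⟫| = 1) a] at hli
  rw [n1_li (fun l => s l ≠ 0) (Sum.elim a g)]
  intro c hc hsum
  rw [Fintype.sum_sum_type] at hsum
  simp only [Sum.elim_inl, Sum.elim_inr] at hsum
  have hcr : ∀ j, c (Sum.inr j) = 0 := by
    intro j
    by_contra hcj
    have hsj : s (Sum.inr j) ≠ 0 := by
      by_contra h
      exact hcj (hc _ (by simpa using h))
    have hgj : ⟪g j, x⟫ = ((s (Sum.inr j) : SignType) : ℝ) := (hx (Sum.inr j)).2 hsj
    have hsq : ((s (Sum.inr j) : SignType) : ℝ) * ((s (Sum.inr j) : SignType) : ℝ) = 1 := by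
      rcases hsl : s (Sum.inr j) with _ | _ | _
      · exact absurd hsl hsj
      · simp
      · simp
    have hcapj : 1 ≤ ((s (Sum.inr j) : SignType) : ℝ) * ⟪g j, x⟫ := by
      rw [hgj, hsq]
    obtain ⟨-, hN, -, hti⟩ := hcap j (s (Sum.inr j)) x hxP hcapj
    have hother : ∀ k, k ≠ j → c (Sum.inr k) = 0 := by
      intro k hk
      apply hc
      intro hsk
      apply hk
      have hgk : ⟪g k, x⟫ = ((s (Sum.inr k) : SignType) : ℝ) := (hx (Sum.inr k)).2 hsk
      have hsq' : ((s (Sum.inr k) : SignType) : ℝ) * ((s (Sum.inr k) : SignType) : ℝ) = 1 := by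
        rcases hsl : s (Sum.inr k) with _ | _ | _
        · exact absurd hsl hsk
        · simp
        · simp
      exact (hdisj x hxP k j (s (Sum.inr k)) (s (Sum.inr j))
        (by rw [hgk, hsq']) hcapj).1
    have h1 := congrArg (fun z => ⟪z, x - ((s (Sum.inr j) : SignType) : ℝ) • vv j⟫) hsum
    simp only [inner_add_left, sum_inner, real_inner_smul_left, inner_zero_left] at h1
    have h2 : ∑ i, c (Sum.inl i) * ⟪a i, x - ((s (Sum.inr j) : SignType) : ℝ) • vv j⟫ = 0 := by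
      apply Finset.sum_eq_zero
      intro i _
      by_cases hi : s (Sum.inl i) = 0
      · rw [hc _ (by simpa using hi), zero_mul]
      · rw [inner_sub_right, hti i ((htight i).1 hi), sub_self, mul_zero]
    have h3 : ∑ k, c (Sum.inr k) * ⟪g k, x - ((s (Sum.inr j) : SignType) : ℝ) • vv j⟫ =
        c (Sum.inr j) * ⟪g j, x - ((s (Sum.inr j) : SignType) : ℝ) • vv j⟫ := by
      apply Finset.sum_eq_single j
      · intro k _ hk
        rw [hother k hk, zero_mul]
      · intro h; exact absurd (Finset.mem_univ _) h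
    rw [h2, h3, zero_add] at h1
    rcases mul_eq_zero.1 h1 with h4 | h4
    · exact hcj h4
    · rw [inner_sub_right, real_inner_smul_right, hgj, hgv] at h4
      have h5 := (hlam (vv j) (hR _ (hvR j))).1
      have h6 : ((s (Sum.inr j) : SignType) : ℝ) * (1 - lam (vv j)) = 0 := by
        rw [mul_sub, mul_one]; exact h4
      rcases mul_eq_zero.1 h6 with h7 | h7
      · rw [h7, zero_mul] at hsq
        exact absurd hsq (by norm_num)
      · linarith
  intro l
  rcases l with i | j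
  · apply hli (fun i => c (Sum.inl i)) _ _ i
    · intro i hi
      apply hc
      intro h
      exact hi ((htight i).1 h)
    · simpa [hcr] using hsum
  · exact hcr j

end

end Pool.Agent.KST
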