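import Pool.Agent.KST.G0

/-! Row G1a of the KST project: the minimum of a linear functional over a face is attained at a vertex. -/

set_option autoImplicit false

open scoped BigOperators RealInnerProductSpace

namespace Pool.Agent.KST

noncomputable section

open Classical

variable {ι : Type} [Fintype ι] {d : ℕ}

theorem G1a_closed (b : ι → E d) : IsClosed (Pol b) := by
  have : Pol b = ⋂ l, {x : E d | |⟪b l, x⟫| ≤ 1} := by
    ext x; simp [Pol]
  rw [this]
  refine isClosed_iInter fun l => ?_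
  exact isClosed_le (by fun_prop) continuous_const

theorem G1a_compact {b : ι → E d} (hb : Bornology.IsBounded (Pol b)) : IsCompact (Pol b) :=
  Metric.isCompact_of_isClosed_isBounded (G1a_closed b) hb

theorem G1a_abs_sign {σ : SignType} (h : σ ≠ 0) : |((σ : SignType) : ℝ)| = 1 := by
  cases σ with
  | zero => exact absurd rfl h
  | neg => simp
  | pos => simp

/-- a nonzero vector orthogonal to fewer than `d` vectors -/
theorem G1a_orth (b : ι → E d) (A : Finset ι) (hA : A.card < d) :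
    ∃ u : E d, u ≠ 0 ∧ ∀ l ∈ A, ⟪b l, u⟫ = 0 := by
  set K : Submodule ℝ (E d) := Submodule.span ℝ ((A.image b : Finset (E d)) : Set (E d)) with hK
  have h1 : Module.finrank ℝ K ≤ A.card :=
    (finrank_span_finset_le_card _).trans Finset.card_image_le
  have h2 : Module.finrank ℝ K + Module.finrank ℝ Kᗮ = d := by
    rw [Submodule.finrank_add_finrank_orthogonal]; simp
  have h3 : 0 < Module.finrank ℝ Kᗮ := by omega
  have h4 : Kᗮ ≠ ⊥ := by
    intro h
    rw [h] at h3
    simp at h3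
  obtain ⟨u, hu, hu0⟩ := Submodule.exists_mem_ne_zero_of_ne_bot h4
  refine ⟨u, hu0, fun l hl => ?_⟩
  exact hu (b l) (Submodule.subset_span (by simpa using ⟨l, hl, rfl⟩))

/-- a point of a cell with small support can be moved along a line to a cell of larger support -/
theorem G1a_move {b : ι → E d} (hb : Bornology.IsBounded (Pol b)) {t : ι → SignType} {x u : E d}
    (hx : IsCell b t x) (hu : u ≠ 0) (hut : ∀ l, t l ≠ 0 → ⟪b l, u⟫ = 0) :
    (∃ ε : ℝ, 0 < ε ∧ x + ε • u ∈ Pol b ∧ x + (-ε) • u ∈ Pol b) ∧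
    ∃ τ : ℝ, ∃ t' : ι → SignType, IsCell b t' (x + τ • u) ∧ (supp t).card < (supp t').card := by
  have hinner : ∀ l (τ : ℝ), ⟪b l, x + τ • u⟫ = ⟪b l, x⟫ + τ * ⟪b l, u⟫ := by
    intro l τ
    rw [inner_add_right, inner_smul_right]
  -- openness: near a point of a cell with the same tight constraints we stay inside
  have hopen : ∀ τ₀ : ℝ, (∀ l, t l = 0 → |⟪b l, x + τ₀ • u⟫| < 1) →
      ∃ ε : ℝ, 0 < ε ∧ ∀ τ, |τ - τ₀| ≤ ε → x + τ • u ∈ Pol b := by
    intro τ₀ h
    have hev : ∀ l : ι, ∀ᶠ τ in nhds τ₀, t l = 0 → |⟪b l, x + τ • u⟫| < 1 := by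
      intro l
      by_cases hl : t l = 0
      · have hc : Continuous fun τ : ℝ => |⟪b l, x + τ • u⟫| := by fun_prop
        have := (hc.tendsto τ₀).eventually (gt_mem_nhds (h l hl))
        filter_upwards [this] with τ hτ _ using hτ
      · exact Filter.Eventually.of_forall fun τ h => absurd h hl
    have hall : ∀ᶠ τ in nhds τ₀, ∀ l, t l = 0 → |⟪b l, x + τ • u⟫| < 1 :=
      Filter.eventually_all.2 hev
    obtain ⟨ε, hε, hball⟩ := Metric.eventually_nhds_iff.1 hall
    refine ⟨ε / 2, by positivity, fun τ hτ l => ?_⟩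
    by_cases hl : t l = 0
    · refine (hball (y := τ) ?_ l hl).le
      rw [Real.dist_eq]; linarith
    · rw [hinner, hut l hl, mul_zero, add_zero, (hx l).2 hl, G1a_abs_sign hl]
  constructor
  · obtain ⟨ε, hε, h⟩ := hopen 0 (by
      intro l hl
      simpa using (hx l).1 hl)
    refine ⟨ε, hε, h ε (by simp [abs_of_pos hε]), h (-ε) (by simp [abs_of_pos hε])⟩
  · -- largest parameter
    set T : Set ℝ := {τ | 0 ≤ τ ∧ x + τ • u ∈ Pol b} with hT
    have hx0 : (0 : ℝ) ∈ T := by
      refine ⟨le_rfl, ?_⟩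
      rw [zero_smul, add_zero]
      exact isCell_pol hx
    have hTc : IsClosed T := by
      refine (isClosed_le continuous_const continuous_id).inter ?_
      exact (G1a_closed b).preimage (by fun_prop)
    have hTb : BddAbove T := by
      obtain ⟨R, hR⟩ := hb.subset_closedBall (0 : E d)
      refine ⟨(R + ‖x‖) / ‖u‖, ?_⟩
      rintro τ ⟨h0, hτ⟩
      have h1 : ‖x + τ • u‖ ≤ R := by simpa using hR hτ
      have hu' : 0 < ‖u‖ := norm_pos_iff.2 hu
      rw [le_div_iff₀ hu']
      have h2 : ‖τ • u‖ ≤ ‖x + τ • u‖ + ‖x‖ := by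
        have := norm_sub_le (x + τ • u) x
        simpa using this
      rw [norm_smul, Real.norm_eq_abs, abs_of_nonneg h0] at h2
      linarith
    have hmem : sSup T ∈ T := hTc.csSup_mem ⟨0, hx0⟩ hTb
    set τ := sSup T with hτ
    obtain ⟨t', ht'⟩ := exists_cell hmem.2
    refine ⟨τ, t', ht', ?_⟩
    have hsub : supp t ⊆ supp t' := by
      intro l hl
      have hl' : t l ≠ 0 := by simpa [supp] using hl
      simp only [supp, Finset.mem_filter, Finset.mem_univ, true_and]
      intro h0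
      have := (ht' l).1 h0
      rw [hinner, hut l hl', mul_zero, add_zero, (hx l).2 hl', G1a_abs_sign hl'] at this
      exact lt_irrefl _ this
    refine Finset.card_lt_card (Finset.ssubset_iff_subset_ne.2 ⟨hsub, fun heq => ?_⟩)
    have hall : ∀ l, t l = 0 → |⟪b l, x + τ • u⟫| < 1 := by
      intro l hl
      refine (ht' l).1 ?_
      by_contra h
      have : l ∈ supp t := by
        rw [heq]; simpa [supp] using h
      simp [supp, hl] at this
    obtain ⟨ε, hε, h⟩ := hopen τ hall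
    have h1 : τ + ε ∈ T := by
      refine ⟨add_nonneg hmem.1 hε.le, h (τ + ε) ?_⟩
      simp [abs_of_pos hε]
    have h2 : τ + ε ≤ τ := le_csSup hTb h1
    linarith

theorem exists_min {b : ι → E d} (hS : Simple b) (hb : Bornology.IsBounded (Pol b)) (a : E d)
    {s : ι → SignType} (hs : s ∈ Cells b) :
    ∃ v ∈ Verts b, Le s v ∧ ∀ x ∈ Pol b, (∀ l, s l ≠ 0 → ⟪b l, x⟫ = ((s l : SignType) : ℝ)) →
      ⟪a, pt b v⟫ ≤ ⟪a, x⟫ := by
  set F : Set (E d) := {x | x ∈ Pol b ∧ ∀ l, s l ≠ 0 → ⟪b l, x⟫ = ((s l : SignType) : ℝ)} with hF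
  have hFc : IsCompact F := by
    refine (G1a_compact hb).inter_right (t := {x : E d | ∀ l, s l ≠ 0 → ⟪b l, x⟫ = ((s l : SignType) : ℝ)}) ?_
    have : {x : E d | ∀ l, s l ≠ 0 → ⟪b l, x⟫ = ((s l : SignType) : ℝ)} =
        ⋂ l, {x : E d | s l ≠ 0 → ⟪b l, x⟫ = ((s l : SignType) : ℝ)} := by
      ext x; simp
    rw [this]
    refine isClosed_iInter fun l => ?_
    by_cases hl : s l = 0
    · simp [hl]
    · simp only [ne_eq, hl, not_false_eq_true, forall_true_left]
      exact isClosed_eq (by fun_prop) continuous_const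
  have hFn : F.Nonempty := ⟨pt b s, isCell_pol (isCell_pt hs), fun l hl => (isCell_pt hs l).2 hl⟩
  obtain ⟨x₀, hx₀, hmin⟩ := hFc.exists_isMinOn hFn
    (f := fun x : E d => ⟪a, x⟫) (by fun_prop)
  rw [isMinOn_iff] at hmin
  set Q : Finset (ι → SignType) := (Cells b).filter
    (fun t => ∃ x, IsCell b t x ∧ x ∈ F ∧ ⟪a, x⟫ = ⟪a, x₀⟫) with hQ
  have hQn : Q.Nonempty := by
    obtain ⟨t, ht⟩ := exists_cell hx₀.1
    exact ⟨t, Finset.mem_filter.2 ⟨mem_cells.2 ⟨x₀, ht⟩, x₀, ht, hx₀, rfl⟩⟩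
  obtain ⟨t, htQ, htmax⟩ := Finset.exists_max_image Q (fun t => (supp t).card) hQn
  obtain ⟨htC, x, hxt, hxF, hxa⟩ := Finset.mem_filter.1 htQ
  have hle : Le s t := by
    intro l hl
    have h1 := hxF.2 l hl
    by_cases h0 : t l = 0
    · have := (hxt l).1 h0
      rw [h1, G1a_abs_sign hl] at this
      exact absurd this (lt_irrefl _)
    · have h2 := (hxt l).2 h0
      rw [h1] at h2
      revert h2 h0 hl
      cases s l <;> cases t l <;> simp
      all_goals norm_num
  have hcard : (supp t).card = d := by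
    have hup : (supp t).card ≤ d := by
      have h1 := (hS t htC).fintype_card_le_finrank
      have h2 : Fintype.card {l : ι // t l ≠ 0} = (supp t).card := by
        rw [Fintype.card_subtype]; rfl
      rw [h2] at h1
      simpa using h1
    by_contra hne
    have hlt : (supp t).card < d := lt_of_le_of_ne hup hne
    obtain ⟨u, hu0, hu⟩ := G1a_orth b (supp t) hlt
    have hut : ∀ l, t l ≠ 0 → ⟪b l, u⟫ = 0 := fun l hl => hu l (by simpa [supp] using hl)
    obtain ⟨⟨ε, hε, hp, hm⟩, τ, t', ht', hlt'⟩ := G1a_move hb hxt hu0 hut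
    have hst : ∀ l, s l ≠ 0 → t l ≠ 0 := fun l hl => by rw [hle l hl]; exact hl
    have hface : ∀ r : ℝ, ∀ l, s l ≠ 0 → ⟪b l, x + r • u⟫ = ((s l : SignType) : ℝ) := by
      intro r l hl
      rw [inner_add_right, inner_smul_right, hut l (hst l hl), mul_zero, add_zero]
      exact hxF.2 l hl
    have h1 := hmin _ (show x + ε • u ∈ F from ⟨hp, hface ε⟩)
    have h2 := hmin _ (show x + (-ε) • u ∈ F from ⟨hm, hface (-ε)⟩)
    rw [inner_add_right, inner_smul_right, hxa] at h1 h2
    have hau : ⟪a, u⟫ = 0 := by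
      have h3 : 0 ≤ ε * ⟪a, u⟫ := by linarith
      have h4 : 0 ≤ (-ε) * ⟪a, u⟫ := by linarith
      have h5 : ε * ⟪a, u⟫ = 0 := by linarith
      exact (mul_eq_zero.1 h5).resolve_left hε.ne'
    have hQ' : t' ∈ Q := by
      refine Finset.mem_filter.2 ⟨mem_cells.2 ⟨_, ht'⟩, x + τ • u, ht', ⟨isCell_pol ht', hface τ⟩, ?_⟩
      rw [inner_add_right, inner_smul_right, hau, mul_zero, add_zero, hxa]
    have := htmax t' hQ'
    omega
  have hV : t ∈ Verts b := Finset.mem_filter.2 ⟨htC, hcard⟩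
  refine ⟨t, hV, hle, fun y hy hys => ?_⟩
  have hxpt : x = pt b t := eq_pt hS hV fun l hl => (hxt l).2 hl
  rw [← hxpt, hxa]
  exact hmin y ⟨hy, hys⟩

end

end Pool.Agent.KST
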