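import Pool.Agent.KST.G0
import Pool.Agent.KST.G1a
/-!
# The sweep of a simple polytope by a generic linear functional
-/
set_option autoImplicit false

open scoped BigOperators RealInnerProductSpace

namespace Pool.Agent.KST

noncomputable section

open Classical

variable {ι : Type} [Fintype ι] {d : ℕ}

theorem G1b_sq {σ : SignType} (h : σ ≠ 0) : ((σ : SignType) : ℝ) * ((σ : SignType) : ℝ) = 1 := by
  revert h
  cases σ <;> simp

theorem G1b_mul_le {σ : SignType} {r : ℝ} (hr : |r| ≤ 1) : ((σ : SignType) : ℝ) * r ≤ 1 := by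
  have h := abs_le.1 hr
  cases σ
  · simp
  · simp
    linarith [h.1]
  · simp
    linarith [h.2]

theorem G1b_verts_sub {b : ι → E d} {v : ι → SignType} (hv : v ∈ Verts b) : v ∈ Cells b :=
  (Finset.mem_filter.1 hv).1

theorem G1b_mem_supp {v : ι → SignType} {l : ι} : l ∈ supp v ↔ v l ≠ 0 := by
  unfold supp
  rw [Finset.mem_filter]
  exact ⟨fun h => h.2, fun h => ⟨Finset.mem_univ _, h⟩⟩

theorem G1b_mem_PP {b : ι → E d} {a : E d} {v : ι → SignType} {l : ι} :
    l ∈ PP b a v ↔ v l ≠ 0 ∧ 0 < ⟪a, dv b v l⟫ := by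
  unfold PP
  rw [Finset.mem_filter, G1b_mem_supp]

theorem low_lt {b : ι → E d} (hS : Simple b) {a : E d} (ha : Gen b a) {v : ι → SignType}
    (hv : v ∈ Verts b) {s : ι → SignType} (h : Low (PP b a) v s) {x : E d} (hx : x ∈ Pol b)
    (hxs : ∀ l, s l ≠ 0 → ⟪b l, x⟫ = ((s l : SignType) : ℝ)) (hne : x ≠ pt b v) :
    ⟪a, pt b v⟫ < ⟪a, x⟫ := by
  have hcell := isCell_pt (G1b_verts_sub hv)
  have hex := expand hS hv a
  -- the difference as a sum
  have hkey : ∀ z : E d, ⟪a, z⟫ =
      ∑ l ∈ supp v, ⟪a, dv b v l⟫ * (((v l : SignType) : ℝ) * ⟪b l, z⟫) := by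
    intro z
    conv_lhs => rw [hex]
    rw [sum_inner]
    refine Finset.sum_congr rfl fun l _ => ?_
    rw [real_inner_smul_left, mul_assoc]
  have hpt : ∀ l ∈ supp v, ((v l : SignType) : ℝ) * ⟪b l, pt b v⟫ = 1 := by
    intro l hl
    have hl' := G1b_mem_supp.1 hl
    rw [(hcell l).2 hl', G1b_sq hl']
  have hterm : ∀ l ∈ supp v, ⟪a, dv b v l⟫ * (((v l : SignType) : ℝ) * ⟪b l, pt b v⟫) ≤
      ⟪a, dv b v l⟫ * (((v l : SignType) : ℝ) * ⟪b l, x⟫) := by
    intro l hl
    have hl' := G1b_mem_supp.1 hl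
    rw [hpt l hl]
    rcases lt_or_gt_of_ne (ha v hv l hl) with hneg | hpos
    · have h1 := G1b_mul_le (σ := v l) (hx l)
      nlinarith
    · have h2 : s l ≠ 0 := h.2 l (G1b_mem_PP.2 ⟨hl', hpos⟩)
      have h3 : v l = s l := h.1 l h2
      rw [hxs l h2, h3, G1b_sq h2]
  rw [hkey (pt b v), hkey x]
  refine Finset.sum_lt_sum hterm ?_
  by_contra hcon
  apply hne
  refine eq_pt hS hv fun l hl => ?_
  have hl' := G1b_mem_supp.2 hl
  have h1 : ¬ (⟪a, dv b v l⟫ * (((v l : SignType) : ℝ) * ⟪b l, pt b v⟫) <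
      ⟪a, dv b v l⟫ * (((v l : SignType) : ℝ) * ⟪b l, x⟫)) := fun hlt => hcon ⟨l, hl', hlt⟩
  have h2 := le_antisymm (hterm l hl') (not_lt.1 h1)
  have h3 := mul_left_cancel₀ (ha v hv l hl') h2
  rw [hpt l hl'] at h3
  have h4 : ((v l : SignType) : ℝ) * (((v l : SignType) : ℝ) * ⟪b l, x⟫) =
      ((v l : SignType) : ℝ) := by
    rw [← h3, mul_one]
  rw [← mul_assoc, G1b_sq hl, one_mul] at h4
  exact h4

/-- small steps along an edge stay in the polytope -/
theorem G1b_step {b : ι → E d} (hS : Simple b) {v : ι → SignType} (hv : v ∈ Verts b) {l : ι}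
    (hl : v l ≠ 0) : ∃ ε : ℝ, 0 < ε ∧ pt b v - ε • dv b v l ∈ Pol b := by
  have hcell := isCell_pt (G1b_verts_sub hv)
  have hdv := dv_spec hS (G1b_verts_sub hv) hl
  -- a uniform bound
  have hex : ∃ δ : ℝ, 0 < δ ∧ δ ≤ 1 ∧ ∀ k, v k = 0 →
      |⟪b k, pt b v⟫| + δ * |⟪b k, dv b v l⟫| ≤ 1 := by
    have hex1 : ∀ k : ι, ∃ δ : ℝ, 0 < δ ∧ (v k = 0 →
        |⟪b k, pt b v⟫| + δ * |⟪b k, dv b v l⟫| ≤ 1) := by
      intro k
      by_cases hk : v k = 0
      · have h1 := (hcell k).1 hk
        refine ⟨(1 - |⟪b k, pt b v⟫|) / (|⟪b k, dv b v l⟫| + 1), ?_, fun _ => ?_⟩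
        · apply div_pos
          · linarith
          · positivity
        · have h2 : (1 - |⟪b k, pt b v⟫|) / (|⟪b k, dv b v l⟫| + 1) * |⟪b k, dv b v l⟫| ≤
              1 - |⟪b k, pt b v⟫| := by
            rw [div_mul_eq_mul_div, div_le_iff₀ (by positivity)]
            have h3 : 0 ≤ 1 - |⟪b k, pt b v⟫| := by linarith
            nlinarith [abs_nonneg ⟪b k, dv b v l⟫]
          linarith
      · exact ⟨1, one_pos, fun h => absurd h hk⟩
    choose δ hδ0 hδ using hex1
    -- minimum over all `k`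
    have hmin : ∀ A : Finset ι, ∃ η : ℝ, 0 < η ∧ η ≤ 1 ∧ ∀ k ∈ A, η ≤ δ k := by
      intro A
      induction A using Finset.induction_on with
      | empty => exact ⟨1, one_pos, le_rfl, fun k hk => absurd hk (Finset.notMem_empty k)⟩
      | insert k A _ ih =>
        obtain ⟨η, h0, h1, h2⟩ := ih
        refine ⟨min η (δ k), lt_min h0 (hδ0 k), (min_le_left _ _).trans h1, ?_⟩
        intro m hm
        rcases Finset.mem_insert.1 hm with rfl | hm
        · exact min_le_right _ _
        · exact (min_le_left _ _).trans (h2 m hm)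
    obtain ⟨η, h0, h1, h2⟩ := hmin Finset.univ
    refine ⟨η, h0, h1, fun k hk => ?_⟩
    have h3 := hδ k hk
    have h4 := mul_le_mul_of_nonneg_right (h2 k (Finset.mem_univ k))
      (abs_nonneg ⟪b k, dv b v l⟫)
    linarith
  obtain ⟨δ, h0, h1, h2⟩ := hex
  refine ⟨δ, h0, fun k => ?_⟩
  rw [inner_sub_right, real_inner_smul_right]
  by_cases hk : v k = 0
  · have h3 := h2 k hk
    have h4 := abs_sub (⟪b k, pt b v⟫) (δ * ⟪b k, dv b v l⟫)
    rw [abs_mul, abs_of_pos h0] at h4
    linarith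
  · rw [(hcell k).2 hk, hdv k hk]
    by_cases hkl : k = l
    · subst hkl
      rw [if_pos rfl]
      have h5 : ((v k : SignType) : ℝ) - δ * ((v k : SignType) : ℝ) =
          (1 - δ) * ((v k : SignType) : ℝ) := by ring
      rw [h5, abs_mul, G1a_abs_sign hk, mul_one, abs_of_nonneg (by linarith)]
      linarith
    · rw [if_neg hkl, mul_zero, sub_zero, G1a_abs_sign hk]

theorem sweep_cells {b : ι → E d} (hS : Simple b) (hb : Bornology.IsBounded (Pol b)) {a : E d}
    (ha : Gen b a) : Sweep b (Cells b) (Verts b) (PP b a) (fun v => ⟪a, pt b v⟫) := by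
  have hface : ∀ {s w : ι → SignType}, w ∈ Verts b → Le s w → ∀ l, s l ≠ 0 →
      ⟪b l, pt b w⟫ = ((s l : SignType) : ℝ) := by
    intro s w hw h l hl
    have h1 : w l = s l := h l hl
    have h2 : w l ≠ 0 := by rw [h1]; exact hl
    rw [((isCell_pt (G1b_verts_sub hw)) l).2 h2, h1]
  have hpol : ∀ {w : ι → SignType}, w ∈ Verts b → pt b w ∈ Pol b := fun hw =>
    isCell_pol (isCell_pt (G1b_verts_sub hw))
  have hptne : ∀ {v w : ι → SignType}, v ∈ Verts b → w ∈ Verts b → v ≠ w →
      pt b w ≠ pt b v := by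
    intro v w hv hw hne heq
    apply hne
    have h1 := isCell_pt (G1b_verts_sub hw)
    rw [heq] at h1
    exact isCell_inj (isCell_pt (G1b_verts_sub hv)) h1
  refine
    { zero := zero_mem_cells b
      sub := fun v hv => G1b_verts_sub hv
      card := fun v hv => (Finset.mem_filter.1 hv).2
      ind := fun v hv => hS v (G1b_verts_sub hv)
      psub := fun v _ => Finset.filter_subset _ _
      down := fun s t ht h => cells_down hS ht h
      ex := ?_
      uniq := ?_
      up := ?_ }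
  · intro s hs
    obtain ⟨v, hv, hle, hmin⟩ := exists_min hS hb a hs
    refine ⟨v, hv, hle, fun l hl hsl => ?_⟩
    obtain ⟨hvl, hpos⟩ := G1b_mem_PP.1 hl
    obtain ⟨ε, hε, hmem⟩ := G1b_step hS hv hvl
    have h1 := hmin _ hmem (by
      intro k hk
      have h2 : v k = s k := hle k hk
      have h3 : v k ≠ 0 := by rw [h2]; exact hk
      have h4 : k ≠ l := by
        rintro rfl
        exact hk hsl
      rw [inner_sub_right, real_inner_smul_right, dv_spec hS (G1b_verts_sub hv) hvl k h3,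
        if_neg h4, mul_zero, sub_zero]
      exact hface hv hle k hk)
    rw [inner_sub_right, real_inner_smul_right] at h1
    have h5 := mul_pos hε hpos
    linarith
  · intro s _ v hv w hw hv1 hw1
    by_contra hne
    have h1 := low_lt hS ha hv hv1 (hpol hw) (hface hw hw1.1) (hptne hv hw hne)
    have h2 := low_lt hS ha hw hw1 (hpol hv) (hface hv hv1.1) (hptne hw hv (Ne.symm hne))
    exact lt_asymm h1 h2
  · intro s t _ hst v hv hv1 hnle w hw hw1
    have hsw : Le s w := by
      intro l hl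
      have h1 : t l = s l := hst l hl
      have h2 : t l ≠ 0 := by rw [h1]; exact hl
      rw [hw1.1 l h2, h1]
    refine low_lt hS ha hv hv1 (hpol hw) (hface hw hsw) (hptne hv hw ?_)
    rintro rfl
    exact hnle hw1.1

end

end Pool.Agent.KST
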