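import Pool.Agent.KST.Defs
import Pool.Agent.KST.G1b

set_option autoImplicit false

open scoped BigOperators RealInnerProductSpace

namespace Pool.Agent.KST

noncomputable section

open Classical

variable {ι : Type} [Fintype ι] {d : ℕ}

theorem G2_mem_supp {s : ι → SignType} {l : ι} : l ∈ supp s ↔ s l ≠ 0 := by
  simp [supp]

/-- number of sign vectors between `P v` and `v` -/
theorem G2_card_low {b : ι → E d} {C V : Finset (ι → SignType)}
    {P : (ι → SignType) → Finset ι} {ht : (ι → SignType) → ℝ} (h : Sweep b C V P ht)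
    {v : ι → SignType} (hv : v ∈ V) :
    (C.filter (fun s => Low P v s)).card = 2 ^ (d - (P v).card) := by
  rw [← h.card v hv, ← Finset.card_Icc_finset (h.psub v hv)]
  refine Finset.card_nbij' (fun s => supp s) (fun T l => if l ∈ T then v l else 0) ?_ ?_ ?_ ?_
  · intro s hs
    rw [Finset.mem_coe, Finset.mem_filter] at hs
    rw [Finset.mem_coe, Finset.mem_Icc]
    refine ⟨?_, ?_⟩
    · intro l hl
      exact G2_mem_supp.2 (hs.2.2 l hl)
    · intro l hl
      have h1 := G2_mem_supp.1 hl
      rw [G2_mem_supp, hs.2.1 l h1]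
      exact h1
  · intro T hT
    rw [Finset.mem_coe, Finset.mem_Icc] at hT
    rw [Finset.mem_coe, Finset.mem_filter]
    have hle : Le (fun l => if l ∈ T then v l else 0) v := by
      intro l hl
      by_cases hlT : l ∈ T
      · simp [hlT]
      · simp [hlT] at hl
    refine ⟨h.down _ v (h.sub v hv) hle, hle, ?_⟩
    intro l hl
    have hlT : l ∈ T := hT.1 hl
    have := G2_mem_supp.1 (hT.2 hlT)
    simpa [hlT] using this
  · intro s hs
    rw [Finset.mem_coe, Finset.mem_filter] at hs
    funext l
    by_cases hl : s l = 0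
    · simp [G2_mem_supp, hl]
    · simp only [G2_mem_supp, ne_eq, hl, not_false_eq_true, if_true]
      exact hs.2.1 l hl
  · intro T hT
    rw [Finset.mem_coe, Finset.mem_Icc] at hT
    ext l
    rw [G2_mem_supp]
    by_cases hlT : l ∈ T
    · have := G2_mem_supp.1 (hT.2 hlT)
      simpa [hlT] using this
    · simp [hlT]

theorem sweep_card {b : ι → E d} {C V : Finset (ι → SignType)}
    {P : (ι → SignType) → Finset ι} {ht : (ι → SignType) → ℝ} (h : Sweep b C V P ht) :
    C.card = ∑ v ∈ V, 2 ^ (d - (P v).card) := by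
  have hC : C = V.biUnion (fun v => C.filter (fun s => Low P v s)) := by
    ext s
    rw [Finset.mem_biUnion]
    constructor
    · intro hs
      obtain ⟨v, hv, hl⟩ := h.ex s hs
      exact ⟨v, hv, Finset.mem_filter.2 ⟨hs, hl⟩⟩
    · rintro ⟨v, _, hs⟩
      exact (Finset.mem_filter.1 hs).1
  have hcard : C.card = ∑ v ∈ V, (C.filter (fun s => Low P v s)).card := by
    conv_lhs => rw [hC]
    rw [Finset.card_biUnion]
    intro v hv w hw hvw
    refine Finset.disjoint_left.2 ?_
    intro s hs hs'
    rw [Finset.mem_filter] at hs hs'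
    exact hvw (h.uniq s hs.1 v hv w hw hs.2 hs'.2)
  rw [hcard]
  exact Finset.sum_congr rfl (fun v hv => G2_card_low h hv)

theorem gen_neg {b : ι → E d} {a : E d} (ha : Gen b a) : Gen b (-a) := by
  intro v hv l hl
  rw [inner_neg_left]
  exact neg_ne_zero.2 (ha v hv l hl)

theorem PP_neg {b : ι → E d} {a : E d} (ha : Gen b a) {v : ι → SignType} (hv : v ∈ Verts b) :
    PP b (-a) v = supp v \ PP b a v := by
  ext l
  rw [Finset.mem_sdiff, PP, PP, Finset.mem_filter, Finset.mem_filter, inner_neg_left]
  constructor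
  · rintro ⟨h1, h2⟩
    exact ⟨h1, fun h3 => by linarith [h3.2]⟩
  · rintro ⟨h1, h2⟩
    refine ⟨h1, ?_⟩
    have h3 := ha v hv l h1
    rcases lt_or_gt_of_ne h3 with h4 | h4
    · linarith
    · exact absurd ⟨h1, h4⟩ h2

theorem card_cells {b : ι → E d} (hS : Simple b) (hb : Bornology.IsBounded (Pol b)) {a : E d}
    (ha : Gen b a) : (Cells b).card = ∑ v ∈ Verts b, 2 ^ (PP b a v).card := by
  rw [sweep_card (sweep_cells hS hb (gen_neg ha))]
  refine Finset.sum_congr rfl (fun v hv => ?_)
  have h1 : (supp v).card = d := (Finset.mem_filter.1 hv).2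
  have h2 : PP b a v ⊆ supp v := Finset.filter_subset _ _
  have h3 := Finset.card_le_card h2
  rw [PP_neg ha hv, Finset.card_sdiff_of_subset h2, h1]
  congr 1
  omega

end

end Pool.Agent.KST
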