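import Pool.Agent.KST.Defs
/-!
# Cells of a centrally symmetric polytope
-/
set_option autoImplicit false

open scoped BigOperators RealInnerProductSpace

namespace Pool.Agent.KST

noncomputable section

open Classical

variable {ι : Type} [Fintype ι] {d : ℕ}

theorem mem_cells {b : ι → E d} {s : ι → SignType} : s ∈ Cells b ↔ ∃ x, IsCell b s x := by
  unfold Cells
  rw [Finset.mem_filter]
  exact ⟨fun h => h.2, fun h => ⟨Finset.mem_univ _, h⟩⟩

theorem zero_mem_cells (b : ι → E d) : (0 : ι → SignType) ∈ Cells b := by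
  rw [mem_cells]
  refine ⟨0, fun l => ⟨fun _ => ?_, fun h => absurd rfl h⟩⟩
  rw [inner_zero_right, abs_zero]
  exact one_pos

theorem G0_cast_neg (a : SignType) : ((-a : SignType) : ℝ) = -((a : SignType) : ℝ) := by
  cases a <;> simp

theorem neg_mem_cells {b : ι → E d} {s : ι → SignType} (h : s ∈ Cells b) : -s ∈ Cells b := by
  rw [mem_cells] at h ⊢
  obtain ⟨x, hx⟩ := h
  refine ⟨-x, fun l => ⟨fun hl => ?_, fun hl => ?_⟩⟩
  · rw [inner_neg_right, abs_neg]
    refine (hx l).1 ?_
    rw [Pi.neg_apply] at hl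
    generalize s l = a at hl ⊢
    revert hl
    cases a <;> decide
  · rw [inner_neg_right, Pi.neg_apply, G0_cast_neg]
    congr 1
    refine (hx l).2 ?_
    intro h0
    apply hl
    rw [Pi.neg_apply, h0]
    rfl

theorem isCell_pt {b : ι → E d} {s : ι → SignType} (h : s ∈ Cells b) : IsCell b s (pt b s) := by
  have h' := mem_cells.1 h
  unfold pt
  rw [dif_pos h']
  exact h'.choose_spec

theorem G0_abs_cast {a : SignType} (h : a ≠ 0) : |((a : SignType) : ℝ)| = 1 := by
  revert h
  cases a <;> simp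

theorem isCell_inj {b : ι → E d} {s t : ι → SignType} {x : E d} (hs : IsCell b s x)
    (ht : IsCell b t x) : s = t := by
  funext l
  by_cases h1 : s l = 0
  · by_cases h2 : t l = 0
    · rw [h1, h2]
    · exfalso
      have h3 := (hs l).1 h1
      rw [(ht l).2 h2, G0_abs_cast h2] at h3
      exact lt_irrefl _ h3
  · by_cases h2 : t l = 0
    · exfalso
      have h3 := (ht l).1 h2
      rw [(hs l).2 h1, G0_abs_cast h1] at h3
      exact lt_irrefl _ h3
    · have h3 : ((s l : SignType) : ℝ) = ((t l : SignType) : ℝ) := by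
        rw [← (hs l).2 h1, ← (ht l).2 h2]
      revert h1 h2 h3
      generalize s l = a
      generalize t l = c
      cases a <;> cases c <;> simp <;> norm_num

/-- every point of the polytope lies in a cell -/
theorem exists_cell {b : ι → E d} {x : E d} (hx : x ∈ Pol b) : ∃ s, IsCell b s x := by
  refine ⟨fun l => if ⟪b l, x⟫ = 1 then 1 else if ⟪b l, x⟫ = -1 then -1 else 0, fun l => ?_⟩
  have h := hx l
  by_cases h1 : ⟪b l, x⟫ = 1
  · simp [h1]
  · by_cases h2 : ⟪b l, x⟫ = -1
    · have h3 : ¬ ((-1 : ℝ) = 1) := by norm_num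
      simp [h2, h3]
    · simp only [h1, h2, if_false]
      refine ⟨fun _ => ?_, fun h => absurd rfl h⟩
      refine lt_of_le_of_ne h ?_
      intro h3
      rcases abs_eq (zero_le_one) |>.1 h3 with h4 | h4
      · exact h1 h4
      · exact h2 h4

theorem isCell_pol {b : ι → E d} {s : ι → SignType} {x : E d} (hs : IsCell b s x) :
    x ∈ Pol b := by
  intro l
  by_cases h : s l = 0
  · exact ((hs l).1 h).le
  · rw [(hs l).2 h, G0_abs_cast h]

/-- dual vectors of an independent family -/
theorem G0_dual {κ : Type} [Fintype κ] {w : κ → E d} (hw : LinearIndependent ℝ w) (c : κ → ℝ) :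
    ∃ y : E d, ∀ k, ⟪w k, y⟫ = c k := by
  let T : E d →ₗ[ℝ] (κ → ℝ) := LinearMap.pi fun k => (innerₛₗ ℝ (w k))
  have hT : ∀ y k, T y k = ⟪w k, y⟫ := fun y k => rfl
  have hsurj : Function.Surjective T := by
    rw [← LinearMap.range_eq_top]
    by_contra hne
    obtain ⟨f, hf0, hf⟩ := Submodule.exists_le_ker_of_lt_top (LinearMap.range T)
      (lt_top_iff_ne_top.2 hne)
    -- `f` is a combination of the coordinates
    have h1 : ∀ y, ∑ k, f (Pi.single k 1) * ⟪w k, y⟫ = 0 := by
      intro y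
      have h2 : f (T y) = 0 := hf ⟨y, rfl⟩
      have h3 : T y = ∑ k, (⟪w k, y⟫) • (Pi.single k (1 : ℝ) : κ → ℝ) := by
        funext j
        rw [Finset.sum_apply]
        simp [Pi.single_apply, hT]
      rw [h3, map_sum] at h2
      rw [← h2]
      refine Finset.sum_congr rfl fun k _ => ?_
      rw [map_smul, smul_eq_mul, mul_comm]
    have h4 : ∑ k, f (Pi.single k 1) • w k = 0 := by
      have h5 := h1 (∑ k, f (Pi.single k 1) • w k)
      rw [← inner_self_eq_zero (𝕜 := ℝ)]
      rw [← h5]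
      conv_lhs => rw [sum_inner]
      refine Finset.sum_congr rfl fun k _ => ?_
      rw [real_inner_smul_left]
    have h6 := (Fintype.linearIndependent_iff.1 hw) _ h4
    apply hf0
    ext k
    simpa using h6 k
  obtain ⟨y, hy⟩ := hsurj c
  exact ⟨y, fun k => by rw [← hT, hy]⟩

theorem G0_dual' {b : ι → E d} {v : ι → SignType}
    (hi : LinearIndependent ℝ (fun l : {l : ι // v l ≠ 0} => b l.1)) (c : ι → ℝ) :
    ∃ y : E d, ∀ k, v k ≠ 0 → ⟪b k, y⟫ = c k := by
  obtain ⟨y, hy⟩ := G0_dual hi (fun k => c k.1)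
  exact ⟨y, fun k hk => hy ⟨k, hk⟩⟩

theorem dv_spec {b : ι → E d} (hS : Simple b) {v : ι → SignType} (hv : v ∈ Cells b) {l : ι}
    (hl : v l ≠ 0) : ∀ k, v k ≠ 0 →
      ⟪b k, dv b v l⟫ = if k = l then ((v l : SignType) : ℝ) else 0 := by
  have h : ∃ y : E d, ∀ k, v k ≠ 0 → ⟪b k, y⟫ = if k = l then ((v l : SignType) : ℝ) else 0 :=
    G0_dual' (hS v hv) _
  unfold dv
  rw [dif_pos h]
  exact h.choose_spec

theorem cells_down {b : ι → E d} (hS : Simple b) {s t : ι → SignType} (ht : t ∈ Cells b)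
    (h : Le s t) : s ∈ Cells b := by
  obtain ⟨y, hy⟩ := G0_dual' (hS t ht) (fun l => if s l = 0 then ((t l : SignType) : ℝ) else 0)
  obtain ⟨x, hx⟩ := mem_cells.1 ht
  rw [mem_cells]
  -- a small parameter
  obtain ⟨ε, hε0, hε1, hε⟩ : ∃ ε : ℝ, 0 < ε ∧ ε < 1 ∧ ∀ l, t l = 0 →
      |⟪b l, x⟫| + ε * |⟪b l, y⟫| < 1 := by
    have key : ∀ F : Finset ι, ∃ ε : ℝ, 0 < ε ∧ ε < 1 ∧ ∀ l ∈ F, t l = 0 →
        |⟪b l, x⟫| + ε * |⟪b l, y⟫| < 1 := by
      intro F
      induction F using Finset.induction_on with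
      | empty => exact ⟨1 / 2, by norm_num, by norm_num, by simp⟩
      | insert a F _ ih =>
        obtain ⟨ε, h1, h2, h3⟩ := ih
        by_cases ha : t a = 0
        · have h4 := (hx a).1 ha
          refine ⟨min ε ((1 - |⟪b a, x⟫|) / (|⟪b a, y⟫| + 1)), ?_, ?_, ?_⟩
          · refine lt_min h1 (div_pos (by linarith) (by positivity))
          · exact (min_le_left _ _).trans_lt h2
          · intro l hl hl0
            rcases Finset.mem_insert.1 hl with rfl | hl
            · have h5 : min ε ((1 - |⟪b l, x⟫|) / (|⟪b l, y⟫| + 1)) * (|⟪b l, y⟫| + 1) ≤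
                  1 - |⟪b l, x⟫| := by
                rw [← le_div_iff₀ (by positivity)]
                exact min_le_right _ _
              have h6 : 0 < min ε ((1 - |⟪b l, x⟫|) / (|⟪b l, y⟫| + 1)) :=
                lt_min h1 (div_pos (by linarith) (by positivity))
              nlinarith
            · have h5 := h3 l hl hl0
              have h6 : min ε ((1 - |⟪b a, x⟫|) / (|⟪b a, y⟫| + 1)) * |⟪b l, y⟫| ≤
                  ε * |⟪b l, y⟫| :=
                mul_le_mul_of_nonneg_right (min_le_left _ _) (abs_nonneg _)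
              linarith
        · refine ⟨ε, h1, h2, ?_⟩
          intro l hl hl0
          rcases Finset.mem_insert.1 hl with rfl | hl
          · exact absurd hl0 ha
          · exact h3 l hl hl0
    obtain ⟨ε, h1, h2, h3⟩ := key Finset.univ
    exact ⟨ε, h1, h2, fun l => h3 l (Finset.mem_univ l)⟩
  refine ⟨x - ε • y, fun l => ⟨fun hl => ?_, fun hl => ?_⟩⟩
  · rw [inner_sub_right, real_inner_smul_right]
    by_cases htl : t l = 0
    · have h1 := hε l htl
      have h2 : |⟪b l, x⟫ - ε * ⟪b l, y⟫| ≤ |⟪b l, x⟫| + |ε * ⟪b l, y⟫| := abs_sub _ _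
      rw [abs_mul, abs_of_pos hε0] at h2
      linarith
    · rw [(hx l).2 htl, hy l htl, if_pos hl]
      have e : ((t l : SignType) : ℝ) - ε * ((t l : SignType) : ℝ) =
          (1 - ε) * ((t l : SignType) : ℝ) := by ring
      rw [e, abs_mul, G0_abs_cast htl, mul_one, abs_of_pos (by linarith)]
      linarith
  · have h1 : t l = s l := h l hl
    have htl : t l ≠ 0 := by rw [h1]; exact hl
    rw [inner_sub_right, real_inner_smul_right, (hx l).2 htl, hy l htl, if_neg hl, mul_zero,
      sub_zero, h1]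

theorem G0_span {b : ι → E d} (hS : Simple b) {v : ι → SignType} (hv : v ∈ Verts b) :
    Submodule.span ℝ (Set.range (fun l : {l : ι // v l ≠ 0} => b l.1)) = ⊤ := by
  have h1 := Finset.mem_filter.1 hv
  apply (hS v h1.1).span_eq_top_of_card_eq_finrank'
  rw [finrank_euclideanSpace_fin, Fintype.card_subtype]
  exact h1.2

/-- two vectors with the same products with a basis are equal -/
theorem G0_ext {b : ι → E d} (hS : Simple b) {v : ι → SignType} (hv : v ∈ Verts b) {x y : E d}
    (h : ∀ l, v l ≠ 0 → ⟪b l, x⟫ = ⟪b l, y⟫) : x = y := by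
  have h1 : ∀ z ∈ Submodule.span ℝ (Set.range (fun l : {l : ι // v l ≠ 0} => b l.1)),
      ⟪z, x - y⟫ = 0 := by
    intro z hz
    induction hz using Submodule.span_induction with
    | mem z hz =>
      obtain ⟨l, rfl⟩ := hz
      rw [inner_sub_right, h l.1 l.2, sub_self]
    | zero => rw [inner_zero_left]
    | add u w _ _ hu hw => rw [inner_add_left, hu, hw, add_zero]
    | smul c u _ hu => rw [real_inner_smul_left, hu, mul_zero]
  have h2 := h1 (x - y) (by rw [G0_span hS hv]; trivial)
  rw [inner_self_eq_zero] at h2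
  exact sub_eq_zero.1 h2

theorem expand {b : ι → E d} (hS : Simple b) {v : ι → SignType} (hv : v ∈ Verts b) (a : E d) :
    a = ∑ l ∈ supp v, (⟪a, dv b v l⟫ * ((v l : SignType) : ℝ)) • b l := by
  have hvc := (Finset.mem_filter.1 hv).1
  -- `a` is a combination of the `b l`
  have h1 : a ∈ Submodule.span ℝ (Set.range (fun l : {l : ι // v l ≠ 0} => b l.1)) := by
    rw [G0_span hS hv]
    trivial
  obtain ⟨c, hc⟩ := (Submodule.mem_span_range_iff_exists_fun ℝ).1 h1
  have h2 : ∀ l : {l : ι // v l ≠ 0}, ⟪a, dv b v l.1⟫ = c l * ((v l.1 : SignType) : ℝ) := by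
    intro l
    rw [← hc, sum_inner]
    have h3 : ∀ k : {l : ι // v l ≠ 0}, ⟪c k • b k.1, dv b v l.1⟫ =
        if k = l then c l * ((v l.1 : SignType) : ℝ) else 0 := by
      intro k
      rw [real_inner_smul_left, dv_spec hS hvc l.2 k.1 k.2]
      by_cases hk : k = l
      · rw [if_pos hk, if_pos (congrArg Subtype.val hk), hk]
      · rw [if_neg hk, if_neg (fun h => hk (Subtype.ext h)), mul_zero]
    rw [Finset.sum_congr rfl fun k _ => h3 k, Finset.sum_ite_eq' Finset.univ l,
      if_pos (Finset.mem_univ l)]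
  rw [Finset.sum_subtype (supp v) (p := fun l => v l ≠ 0) (fun x => by simp [supp])]
  conv_lhs => rw [← hc]
  refine Finset.sum_congr rfl fun l _ => ?_
  rw [h2 l]
  have h4 : ((v l.1 : SignType) : ℝ) * ((v l.1 : SignType) : ℝ) = 1 := by
    have h5 := G0_abs_cast l.2
    have h6 := abs_mul_abs_self ((v l.1 : SignType) : ℝ)
    rw [h5] at h6
    linarith
  rw [mul_assoc, h4, mul_one]

theorem eq_pt {b : ι → E d} (hS : Simple b) {v : ι → SignType} (hv : v ∈ Verts b) {x : E d}
    (hx : ∀ l, v l ≠ 0 → ⟪b l, x⟫ = ((v l : SignType) : ℝ)) : x = pt b v := by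
  refine G0_ext hS hv fun l hl => ?_
  rw [hx l hl, (isCell_pt (Finset.mem_filter.1 hv).1 l).2 hl]

end

end Pool.Agent.KST
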