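import Pool.Agent.KST.Defs
import Pool.Agent.KST.G0

/-! ROW G3 (generic vectors) -/

set_option autoImplicit false

open scoped BigOperators RealInnerProductSpace Topology

namespace Pool.Agent.KST

noncomputable section

open Classical

variable {ι : Type} [Fintype ι] {d : ℕ}

/-- near every vector there is one which is not orthogonal to finitely many nonzero vectors -/
private theorem G3_exists_near (W : Finset (E d)) (hW : ∀ w ∈ W, w ≠ 0) (a₀ : E d) {ε : ℝ}
    (hε : 0 < ε) : ∃ a : E d, (∀ w ∈ W, ⟪a, w⟫ ≠ 0) ∧ ‖a - a₀‖ < ε := by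
  induction W using Finset.induction_on with
  | empty => exact ⟨a₀, by simp, by simpa using hε⟩
  | insert w W hw ih =>
    obtain ⟨a, ha, hn⟩ := ih (fun u hu => hW u (Finset.mem_insert_of_mem hu))
    by_cases h0 : ⟪a, w⟫ = 0
    · have hw0 : w ≠ 0 := hW w (Finset.mem_insert_self _ _)
      have h1 : ∀ᶠ t : ℝ in 𝓝[>] (0 : ℝ), ∀ u ∈ W, ⟪a + t • w, u⟫ ≠ 0 := by
        refine (Finset.eventually_all W).2 fun u hu => ?_
        have hc : Filter.Tendsto (fun t : ℝ => ⟪a + t • w, u⟫) (𝓝[>] (0 : ℝ))
            (𝓝 ⟪a + (0 : ℝ) • w, u⟫) := by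
          refine Filter.Tendsto.mono_left ?_ nhdsWithin_le_nhds
          exact Continuous.tendsto (by fun_prop) 0
        have hne : ⟪a + (0 : ℝ) • w, u⟫ ≠ 0 := by
          simpa using ha u hu
        exact hc.eventually_ne hne
      have h2 : ∀ᶠ t : ℝ in 𝓝[>] (0 : ℝ), ‖a + t • w - a₀‖ < ε := by
        have hc : Filter.Tendsto (fun t : ℝ => ‖a + t • w - a₀‖) (𝓝[>] (0 : ℝ))
            (𝓝 ‖a + (0 : ℝ) • w - a₀‖) := by
          refine Filter.Tendsto.mono_left ?_ nhdsWithin_le_nhds
          exact Continuous.tendsto (by fun_prop) 0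
        refine hc.eventually_lt_const ?_
        simpa using hn
      have h3 : ∀ᶠ t : ℝ in 𝓝[>] (0 : ℝ), 0 < t := eventually_mem_nhdsWithin
      obtain ⟨t, ht1, ht2, ht3⟩ := (h1.and (h2.and h3)).exists
      refine ⟨a + t • w, fun u hu => ?_, ht2⟩
      rcases Finset.mem_insert.1 hu with rfl | hu
      · rw [inner_add_left, h0, zero_add, real_inner_smul_left]
        have : (0 : ℝ) < ⟪u, u⟫ := real_inner_self_pos.2 hw0
        positivity
      · exact ht1 u hu
    · refine ⟨a, fun u hu => ?_, hn⟩
      rcases Finset.mem_insert.1 hu with rfl | hu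
      · exact h0
      · exact ha u hu

theorem exists_gen_near {b : ι → E d} (hS : Simple b) (a₀ : E d) {ε : ℝ} (hε : 0 < ε) :
    ∃ a, Gen b a ∧ ‖a - a₀‖ < ε := by
  set W : Finset (E d) := (Verts b).biUnion fun v => (supp v).image fun l => dv b v l with hWdef
  have hW : ∀ w ∈ W, w ≠ 0 := by
    intro w hw
    simp only [hWdef, Finset.mem_biUnion, Finset.mem_image] at hw
    obtain ⟨v, hv, l, hl, rfl⟩ := hw
    have hvc : v ∈ Cells b := (Finset.mem_filter.1 hv).1
    have hl' : v l ≠ 0 := (Finset.mem_filter.1 hl).2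
    intro h0
    have := dv_spec hS hvc hl' l hl'
    rw [h0, inner_zero_right, if_pos rfl] at this
    rcases hvl : v l with _ | _ | _
    · exact hl' hvl
    · rw [hvl] at this; norm_num at this
    · rw [hvl] at this; norm_num at this
  obtain ⟨a, ha, hn⟩ := G3_exists_near W hW a₀ hε
  refine ⟨a, fun v hv l hl => ha _ ?_, hn⟩
  simp only [hWdef, Finset.mem_biUnion, Finset.mem_image]
  exact ⟨v, hv, l, hl, rfl⟩

theorem exists_low {b : ι → E d} (hS : Simple b) (j : ι) : ∃ a, Gen b a ∧ LowF b a j := by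
  have hopen : ∀ᶠ a : E d in 𝓝 (-b j), LowF b a j := by
    unfold LowF
    refine (Finset.eventually_all _).2 fun v hv => (Finset.eventually_all _).2 fun w hw => ?_
    by_cases hvj : v j = 1
    · by_cases hwj : w j = 1
      · exact Filter.Eventually.of_forall fun a _ h => absurd hwj h
      · have hcv := isCell_pt (Finset.mem_filter.1 hv).1
        have hcw := isCell_pt (Finset.mem_filter.1 hw).1
        have h1 : ⟪-b j, pt b v⟫ = -1 := by
          rw [inner_neg_left, (hcv j).2 (by rw [hvj]; decide), hvj]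
          norm_num
        have h2 : -1 < ⟪-b j, pt b w⟫ := by
          rw [inner_neg_left]
          rcases hwl : w j with _ | _ | _
          · have := (hcw j).1 hwl
            linarith [(abs_lt.1 this).2]
          · have := (hcw j).2 (by rw [hwl]; decide)
            rw [hwl] at this
            norm_num at this
            linarith
          · exact absurd hwl hwj
        have hlt : ⟪-b j, pt b v⟫ < ⟪-b j, pt b w⟫ := by linarith
        have hc1 : Filter.Tendsto (fun a : E d => ⟪a, pt b v⟫) (𝓝 (-b j)) (𝓝 ⟪-b j, pt b v⟫) :=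
          Continuous.tendsto (by fun_prop) _
        have hc2 : Filter.Tendsto (fun a : E d => ⟪a, pt b w⟫) (𝓝 (-b j)) (𝓝 ⟪-b j, pt b w⟫) :=
          Continuous.tendsto (by fun_prop) _
        filter_upwards [hc1.eventually_lt hc2 hlt] with a ha _ _ using ha
    · exact Filter.Eventually.of_forall fun a h => absurd h hvj
  obtain ⟨ε, hε, hball⟩ := Metric.eventually_nhds_iff.1 hopen
  obtain ⟨a, ha, hn⟩ := exists_gen_near hS (-b j) hε
  exact ⟨a, ha, hball (by rwa [dist_eq_norm])⟩

end

end Pool.Agent.KST
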