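import Pool.Agent.KST.G1b
import Pool.Agent.KST.G2

/-!
# Facets: the star of the lowest facet
-/

set_option autoImplicit false

open scoped BigOperators RealInnerProductSpace

namespace Pool.Agent.KST

noncomputable section

open Classical

variable {ι : Type} [Fintype ι] {d : ℕ}

theorem G4_verts_cells {b : ι → E d} {v : ι → SignType} (hv : v ∈ Verts b) : v ∈ Cells b :=
  (Finset.mem_filter.mp hv).1

theorem G4_mem_VF {b : ι → E d} {j : ι} {v : ι → SignType} :
    v ∈ VF b j ↔ v ∈ Verts b ∧ v j = 1 := Finset.mem_filter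

/-- the minimum over a face: the lowest vertex of `s` is not above any vertex of `s` -/
theorem G4_le {b : ι → E d} (hS : Simple b) {a : E d} (ha : Gen b a) {v w : ι → SignType}
    (hv : v ∈ Verts b) (hw : w ∈ Verts b) {s : ι → SignType} (h : Low (PP b a) v s)
    (hsw : Le s w) : ¬ ⟪a, pt b w⟫ < ⟪a, pt b v⟫ := by
  intro hlt
  have hc := isCell_pt (G4_verts_cells hw)
  have hne : pt b w ≠ pt b v := by
    intro he
    rw [he] at hlt
    exact lt_irrefl _ hlt
  have h2 := low_lt hS ha hv h (isCell_pol hc) (x := pt b w) (fun l hl => by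
    have h1 := hsw l hl
    rw [← h1]
    exact (hc l).2 (by rw [h1]; exact hl)) hne
  exact lt_asymm hlt h2

theorem sweep_star {b : ι → E d} (hS : Simple b) (hb : Bornology.IsBounded (Pol b)) {a : E d}
    (ha : Gen b a) {j : ι} (hl : LowF b a j) (hne : ∃ t ∈ Cells b, t j = 1) :
    Sweep b (Star b j) (VF b j) (PP b a) (fun v => ⟪a, pt b v⟫) := by
  have hW := sweep_cells hS hb ha
  have hsub : ∀ s ∈ Star b j, s ∈ Cells b := fun s hs => (Finset.mem_filter.mp hs).1
  have hVF : ∀ v ∈ VF b j, v ∈ Verts b := fun v hv => (Finset.mem_filter.mp hv).1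
  constructor
  · obtain ⟨t, ht, htj⟩ := hne
    refine Finset.mem_filter.mpr ⟨zero_mem_cells b, t, ht, fun l hl => absurd rfl hl, htj⟩
  · intro v hv
    obtain ⟨h1, h2⟩ := G4_mem_VF.mp hv
    exact Finset.mem_filter.mpr ⟨G4_verts_cells h1, v, G4_verts_cells h1, fun l _ => rfl, h2⟩
  · exact fun v hv => hW.card v (hVF v hv)
  · exact fun v hv => hW.ind v (hVF v hv)
  · exact fun v hv => hW.psub v (hVF v hv)
  · intro s t ht hst
    obtain ⟨h1, t', ht', h2, h3⟩ := Finset.mem_filter.mp ht
    refine Finset.mem_filter.mpr ⟨hW.down s t h1 hst, t', ht', ?_, h3⟩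
    intro l hl
    have h4 := hst l hl
    rw [← h4]
    exact h2 l (by rw [h4]; exact hl)
  · intro s hs
    obtain ⟨h1, t, ht, hst, htj⟩ := Finset.mem_filter.mp hs
    obtain ⟨v, hv, hlow⟩ := hW.ex s h1
    obtain ⟨w, hw, hlow'⟩ := hW.ex t ht
    refine ⟨v, G4_mem_VF.mpr ⟨hv, ?_⟩, hlow⟩
    by_contra hvj
    have hwj : w j = 1 := by
      rw [hlow'.1 j (by rw [htj]; decide), htj]
    have hsw : Le s w := by
      intro l hl
      have h4 := hst l hl
      rw [← h4]
      exact hlow'.1 l (by rw [h4]; exact hl)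
    exact G4_le hS ha hv hw hlow hsw (hl w hw v hv hwj hvj)
  · exact fun s hs v hv w hw => hW.uniq s (hsub s hs) v (hVF v hv) w (hVF w hw)
  · exact fun s t ht hst v hv h1 h2 w hw h3 =>
      hW.up s t (hsub t ht) hst v (hVF v hv) h1 h2 w (hVF w hw) h3

/-- a vertex above a vertex is the same vertex -/
theorem G4_eq {b : ι → E d} {v w : ι → SignType} (hv : v ∈ Verts b) (hw : w ∈ Verts b)
    (h : Le v w) : w = v := by
  have hsub : supp v ⊆ supp w := by
    intro l hl
    have hl' : v l ≠ 0 := (Finset.mem_filter.mp hl).2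
    exact Finset.mem_filter.mpr ⟨Finset.mem_univ _, by rw [h l hl']; exact hl'⟩
  have hcard : (supp w).card ≤ (supp v).card := by
    rw [(Finset.mem_filter.mp hv).2, (Finset.mem_filter.mp hw).2]
  have heq := Finset.eq_of_subset_of_card_le hsub hcard
  funext l
  by_cases hl : v l = 0
  · rw [hl]
    by_contra hwl
    have : l ∈ supp w := Finset.mem_filter.mpr ⟨Finset.mem_univ _, hwl⟩
    rw [← heq] at this
    exact (Finset.mem_filter.mp this).2 hl
  · exact h l hl

theorem notMem_PP {b : ι → E d} (hS : Simple b) (hb : Bornology.IsBounded (Pol b)) {a : E d}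
    (ha : Gen b a) {j : ι} (hl : LowF b a j) {v : ι → SignType} (hv : v ∈ VF b j) :
    j ∉ PP b a v := by
  intro hj
  obtain ⟨hv1, hvj⟩ := G4_mem_VF.mp hv
  have hW := sweep_cells hS hb ha
  set s : ι → SignType := Function.update v j 0 with hs
  have hsj : s j = 0 := by rw [hs, Function.update_self]
  have hsl : ∀ l, l ≠ j → s l = v l := fun l hlj => by rw [hs, Function.update_of_ne hlj]
  have hne : ∀ l, s l ≠ 0 → l ≠ j := by
    rintro l h rfl
    exact h hsj
  have hle : Le s v := fun l h => (hsl l (hne l h)).symm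
  obtain ⟨w, hw, hlow⟩ := hW.ex s (cells_down hS (G4_verts_cells hv1) hle)
  by_cases hwj : w j = 1
  · have hvw : Le v w := by
      intro l h
      by_cases hlj : l = j
      · rw [hlj, hwj, hvj]
      · rw [← hsl l hlj]
        exact hlow.1 l (by rw [hsl l hlj]; exact h)
    have := G4_eq hv1 hw hvw
    subst this
    exact hlow.2 j hj hsj
  · exact G4_le hS ha hw hv1 hlow hle (hl v hv1 w hw hvj hwj)

/-- number of sign vectors between `Q` and `v` -/
theorem G4_count (v : ι → SignType) {Q : Finset ι} (hQ : Q ⊆ supp v) :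
    (Finset.univ.filter (fun s : ι → SignType => Le s v ∧ ∀ l ∈ Q, s l ≠ 0)).card =
      2 ^ (supp v \ Q).card := by
  rw [← Finset.card_powerset]
  symm
  refine Finset.card_bij (fun A _ => fun l => if l ∈ Q ∪ A then v l else 0) ?_ ?_ ?_
  · intro A hA
    refine Finset.mem_filter.mpr ⟨Finset.mem_univ _, ?_, ?_⟩
    · intro l hl
      by_cases h : l ∈ Q ∪ A
      · simp only [if_pos h]
      · exact absurd (if_neg h) hl
    · intro l hl
      have h : l ∈ Q ∪ A := Finset.mem_union_left _ hl
      simp only [if_pos h]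
      exact (Finset.mem_filter.mp (hQ hl)).2
  · intro A hA B hB h
    have key : ∀ A B : Finset ι, A ∈ (supp v \ Q).powerset →
        (fun l => if l ∈ Q ∪ A then v l else 0) = (fun l => if l ∈ Q ∪ B then v l else 0) →
        A ⊆ B := by
      intro A B hA h l hl
      have h1 := Finset.mem_powerset.mp hA hl
      have h2 := congrFun h l
      rw [if_pos (Finset.mem_union_right _ hl)] at h2
      have h3 : v l ≠ 0 := (Finset.mem_filter.mp (Finset.mem_sdiff.mp h1).1).2
      by_contra hB
      have h4 : l ∉ Q ∪ B := by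
        rw [Finset.mem_union]
        rintro (h5 | h5)
        · exact (Finset.mem_sdiff.mp h1).2 h5
        · exact hB h5
      rw [if_neg h4] at h2
      exact h3 h2
    exact Finset.Subset.antisymm (key A B hA h) (key B A hB h.symm)
  · intro s hs
    obtain ⟨-, h1, h2⟩ := Finset.mem_filter.mp hs
    refine ⟨supp s \ Q, ?_, ?_⟩
    · rw [Finset.mem_powerset]
      apply Finset.sdiff_subset_sdiff _ (le_refl Q)
      intro l hl
      have hl' : s l ≠ 0 := (Finset.mem_filter.mp hl).2
      exact Finset.mem_filter.mpr ⟨Finset.mem_univ _, by rw [h1 l hl']; exact hl'⟩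
    · funext l
      by_cases h : l ∈ Q ∪ (supp s \ Q)
      · simp only [if_pos h]
        have h3 : s l ≠ 0 := by
          rcases Finset.mem_union.mp h with h4 | h4
          · exact h2 l h4
          · exact (Finset.mem_filter.mp (Finset.mem_sdiff.mp h4).1).2
        exact h1 l h3
      · simp only [if_neg h]
        by_contra h3
        apply h
        by_cases h4 : l ∈ Q
        · exact Finset.mem_union_left _ h4
        · exact Finset.mem_union_right _ (Finset.mem_sdiff.mpr
            ⟨Finset.mem_filter.mpr ⟨Finset.mem_univ _, fun h5 => h3 h5.symm⟩, h4⟩)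

theorem card_facet {b : ι → E d} (hS : Simple b) (hb : Bornology.IsBounded (Pol b)) {a : E d}
    (ha : Gen b a) {j : ι} (hl : LowF b a j) :
    ((Cells b).filter (fun s => s j = 1)).card = ∑ v ∈ VF b j, 2 ^ (PP b a v).card := by
  have hN := sweep_cells hS hb (gen_neg ha)
  have hW := sweep_cells hS hb ha
  have hVF : ∀ v ∈ VF b j, v ∈ Verts b := fun v hv => (Finset.mem_filter.mp hv).1
  have hbi : (Cells b).filter (fun s => s j = 1) = (VF b j).biUnion (fun v =>
      Finset.univ.filter (fun s : ι → SignType => Le s v ∧ ∀ l ∈ PP b (-a) v, s l ≠ 0)) := by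
    ext s
    rw [Finset.mem_filter, Finset.mem_biUnion]
    constructor
    · rintro ⟨hs, hsj⟩
      obtain ⟨v, hv, hlow⟩ := hN.ex s hs
      refine ⟨v, G4_mem_VF.mpr ⟨hv, ?_⟩, Finset.mem_filter.mpr ⟨Finset.mem_univ _, hlow⟩⟩
      rw [hlow.1 j (by rw [hsj]; decide), hsj]
    · rintro ⟨v, hv, hs⟩
      obtain ⟨-, h1, h2⟩ := Finset.mem_filter.mp hs
      obtain ⟨hv1, hvj⟩ := G4_mem_VF.mp hv
      refine ⟨cells_down hS (G4_verts_cells hv1) h1, ?_⟩
      have hj : j ∈ PP b (-a) v := by
        rw [PP_neg ha hv1]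
        exact Finset.mem_sdiff.mpr ⟨Finset.mem_filter.mpr ⟨Finset.mem_univ _, by
          rw [hvj]; decide⟩, notMem_PP hS hb ha hl hv⟩
      rw [← h1 j (h2 j hj), hvj]
  rw [hbi, Finset.card_biUnion]
  · refine Finset.sum_congr rfl fun v hv => ?_
    have hv1 := hVF v hv
    rw [G4_count v (hN.psub v hv1), PP_neg ha hv1, Finset.sdiff_sdiff_eq_self (hW.psub v hv1)]
  · intro v hv w hw hvw
    rw [Function.onFun, Finset.disjoint_left]
    intro s hs hs'
    obtain ⟨-, h1⟩ := Finset.mem_filter.mp hs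
    obtain ⟨-, h2⟩ := Finset.mem_filter.mp hs'
    exact hvw (hN.uniq s (cells_down hS (G4_verts_cells (hVF v hv)) h1.1) v (hVF v hv) w
      (hVF w hw) h1 h2)

theorem hh_zero_le {b : ι → E d} (hS : Simple b) (hb : Bornology.IsBounded (Pol b)) {a : E d}
    (ha : Gen b a) {j : ι} (hl : LowF b a j) : hh (VF b j) (PP b a) 0 ≤ 1 := by
  have _ := hl
  have hW := sweep_cells hS hb ha
  unfold hh
  rw [Finset.card_le_one]
  intro v hv w hw
  obtain ⟨hv1, hv2⟩ := Finset.mem_filter.mp hv
  obtain ⟨hw1, hw2⟩ := Finset.mem_filter.mp hw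
  have key : ∀ v : ι → SignType, (PP b a v).card = 0 → Low (PP b a) v 0 := by
    intro v hv
    refine ⟨fun l hl => absurd rfl hl, fun l hl => ?_⟩
    rw [Finset.card_eq_zero.mp hv] at hl
    exact absurd hl (Finset.notMem_empty l)
  exact hW.uniq 0 (zero_mem_cells b) v (G4_mem_VF.mp hv1).1 w (G4_mem_VF.mp hw1).1
    (key v hv2) (key w hw2)

end

end Pool.Agent.KST
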