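import Pool.Agent.KST.Defs

/-!
# Dimensions of the function spaces
-/

set_option autoImplicit false

open scoped BigOperators RealInnerProductSpace

namespace Pool.Agent.KST

noncomputable section

open Classical

variable {ι : Type} [Fintype ι] {d : ℕ}

/-- functions supported on a finite set -/
def ffEquiv (C : Finset (ι → SignType)) (n : ℕ) : FF C n ≃ₗ[ℝ] ({e // e ∈ EE C n} → ℝ) where
  toFun f e := f.1 e.1
  invFun g := ⟨fun e => if h : e ∈ EE C n then g ⟨e, h⟩ else 0, by
    intro e he
    simp only [he, dite_false]⟩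
  map_add' f g := by
    funext e
    rfl
  map_smul' c f := by
    funext e
    rfl
  left_inv f := by
    apply Subtype.ext
    funext e
    by_cases h : e ∈ EE C n
    · simp only [h, dite_true]
    · simp only [h, dite_false]
      exact (f.2 e h).symm
  right_inv g := by
    funext e
    simp only [e.2, dite_true]

theorem FF_fin (C : Finset (ι → SignType)) (n : ℕ) : FiniteDimensional ℝ (FF C n) :=
  Module.Finite.equiv (ffEquiv C n).symm

theorem finrank_FF (C : Finset (ι → SignType)) (n : ℕ) :
    Module.finrank ℝ (FF C n) = (EE C n).card := by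
  rw [(ffEquiv C n).finrank_eq, Module.finrank_fintype_fun_eq_card, Fintype.card_coe]

omit [Fintype ι] in
/-- an involution splits a space -/
theorem a2b_split (W : Submodule ℝ (Fn ι)) (hfin : FiniteDimensional ℝ W)
    (hneg : ∀ f ∈ W, (fun e => f (-e)) ∈ W) :
    Module.finrank ℝ ↥(W ⊓ Par ι 1) + Module.finrank ℝ ↥(W ⊓ Par ι (-1)) =
      Module.finrank ℝ W := by
  have h1 : FiniteDimensional ℝ ↥(W ⊓ Par ι 1) := Submodule.finiteDimensional_inf_left _ _
  have h2 : FiniteDimensional ℝ ↥(W ⊓ Par ι (-1)) := Submodule.finiteDimensional_inf_left _ _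
  have h3 := Submodule.finrank_sup_add_finrank_inf_eq (W ⊓ Par ι 1) (W ⊓ Par ι (-1))
  have h4 : (W ⊓ Par ι 1) ⊓ (W ⊓ Par ι (-1)) = ⊥ := by
    rw [eq_bot_iff]
    rintro f ⟨⟨_, hf1⟩, ⟨_, hf2⟩⟩
    rw [Submodule.mem_bot]
    funext e
    have e1 : f (-e) = 1 * f e := hf1 e
    have e2 : f (-e) = -1 * f e := hf2 e
    show f e = 0
    linarith
  have h5 : (W ⊓ Par ι 1) ⊔ (W ⊓ Par ι (-1)) = W := by
    apply le_antisymm
    · exact sup_le inf_le_left inf_le_left
    · intro f hf
      have hf' := hneg f hf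
      rw [Submodule.mem_sup]
      refine ⟨(1 / 2 : ℝ) • (f + fun e => f (-e)), ⟨?_, ?_⟩,
        (1 / 2 : ℝ) • (f - fun e => f (-e)), ⟨?_, ?_⟩, ?_⟩
      · exact W.smul_mem _ (W.add_mem hf hf')
      · intro e
        simp only [Pi.smul_apply, Pi.add_apply, smul_eq_mul, neg_neg]
        ring
      · exact W.smul_mem _ (W.sub_mem hf hf')
      · intro e
        simp only [Pi.smul_apply, Pi.sub_apply, smul_eq_mul, neg_neg]
        ring
      · funext e
        simp only [Pi.smul_apply, Pi.add_apply, Pi.sub_apply, smul_eq_mul]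
        ring
  rw [h4, h5, finrank_bot, add_zero] at h3
  exact h3.symm

theorem a2b_neg_EE {C : Finset (ι → SignType)} (hsym : ∀ s ∈ C, -s ∈ C) (n : ℕ) (e : ι → ℤ)
    (he : e ∈ EE C n) : -e ∈ EE C n := by
  simp only [EE, Finset.mem_filter, Fintype.mem_piFinset, Finset.mem_Icc] at he ⊢
  obtain ⟨h1, h2, h3⟩ := he
  refine ⟨?_, ?_, ?_⟩
  · intro l
    have := h1 l
    simp only [Pi.neg_apply]
    constructor <;> linarith [this.1, this.2]
  · simpa only [Pi.neg_apply, Int.natAbs_neg] using h2
  · have h4 : sgn (-e) = -sgn e := by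
      funext l
      simp only [sgn, Pi.neg_apply]
      exact Left.sign_neg (e l)
    rw [h4]
    exact hsym _ h3

theorem a2b_neg_FF {C : Finset (ι → SignType)} (hsym : ∀ s ∈ C, -s ∈ C) (n : ℕ) (f : Fn ι)
    (hf : f ∈ FF C n) : (fun e => f (-e)) ∈ FF C n := by
  intro e he
  apply hf
  intro h
  apply he
  have := a2b_neg_EE hsym n _ h
  rwa [neg_neg] at this

omit [Fintype ι] in
theorem a2b_X_neg (l : ι) (f : Fn ι) (e : ι → ℤ) :
    X l (fun e => f (-e)) e = -(X l f (-e)) := by
  have h1 : -(Function.update e l (e l + 1)) = Function.update (-e) l ((-e) l - 1) := by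
    funext k
    by_cases hk : k = l
    · subst hk
      simp only [Pi.neg_apply, Function.update_self]
      ring
    · simp only [Pi.neg_apply, Function.update_of_ne hk]
  have h2 : -(Function.update e l (e l - 1)) = Function.update (-e) l ((-e) l + 1) := by
    funext k
    by_cases hk : k = l
    · subst hk
      simp only [Pi.neg_apply, Function.update_self]
      ring
    · simp only [Pi.neg_apply, Function.update_of_ne hk]
  show (if 0 ≤ e l then f (-(Function.update e l (e l + 1))) else 0) -
    (if e l ≤ 0 then f (-(Function.update e l (e l - 1))) else 0) =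
    -((if 0 ≤ (-e) l then f (Function.update (-e) l ((-e) l + 1)) else 0) -
    (if (-e) l ≤ 0 then f (Function.update (-e) l ((-e) l - 1)) else 0))
  rw [h1, h2]
  have h3 : (0 ≤ (-e) l) ↔ (e l ≤ 0) := by simp only [Pi.neg_apply, Left.nonneg_neg_iff]
  have h4 : ((-e) l ≤ 0) ↔ (0 ≤ e l) := by simp only [Pi.neg_apply, Left.neg_nonpos_iff]
  simp only [h3, h4]
  ring

theorem a2b_neg_Ker (b : ι → E d) (f : Fn ι) (hf : f ∈ Ker b) : (fun e => f (-e)) ∈ Ker b := by
  rw [Ker, Submodule.mem_iInf] at hf ⊢
  intro y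
  have h1 := hf y
  rw [LinearMap.mem_ker] at h1 ⊢
  funext e
  have h2 : D b y f (-e) = 0 := by rw [h1]; rfl
  simp only [D, LinearMap.sum_apply, Finset.sum_apply, LinearMap.smul_apply, Pi.smul_apply,
    smul_eq_mul] at h2 ⊢
  simp only [a2b_X_neg, mul_neg, Finset.sum_neg_distrib, h2, neg_zero]
  rfl

/-- splitting into even and odd functions -/
theorem finrank_par_add (b : ι → E d) {C : Finset (ι → SignType)} (hsym : ∀ s ∈ C, -s ∈ C)
    (n : ℕ) : Module.finrank ℝ ↥(FF C n ⊓ Par ι 1) + Module.finrank ℝ ↥(FF C n ⊓ Par ι (-1)) =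
      (EE C n).card := by
  rw [a2b_split (FF C n) (FF_fin C n) (a2b_neg_FF hsym n), finrank_FF]

theorem finrank_ker_par_add (b : ι → E d) {C : Finset (ι → SignType)} (hsym : ∀ s ∈ C, -s ∈ C)
    (n : ℕ) : Module.finrank ℝ ↥(FF C n ⊓ Ker b ⊓ Par ι 1) +
      Module.finrank ℝ ↥(FF C n ⊓ Ker b ⊓ Par ι (-1)) = Module.finrank ℝ ↥(FF C n ⊓ Ker b) := by
  have h1 : FiniteDimensional ℝ (FF C n) := FF_fin C n
  exact a2b_split (FF C n ⊓ Ker b) (Submodule.finiteDimensional_inf_left _ _)
    (fun f hf => ⟨a2b_neg_FF hsym n f hf.1, a2b_neg_Ker b f hf.2⟩)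

/-- an odd sign function -/
def a2bEps (e : ι → ℤ) : ℝ := if WellOrderingRel e (-e) then 1 else -1

omit [Fintype ι] in
theorem a2bEps_sq (e : ι → ℤ) : a2bEps e * a2bEps e = 1 := by
  unfold a2bEps
  split_ifs <;> norm_num

omit [Fintype ι] in
theorem a2bEps_neg (e : ι → ℤ) (he : e ≠ 0) : a2bEps (-e) = -a2bEps e := by
  have hne : e ≠ -e := by
    intro h
    apply he
    funext l
    have h1 := congrFun h l
    simp only [Pi.neg_apply] at h1
    show e l = 0
    omega
  unfold a2bEps
  rw [neg_neg]
  rcases trichotomous_of WellOrderingRel e (-e) with h | h | h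
  · rw [if_pos h, if_neg (asymm h)]
  · exact absurd h hne
  · rw [if_pos h, if_neg (asymm h), neg_neg]

/-- multiplication by the sign function -/
def a2bM (ι : Type) : Fn ι →ₗ[ℝ] Fn ι where
  toFun f e := a2bEps e * f e
  map_add' f g := by
    funext e
    simp only [Pi.add_apply]
    ring
  map_smul' c f := by
    funext e
    simp only [Pi.smul_apply, smul_eq_mul, RingHom.id_apply]
    ring

theorem a2bM_inv (f : Fn ι) : a2bM ι (a2bM ι f) = f := by
  funext e
  show a2bEps e * (a2bEps e * f e) = f e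
  rw [← mul_assoc, a2bEps_sq, one_mul]

theorem a2bM_mem {C : Finset (ι → SignType)} {n : ℕ} (hn : n ≠ 0) (c : ℝ) (f : Fn ι)
    (hf : f ∈ FF C n ⊓ Par ι c) : a2bM ι f ∈ FF C n ⊓ Par ι (-c) := by
  have h0 : f 0 = 0 := by
    apply hf.1
    simp only [EE, Finset.mem_filter, Pi.zero_apply, Int.natAbs_zero, Finset.sum_const_zero,
      not_and]
    intro _ h
    exact absurd h.symm hn
  refine ⟨?_, ?_⟩
  · intro e he
    show a2bEps e * f e = 0
    rw [hf.1 e he, mul_zero]
  · intro e
    show a2bEps (-e) * f (-e) = -c * (a2bEps e * f e)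
    by_cases he : e = 0
    · subst he
      rw [neg_zero, h0]
      ring
    · rw [a2bEps_neg e he, show f (-e) = c * f e from hf.2 e]
      ring

theorem finrank_par_diff {C : Finset (ι → SignType)} (h0 : (0 : ι → SignType) ∈ C)
    (hsym : ∀ s ∈ C, -s ∈ C) (n : ℕ) :
    Module.finrank ℝ ↥(FF C n ⊓ Par ι 1) =
      Module.finrank ℝ ↥(FF C n ⊓ Par ι (-1)) + (if n = 0 then 1 else 0) := by
  have hF : FiniteDimensional ℝ (FF C n) := FF_fin C n
  by_cases hn : n = 0
  · subst hn
    rw [if_pos rfl]
    have hE : EE C 0 = {0} := by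
      ext e
      simp only [EE, Finset.mem_filter, Fintype.mem_piFinset, Finset.mem_singleton]
      constructor
      · rintro ⟨_, h2, _⟩
        funext l
        have h3 := (Finset.sum_eq_zero_iff.1 h2) l (Finset.mem_univ l)
        exact Int.natAbs_eq_zero.1 h3
      · rintro rfl
        refine ⟨?_, ?_, ?_⟩
        · intro l
          simp
        · simp
        · have : sgn (0 : ι → ℤ) = 0 := by
            funext l
            simp [sgn]
          rw [this]
          exact h0
    have h1 := finrank_par_add (d := 0) (fun _ : ι => 0) hsym 0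
    have h2 : FF C 0 ⊓ Par ι (-1) = ⊥ := by
      rw [eq_bot_iff]
      rintro f ⟨hf1, hf2⟩
      rw [Submodule.mem_bot]
      funext e
      show f e = 0
      by_cases he : e = 0
      · subst he
        have e2 : f (-0) = -1 * f 0 := hf2 0
        rw [neg_zero] at e2
        linarith
      · apply hf1
        rw [hE, Finset.mem_singleton]
        exact he
    rw [h2, finrank_bot] at h1 ⊢
    rw [hE, Finset.card_singleton] at h1
    omega
  · rw [if_neg hn, add_zero]
    have hinj : Function.Injective (a2bM ι) := by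
      intro f g h
      have := congrArg (a2bM ι) h
      rwa [a2bM_inv, a2bM_inv] at this
    have key : ∀ c : ℝ, Module.finrank ℝ ↥(FF C n ⊓ Par ι c) ≤
        Module.finrank ℝ ↥(FF C n ⊓ Par ι (-c)) := by
      intro c
      have hfd : FiniteDimensional ℝ ↥(FF C n ⊓ Par ι (-c)) :=
        Submodule.finiteDimensional_inf_left _ _
      let g : ↥(FF C n ⊓ Par ι c) →ₗ[ℝ] ↥(FF C n ⊓ Par ι (-c)) :=
        ((a2bM ι).comp (Submodule.subtype _)).codRestrict _
          (fun f => a2bM_mem hn c f.1 f.2)
      apply LinearMap.finrank_le_finrank_of_injective (f := g)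
      intro f f' h
      apply Subtype.ext
      apply hinj
      exact congrArg Subtype.val h
    apply le_antisymm
    · exact key 1
    · have := key (-1)
      rwa [neg_neg] at this

end

end Pool.Agent.KST
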