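import Pool.Agent.KST.Defs
import Pool.Agent.KST.G0
import Pool.Agent.KST.A2b

/-!
# Disjoint supports
-/

set_option autoImplicit false

open scoped BigOperators RealInnerProductSpace

namespace Pool.Agent.KST

noncomputable section

open Classical

variable {ι : Type} [Fintype ι] {d : ℕ}

private theorem M0_D_apply (b : ι → E d) (y : E d) (f : Fn ι) (e : ι → ℤ) :
    D b y f e = ∑ l, ⟪b l, y⟫ * X l f e := by
  simp only [D, LinearMap.sum_apply, LinearMap.smul_apply, Finset.sum_apply, Pi.smul_apply,
    smul_eq_mul]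

omit [Fintype ι] in
private theorem M0_X_apply (l : ι) (f : Fn ι) (e : ι → ℤ) :
    X l f e = (if 0 ≤ e l then f (Function.update e l (e l + 1)) else 0) -
      (if e l ≤ 0 then f (Function.update e l (e l - 1)) else 0) := rfl

private theorem M0_mem_Ker (b : ι → E d) (f : Fn ι) : f ∈ Ker b ↔ ∀ y, D b y f = 0 := by
  rw [Ker, Submodule.mem_iInf]
  rfl

private theorem M0_dual {κ : Type} {u : κ → E d} (hu : LinearIndependent ℝ u) (c : κ → ℝ) :
    ∃ y : E d, ∀ k, ⟪u k, y⟫ = c k := by
  let φ0 : Submodule.span ℝ (Set.range u) →ₗ[ℝ] ℝ :=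
    (Finsupp.linearCombination ℝ c).comp hu.repr
  obtain ⟨φ, hφ⟩ := LinearMap.exists_extend φ0
  refine ⟨(InnerProductSpace.toDual ℝ (E d)).symm (LinearMap.toContinuousLinearMap φ), ?_⟩
  intro k
  rw [real_inner_comm, InnerProductSpace.toDual_symm_apply]
  show φ (u k) = c k
  have h1 : φ0 ⟨u k, Submodule.subset_span ⟨k, rfl⟩⟩ = φ (u k) := by
    rw [← hφ]; rfl
  rw [← h1]
  show (Finsupp.linearCombination ℝ c) (hu.repr ⟨u k, _⟩) = c k
  rw [hu.repr_eq_single k _ rfl, Finsupp.linearCombination_single, one_smul]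

omit [Fintype ι] in
private theorem M0_sgn_ne (e : ι → ℤ) (l : ι) : sgn e l ≠ 0 ↔ e l ≠ 0 := by
  show SignType.sign (e l) ≠ 0 ↔ e l ≠ 0
  rw [Ne, sign_eq_zero_iff]

/-- the index set of `Sep.ind` -/
private def TT (b : ι → E d) (J : Finset ι) (j : ι) (p : ι × SignType) : Prop :=
  p.2 ≠ 0 ∧ (∃ t ∈ Cells b, t j = 1 ∧ t p.1 = p.2) ∧
      ∃ t ∈ Cells b, (∃ j' ∈ J, t j' ≠ 0) ∧ t j ≠ 1 ∧ t p.1 = p.2

/-- a function supported on vectors with all signs in an independent set, killed by all `D`, is
zero -/
private theorem M0_key {b : ι → E d} {T : ι × SignType → Prop}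
    (hT : LinearIndependent ℝ (fun p : {p : ι × SignType // T p} => b p.1.1))
    {f : Fn ι} (hf : f ∈ Ker b) (hsupp : ∀ e, f e ≠ 0 → ∀ l, e l ≠ 0 → T (l, sgn e l))
    (h0 : f 0 = 0) : f = 0 := by
  funext e
  by_contra hne
  have hne' : f e ≠ 0 := hne
  have he : e ≠ 0 := by
    rintro rfl
    exact hne' h0
  obtain ⟨l, hl⟩ : ∃ l, e l ≠ 0 := by
    by_contra hcon
    push Not at hcon
    exact he (funext hcon)
  have hTl : T (l, sgn e l) := hsupp e hne' l hl
  -- uniqueness of the sign
  have huniq : ∀ k σ τ, T (k, σ) → T (k, τ) → σ = τ := by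
    intro k σ τ h1 h2
    have h3 := hT.injective (a₁ := ⟨(k, σ), h1⟩) (a₂ := ⟨(k, τ), h2⟩) rfl
    have h4 := congrArg (fun q : {p : ι × SignType // T p} => q.1.2) h3
    exact h4
  obtain ⟨y, hy⟩ := M0_dual hT (fun p => if p.1.1 = l then 1 else 0)
  have hyl : ⟪b l, y⟫ = 1 := by
    have := hy ⟨(l, sgn e l), hTl⟩
    simpa using this
  have hyk : ∀ k σ, k ≠ l → T (k, σ) → ⟪b k, y⟫ = 0 := by
    intro k σ hk h1
    have := hy ⟨(k, σ), h1⟩
    simpa [hk] using this
  -- the shifted point
  have hD := (M0_mem_Ker b f).1 hf y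
  set s : ℤ := (e l).sign with hs
  set e' : ι → ℤ := Function.update e l (e l - s) with he'
  have hDe : ∑ k, ⟪b k, y⟫ * X k f e' = 0 := by
    rw [← M0_D_apply, hD]
    rfl
  have hk0 : ∀ k, k ≠ l → ⟪b k, y⟫ * X k f e' = 0 := by
    intro k hk
    by_cases hTk : ∃ σ, T (k, σ)
    · obtain ⟨σ, hσ⟩ := hTk
      rw [hyk k σ hk hσ, zero_mul]
    · have hz : ∀ z : ι → ℤ, z k ≠ 0 → f z = 0 := by
        intro z hz
        by_contra hfz
        exact hTk ⟨_, hsupp z hfz k hz⟩
      rw [M0_X_apply]
      have h1 : (if 0 ≤ e' k then f (Function.update e' k (e' k + 1)) else 0) = 0 := by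
        split_ifs with h
        · apply hz
          rw [Function.update_self]
          omega
        · rfl
      have h2 : (if e' k ≤ 0 then f (Function.update e' k (e' k - 1)) else 0) = 0 := by
        split_ifs with h
        · apply hz
          rw [Function.update_self]
          omega
        · rfl
      rw [h1, h2, sub_zero, mul_zero]
  rw [Finset.sum_eq_single l (fun k _ hk => hk0 k hk)
    (fun h => absurd (Finset.mem_univ l) h), hyl, one_mul, M0_X_apply] at hDe
  have hel : e' l = e l - s := by rw [he', Function.update_self]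
  rcases lt_or_gt_of_ne hl with hneg | hpos
  · -- negative
    have hs1 : s = -1 := Int.sign_eq_neg_one_of_neg hneg
    have hA : (if 0 ≤ e' l then f (Function.update e' l (e' l + 1)) else 0) = 0 := by
      split_ifs with h
      · by_contra hfz
        have h1 := hsupp _ hfz l (by rw [Function.update_self]; omega)
        have h2 := huniq l _ _ h1 hTl
        have h3 : sgn (Function.update e' l (e' l + 1)) l = 1 := by
          show SignType.sign (Function.update e' l (e' l + 1) l) = 1
          rw [Function.update_self]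
          exact sign_pos (by omega)
        have h4 : sgn e l = -1 := sign_neg hneg
        rw [h3, h4] at h2
        exact absurd h2 (by decide)
      · rfl
    have hB : (if e' l ≤ 0 then f (Function.update e' l (e' l - 1)) else 0) = f e := by
      rw [if_pos (by omega)]
      congr 1
      rw [hel, he', Function.update_idem]
      rw [show e l - s - 1 = e l by omega, Function.update_eq_self]
    rw [hA, hB, zero_sub, neg_eq_zero] at hDe
    exact hne' hDe
  · have hs1 : s = 1 := Int.sign_eq_one_of_pos hpos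
    have hB : (if e' l ≤ 0 then f (Function.update e' l (e' l - 1)) else 0) = 0 := by
      split_ifs with h
      · by_contra hfz
        have h1 := hsupp _ hfz l (by rw [Function.update_self]; omega)
        have h2 := huniq l _ _ h1 hTl
        have h3 : sgn (Function.update e' l (e' l - 1)) l = -1 := by
          show SignType.sign (Function.update e' l (e' l - 1) l) = -1
          rw [Function.update_self]
          exact sign_neg (by omega)
        have h4 : sgn e l = 1 := sign_pos hpos
        rw [h3, h4] at h2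
        exact absurd h2 (by decide)
      · rfl
    have hA : (if 0 ≤ e' l then f (Function.update e' l (e' l + 1)) else 0) = f e := by
      rw [if_pos (by omega)]
      congr 1
      rw [hel, he', Function.update_idem]
      rw [show e l - s + 1 = e l by omega, Function.update_eq_self]
    rw [hA, hB, sub_zero] at hDe
    exact hne' hDe

private theorem M0_star_FF (b : ι → E d) (j : ι) (n : ℕ) : FF (Star b j) n ≤ FF (Cells b) n := by
  intro f hf e he
  apply hf
  intro h
  apply he
  simp only [EE, Finset.mem_filter] at h ⊢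
  exact ⟨h.1, h.2.1, (Finset.mem_filter.1 h.2.2).1⟩

private theorem M0_star_supp {b : ι → E d} {j : ι} {n : ℕ} {f : Fn ι} (hf : f ∈ FF (Star b j) n)
    {e : ι → ℤ} (he : f e ≠ 0) : ∃ t ∈ Cells b, Le (sgn e) t ∧ t j = 1 := by
  have h1 : e ∈ EE (Star b j) n := by
    by_contra h
    exact he (hf e h)
  simp only [EE, Finset.mem_filter] at h1
  exact (Finset.mem_filter.1 h1.2.2).2

/-- the antisymmetrisation -/
private def anti (ι : Type) : Fn ι →ₗ[ℝ] Fn ι where
  toFun f e := f e - f (-e)
  map_add' f g := by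
    funext e
    simp only [Pi.add_apply]
    ring
  map_smul' c f := by
    funext e
    simp only [Pi.smul_apply, smul_eq_mul, RingHom.id_apply]
    ring

private theorem M0_anti_mem {b : ι → E d} {j : ι} {n : ℕ} {f : Fn ι}
    (hf : f ∈ FF (Star b j) n ⊓ Ker b) : anti ι f ∈ FF (Cells b) n ⊓ Ker b ⊓ Par ι (-1) := by
  obtain ⟨h1, h2⟩ := hf
  have h1' := M0_star_FF b j n h1
  have h3 := a2b_neg_FF (C := Cells b) (fun s hs => neg_mem_cells hs) n f h1'
  have h4 := a2b_neg_Ker b f h2
  refine ⟨⟨(FF (Cells b) n).sub_mem h1' h3, (Ker b).sub_mem h2 h4⟩, ?_⟩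
  intro e
  show f (-e) - f (- -e) = -1 * (f e - f (-e))
  rw [neg_neg]
  ring

private theorem M0_inj {b : ι → E d} {J : Finset ι} (hJ : Sep b J) {n : ℕ} (hn : 1 ≤ n)
    (F : J → Fn ι) (hF : ∀ j : J, F j ∈ FF (Star b j) n ⊓ Ker b)
    (hsum : ∑ j : J, anti ι (F j) = 0) (j : J) : F j = 0 := by
  refine M0_key (T := TT b J j) (hJ.ind j j.2) (hF j).2 ?_ ?_
  · intro e he l hl
    have hsgn : sgn e l ≠ 0 := (M0_sgn_ne e l).2 hl
    obtain ⟨t, ht, hle, htj⟩ := M0_star_supp (hF j).1 he
    refine ⟨hsgn, ⟨t, ht, htj, hle l hsgn⟩, ?_⟩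
    -- another term is nonzero at `e`
    have hs : ∑ k : J, (F k e - F k (-e)) = 0 := by
      have := congrFun hsum e
      rw [Finset.sum_apply] at this
      exact this
    by_cases hneg : F j (-e) = 0
    · have h1 : ∃ k : J, k ≠ j ∧ F k e - F k (-e) ≠ 0 := by
        by_contra hcon
        push Not at hcon
        rw [Finset.sum_eq_single j (fun k _ hk => hcon k hk)
          (fun h => absurd (Finset.mem_univ j) h), hneg, sub_zero] at hs
        exact he hs
      obtain ⟨k, hk, hk2⟩ := h1
      have hkj : (k : ι) ≠ j := fun h => hk (Subtype.ext h)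
      by_cases hke : F k e = 0
      · have hke' : F k (-e) ≠ 0 := by
          intro h
          rw [hke, h, sub_zero] at hk2
          exact hk2 rfl
        obtain ⟨t', ht', hle', htk'⟩ := M0_star_supp (hF k).1 hke'
        have hsn : sgn (-e) l = -sgn e l := Left.sign_neg (e l)
        refine ⟨-t', neg_mem_cells ht', ⟨k, k.2, ?_⟩, ?_, ?_⟩
        · rw [Pi.neg_apply, htk']
          decide
        · intro h
          apply hkj
          apply hJ.disj (-t') (neg_mem_cells ht') k k.2 j j.2
          · rw [Pi.neg_apply, htk']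
            decide
          · rw [h]
            decide
        · have h5 : sgn (-e) l ≠ 0 := by
            rw [hsn]
            intro h
            apply hsgn
            generalize sgn e l = a at h ⊢
            revert h
            cases a <;> decide
          have h6 := hle' l h5
          rw [Pi.neg_apply]
          show -(t' l) = sgn e l
          rw [h6, hsn]
          generalize sgn e l = a
          cases a <;> decide
      · obtain ⟨t', ht', hle', htk'⟩ := M0_star_supp (hF k).1 hke
        refine ⟨t', ht', ⟨k, k.2, ?_⟩, ?_, hle' l hsgn⟩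
        · rw [htk']
          decide
        · intro h
          apply hkj
          apply hJ.disj t' ht' k k.2 j j.2
          · rw [htk']
            decide
          · rw [h]
            decide
    · obtain ⟨t', ht', hle', htk'⟩ := M0_star_supp (hF j).1 hneg
      have hsn : sgn (-e) l = -sgn e l := Left.sign_neg (e l)
      refine ⟨-t', neg_mem_cells ht', ⟨j, j.2, ?_⟩, ?_, ?_⟩
      · rw [Pi.neg_apply, htk']
        decide
      · rw [Pi.neg_apply, htk']
        decide
      · have h5 : sgn (-e) l ≠ 0 := by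
          rw [hsn]
          intro h
          apply hsgn
          generalize sgn e l = a at h ⊢
          revert h
          cases a <;> decide
        have h6 := hle' l h5
        rw [Pi.neg_apply]
        show -(t' l) = sgn e l
        rw [h6, hsn]
        generalize sgn e l = a
        cases a <;> decide
  · apply (hF j).1
    intro h
    simp only [EE, Finset.mem_filter] at h
    have h2 := h.2.1
    simp only [Pi.zero_apply, Int.natAbs_zero, Finset.sum_const_zero] at h2
    omega

theorem main_ker {b : ι → E d} {J : Finset ι} (hJ : Sep b J) {n : ℕ} (hn : 1 ≤ n) :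
    ∑ j ∈ J, Module.finrank ℝ ↥(FF (Star b j) n ⊓ Ker b) ≤
      Module.finrank ℝ ↥(FF (Cells b) n ⊓ Ker b ⊓ Par ι (-1)) := by
  have hfin : FiniteDimensional ℝ (FF (Cells b) n) := FF_fin _ n
  have hfin1 : FiniteDimensional ℝ ↥(FF (Cells b) n ⊓ Ker b) :=
    Submodule.finiteDimensional_inf_left _ _
  have hfin2 : FiniteDimensional ℝ ↥(FF (Cells b) n ⊓ Ker b ⊓ Par ι (-1)) :=
    Submodule.finiteDimensional_inf_left _ _
  have hfin3 : ∀ j : J, FiniteDimensional ℝ ↥(FF (Star b j) n ⊓ Ker b) := by
    intro j
    have := FF_fin (Star b j) n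
    exact Submodule.finiteDimensional_inf_left _ _
  -- the map
  let Φ0 : (∀ j : J, ↥(FF (Star b j) n ⊓ Ker b)) →ₗ[ℝ] Fn ι :=
    ∑ j : J, (anti ι) ∘ₗ (FF (Star b j) n ⊓ Ker b).subtype ∘ₗ LinearMap.proj j
  have hΦ0 : ∀ F : (∀ j : J, ↥(FF (Star b j) n ⊓ Ker b)),
      Φ0 F = ∑ j : J, anti ι (F j : Fn ι) := by
    intro F
    simp only [Φ0, LinearMap.sum_apply]
    rfl
  have hmem : ∀ F, Φ0 F ∈ FF (Cells b) n ⊓ Ker b ⊓ Par ι (-1) := by
    intro F
    rw [hΦ0]
    exact Submodule.sum_mem _ fun j _ => M0_anti_mem (F j).2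
  let Φ := Φ0.codRestrict _ hmem
  have hinj : Function.Injective Φ := by
    rw [← LinearMap.ker_eq_bot, eq_bot_iff]
    intro F hF
    rw [LinearMap.mem_ker] at hF
    rw [Submodule.mem_bot]
    have h1 : Φ0 F = 0 := congrArg Subtype.val hF
    rw [hΦ0] at h1
    funext j
    apply Subtype.ext
    exact M0_inj hJ hn (fun j => (F j : Fn ι)) (fun j => (F j).2) h1 j
  have h := LinearMap.finrank_le_finrank_of_injective hinj
  rw [Module.finrank_pi_fintype] at h
  rw [← Finset.sum_coe_sort J]
  exact h

end

end Pool.Agent.KST
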