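import Pool.Agent.KST.A5
import Pool.Agent.KST.G0
import Pool.Agent.KST.G1b
import Pool.Agent.KST.G2
import Pool.Agent.KST.G4
/-!
# Symmetry of the numbers `h`, and the top number `h` of a facet
-/
set_option autoImplicit false

open scoped BigOperators RealInnerProductSpace

namespace Pool.Agent.KST

noncomputable section

open Classical

variable {ι : Type} [Fintype ι] {d : ℕ}

theorem Q1_card_neg {b : ι → E d} {a : E d} (ha : Gen b a) {v : ι → SignType}
    (hv : v ∈ Verts b) : (PP b (-a) v).card = d - (PP b a v).card := by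
  have h1 : PP b a v ⊆ supp v := Finset.filter_subset _ _
  have h2 : (supp v).card = d := by
    unfold Verts at hv
    exact (Finset.mem_filter.1 hv).2
  rw [PP_neg ha hv, Finset.card_sdiff_of_subset h1, h2]

theorem Q1_card_le {b : ι → E d} {a : E d} {v : ι → SignType}
    (hv : v ∈ Verts b) : (PP b a v).card ≤ d := by
  have h1 : PP b a v ⊆ supp v := Finset.filter_subset _ _
  have h2 : (supp v).card = d := by
    unfold Verts at hv
    exact (Finset.mem_filter.1 hv).2
  exact (Finset.card_le_card h1).trans (le_of_eq h2)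

theorem hh_symm {b : ι → E d} (hS : Simple b) (hb : Bornology.IsBounded (Pol b)) {a : E d}
    (ha : Gen b a) {n : ℕ} (hn : n ≤ d) :
    hh (Verts b) (PP b a) n = hh (Verts b) (PP b a) (d - n) := by
  have h1 := finrank_ker (sweep_cells hS hb ha) n
  have h2 := finrank_ker (sweep_cells hS hb (gen_neg ha)) n
  rw [← h1, h2]
  unfold hh
  congr 1
  apply Finset.filter_congr
  intro v hv
  have h3 := Q1_card_neg ha hv
  have h4 := Q1_card_le (a := a) hv
  constructor
  · intro h5
    omega
  · intro h5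
    omega

/-- the sign vector of the facet `(j, +)` -/
def Q1_s (j : ι) : ι → SignType := fun l => if l = j then 1 else 0

theorem Q1_low {b : ι → E d} (hS : Simple b) (hb : Bornology.IsBounded (Pol b)) {a : E d}
    (ha : Gen b a) {j : ι} (hl : LowF b a j) (hd : 1 ≤ d) {v : ι → SignType} (hv : v ∈ VF b j)
    (hc : (PP b a v).card = d - 1) :
    Q1_s j ∈ Cells b ∧ Low (PP b (-a)) v (Q1_s j) := by
  have hv' := hv
  unfold VF at hv'
  obtain ⟨hv1, hv2⟩ := Finset.mem_filter.1 hv'
  have hle : Le (Q1_s j) v := by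
    intro l h
    unfold Q1_s at h ⊢
    by_cases h0 : l = j
    · subst h0
      rw [if_pos rfl]
      exact hv2
    · exact absurd (if_neg h0) h
  have hvc : v ∈ Cells b := by
    unfold Verts at hv1
    exact (Finset.mem_filter.1 hv1).1
  refine ⟨cells_down hS hvc hle, hle, ?_⟩
  have h1 : (PP b (-a) v).card = 1 := by
    rw [Q1_card_neg ha hv1, hc]
    omega
  have h2 : j ∈ PP b (-a) v := by
    rw [PP_neg ha hv1, Finset.mem_sdiff]
    refine ⟨?_, notMem_PP hS hb ha hl hv⟩
    unfold supp
    rw [Finset.mem_filter]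
    refine ⟨Finset.mem_univ _, ?_⟩
    rw [hv2]
    decide
  intro l hl'
  have h3 : l = j := Finset.card_le_one.1 (le_of_eq h1) l hl' j h2
  unfold Q1_s
  rw [if_pos h3]
  decide

theorem hh_top_facet {b : ι → E d} (hS : Simple b) (hb : Bornology.IsBounded (Pol b)) {a : E d}
    (ha : Gen b a) {j : ι} (hl : LowF b a j) (hd : 1 ≤ d) :
    hh (VF b j) (PP b a) (d - 1) ≤ 1 := by
  unfold hh
  rw [Finset.card_le_one]
  intro v hv w hw
  obtain ⟨hv1, hv2⟩ := Finset.mem_filter.1 hv
  obtain ⟨hw1, hw2⟩ := Finset.mem_filter.1 hw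
  obtain ⟨hs, hvl⟩ := Q1_low hS hb ha hl hd hv1 hv2
  obtain ⟨_, hwl⟩ := Q1_low hS hb ha hl hd hw1 hw2
  have hv3 : v ∈ Verts b := by
    unfold VF at hv1
    exact (Finset.mem_filter.1 hv1).1
  have hw3 : w ∈ Verts b := by
    unfold VF at hw1
    exact (Finset.mem_filter.1 hw1).1
  exact (sweep_cells hS hb (gen_neg ha)).uniq _ hs v hv3 w hw3 hvl hwl

end

end Pool.Agent.KST
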