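import Pool.Agent.KST.Defs

/-! Row Q2: number of facets of a simple centrally symmetric polytope against the odd kernel in
degree one. -/

set_option autoImplicit false

open scoped BigOperators RealInnerProductSpace

namespace Pool.Agent.KST

noncomputable section

open Classical

variable {ι : Type} [Fintype ι] {d : ℕ}

/-- unit vector -/
private def dl (l : ι) : ι → ℤ := Pi.single l (1 : ℤ)

omit [Fintype ι] in
private lemma dl_self (l : ι) : dl l l = 1 := by simp [dl]

omit [Fintype ι] in
private lemma dl_ne {l k : ι} (h : k ≠ l) : dl l k = 0 := by simp [dl, h]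

omit [Fintype ι] in
private lemma dl_nonneg (l k : ι) : 0 ≤ dl l k := by
  by_cases h : k = l
  · subst h; rw [dl_self]; norm_num
  · rw [dl_ne h]

/-- the odd function of a facet -/
private def gg (l : ι) : Fn ι := fun e => (if e = dl l then 1 else 0) - (if e = -dl l then 1 else 0)

private lemma gg_neg (l : ι) (e : ι → ℤ) : gg l (-e) = - gg l e := by
  unfold gg
  have h1 : (-e = dl l) ↔ (e = -dl l) := by
    constructor
    · intro h; rw [← h, neg_neg]
    · intro h; rw [h, neg_neg]
  have h2 : (-e = -dl l) ↔ (e = dl l) := neg_inj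
  simp only [h1, h2]
  ring

private lemma gg_up (l k : ι) (e : ι → ℤ) (h : 0 ≤ e k) :
    gg l (Function.update e k (e k + 1)) = if e = 0 ∧ k = l then 1 else 0 := by
  unfold gg
  have h2 : ¬ (Function.update e k (e k + 1) = -dl l) := by
    intro hh
    have := congrFun hh k
    rw [Function.update_self, Pi.neg_apply] at this
    have := dl_nonneg l k
    omega
  have h1 : (Function.update e k (e k + 1) = dl l) ↔ (e = 0 ∧ k = l) := by
    constructor
    · intro hh
      have hk := congrFun hh k
      rw [Function.update_self] at hk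
      have hkl : k = l := by
        by_contra hne
        rw [dl_ne hne] at hk
        omega
      refine ⟨?_, hkl⟩
      subst hkl
      rw [dl_self] at hk
      funext j
      by_cases hj : j = k
      · subst hj; simp; omega
      · have := congrFun hh j
        rw [Function.update_of_ne hj, dl_ne hj] at this
        simpa using this
    · rintro ⟨rfl, rfl⟩
      funext j
      by_cases hj : j = k
      · subst hj; simp [dl_self]
      · rw [Function.update_of_ne hj, dl_ne hj]; rfl
  rw [if_neg h2]
  simp only [h1, sub_zero]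

private lemma gg_down (l k : ι) (e : ι → ℤ) (h : e k ≤ 0) :
    gg l (Function.update e k (e k - 1)) = -(if e = 0 ∧ k = l then 1 else 0) := by
  have h3 : Function.update e k (e k - 1) = -(Function.update (-e) k ((-e) k + 1)) := by
    funext j
    by_cases hj : j = k
    · subst hj; simp; ring
    · simp [Function.update_of_ne hj]
  rw [h3, gg_neg, gg_up l k (-e) (by simpa using h)]
  simp only [neg_eq_zero]

private lemma X_gg (l k : ι) (e : ι → ℤ) : X k (gg l) e = if e = 0 ∧ k = l then 2 else 0 := by
  have hX : X k (gg l) e = (if 0 ≤ e k then gg l (Function.update e k (e k + 1)) else 0) -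
    (if e k ≤ 0 then gg l (Function.update e k (e k - 1)) else 0) := rfl
  rw [hX]
  by_cases he : e = 0
  · subst he
    rw [if_pos (by simp), if_pos (by simp), gg_up l k 0 (by simp), gg_down l k 0 (by simp)]
    split_ifs <;> norm_num
  · have h1 : (if 0 ≤ e k then gg l (Function.update e k (e k + 1)) else 0) = 0 := by
      split_ifs with h
      · rw [gg_up l k e h, if_neg (by tauto)]
      · rfl
    have h2 : (if e k ≤ 0 then gg l (Function.update e k (e k - 1)) else 0) = 0 := by
      split_ifs with h
      · rw [gg_down l k e h, if_neg (by tauto), neg_zero]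
      · rfl
    rw [h1, h2, if_neg (by tauto), sub_zero]

private lemma D_gg (b : ι → E d) (y : E d) (l : ι) (e : ι → ℤ) :
    D b y (gg l) e = if e = 0 then 2 * ⟪b l, y⟫ else 0 := by
  have h : D b y (gg l) e = ∑ k, ⟪b k, y⟫ * X k (gg l) e := by
    unfold D
    rw [LinearMap.sum_apply, Finset.sum_apply]
    rfl
  rw [h]
  simp only [X_gg]
  by_cases he : e = 0
  · subst he
    simp only [true_and, if_true]
    rw [Finset.sum_eq_single l]
    · simp; ring
    · intro k _ hk; rw [if_neg hk, mul_zero]
    · intro hl; exact absurd (Finset.mem_univ _) hl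
  · simp [he]

omit [Fintype ι] in
private lemma sgn_dl (l : ι) : sgn (dl l) = Pi.single l (1 : SignType) := by
  funext k
  unfold sgn
  by_cases h : k = l
  · subst h; rw [dl_self]; simp
  · rw [dl_ne h]; simp [h]

omit [Fintype ι] in
private lemma sgn_neg_dl (l : ι) : sgn (-dl l) = -Pi.single l (1 : SignType) := by
  funext k
  unfold sgn
  by_cases h : k = l
  · subst h; rw [Pi.neg_apply, dl_self]; simp
  · rw [Pi.neg_apply, dl_ne h]; simp [h]

private lemma sum_dl (l : ι) : ∑ k, (dl l k).natAbs = 1 := by
  rw [Finset.sum_eq_single l]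
  · rw [dl_self]; rfl
  · intro k _ hk; rw [dl_ne hk]; rfl
  · intro hl; exact absurd (Finset.mem_univ _) hl

omit [Fintype ι] in
private lemma dl_le_one (l k : ι) : dl l k ≤ 1 := by
  by_cases h : k = l
  · subst h; rw [dl_self]
  · rw [dl_ne h]; norm_num

private lemma cell_single {b : ι → E d} (hS : Simple b) {l : ι}
    (h : ∃ t ∈ Cells b, t l = 1) : (Pi.single l (1 : SignType) : ι → SignType) ∈ Cells b := by
  obtain ⟨t, ht, htl⟩ := h
  have hind := hS t ht
  unfold Cells at ht ⊢
  rw [Finset.mem_filter] at ht ⊢
  obtain ⟨x, hx⟩ := ht.2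
  refine ⟨Finset.mem_univ _, ?_⟩
  -- a vector `y` with `⟪b l, y⟫ = 0` and `⟪b k, y⟫ = t k` for the other tight `k`
  have hy : ∃ y : E d, ∀ k, t k ≠ 0 → ⟪b k, y⟫ = if k = l then 0 else ((t k : SignType) : ℝ) := by
    let B := Module.Basis.span hind
    obtain ⟨f, hf⟩ := (B.constr ℝ (fun k : {l : ι // t l ≠ 0} =>
      if k.1 = l then (0 : ℝ) else ((t k.1 : SignType) : ℝ))).exists_extend
    refine ⟨(InnerProductSpace.toDual ℝ (E d)).symm (LinearMap.toContinuousLinearMap f), ?_⟩
    intro k hk
    rw [real_inner_comm, InnerProductSpace.toDual_symm_apply]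
    have h1 : f (b k) = (f ∘ₗ (Submodule.span ℝ
        (Set.range (fun l : {l : ι // t l ≠ 0} => b l.1))).subtype) (B ⟨k, hk⟩) := by
      rw [LinearMap.comp_apply, Submodule.subtype_apply, Module.Basis.span_apply]
    have h2 : (LinearMap.toContinuousLinearMap f) (b k) = f (b k) := rfl
    rw [h2, h1, hf, Module.Basis.constr_basis]
  obtain ⟨y, hy⟩ := hy
  have hev : ∀ᶠ ε : ℝ in nhdsWithin 0 (Set.Ioi 0), ∀ k, t k = 0 → |⟪b k, x - ε • y⟫| < 1 := by
    rw [Filter.eventually_all]
    intro k
    by_cases hk : t k = 0
    · have hcont : Continuous (fun ε : ℝ => |⟪b k, x - ε • y⟫|) := by fun_prop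
      have h0 : |⟪b k, x - (0 : ℝ) • y⟫| < 1 := by
        rw [zero_smul, sub_zero]; exact (hx k).1 hk
      have h1 : ∀ᶠ ε : ℝ in nhds 0, |⟪b k, x - ε • y⟫| < 1 :=
        hcont.continuousAt.eventually_lt continuousAt_const h0
      filter_upwards [nhdsWithin_le_nhds h1] with ε hε _ using hε
    · filter_upwards with ε h using absurd h hk
  have hlt : ∀ᶠ ε : ℝ in nhdsWithin 0 (Set.Ioi 0), ε < 1 :=
    nhdsWithin_le_nhds (gt_mem_nhds (by norm_num))
  obtain ⟨ε, ⟨h1, h2⟩, h3⟩ := ((hev.and hlt).and self_mem_nhdsWithin).exists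
  have hpos : (0 : ℝ) < ε := h3
  refine ⟨x - ε • y, ?_⟩
  intro k
  constructor
  · intro hk
    have hkl : k ≠ l := by
      rintro rfl
      simp at hk
    by_cases htk : t k = 0
    · exact h1 k htk
    · rw [inner_sub_right, inner_smul_right, hy k htk, (hx k).2 htk, if_neg hkl]
      have h4 : |((t k : SignType) : ℝ)| = 1 := by
        rcases SignType.trichotomy (t k) with h | h | h
        · rw [h]; simp
        · exact absurd h htk
        · rw [h]; simp
      have h5 : ((t k : SignType) : ℝ) - ε * ((t k : SignType) : ℝ) =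
          (1 - ε) * ((t k : SignType) : ℝ) := by ring
      rw [h5, abs_mul, h4, mul_one, abs_of_pos (by linarith)]
      linarith
  · intro hk
    have hkl : k = l := by
      by_contra h
      apply hk
      simp [h]
    subst hkl
    have htk : t k ≠ 0 := by rw [htl]; decide
    rw [inner_sub_right, inner_smul_right, hy k htk, (hx k).2 htk, if_pos rfl, mul_zero, sub_zero,
      htl, Pi.single_eq_same]

private lemma cell_neg_single {b : ι → E d} {l : ι}
    (h : (Pi.single l (1 : SignType) : ι → SignType) ∈ Cells b) :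
    (-Pi.single l (1 : SignType) : ι → SignType) ∈ Cells b := by
  unfold Cells at h ⊢
  rw [Finset.mem_filter] at h ⊢
  obtain ⟨x, hx⟩ := h.2
  refine ⟨Finset.mem_univ _, -x, ?_⟩
  intro k
  obtain ⟨h1, h2⟩ := hx k
  constructor
  · intro hk
    rw [inner_neg_right, abs_neg]
    apply h1
    rw [Pi.neg_apply] at hk
    simpa using hk
  · intro hk
    rw [inner_neg_right, Pi.neg_apply]
    rw [h2 (by intro h0; apply hk; rw [Pi.neg_apply, h0]; rfl)]
    simp

private lemma gg_mem {b : ι → E d} (hS : Simple b) {l : ι}
    (h : ∃ t ∈ Cells b, t l = 1) : gg l ∈ FF (Cells b) 1 := by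
  have hc := cell_single hS h
  have hc' := cell_neg_single hc
  intro e he
  unfold gg
  have h1 : e ≠ dl l := by
    rintro rfl
    apply he
    unfold EE
    rw [Finset.mem_filter, Fintype.mem_piFinset]
    refine ⟨?_, sum_dl l, by rw [sgn_dl]; exact hc⟩
    intro k
    rw [Finset.mem_Icc]
    have := dl_nonneg l k
    have := dl_le_one l k
    constructor <;> push_cast <;> linarith
  have h2 : e ≠ -dl l := by
    rintro rfl
    apply he
    unfold EE
    rw [Finset.mem_filter, Fintype.mem_piFinset]
    refine ⟨?_, ?_, by rw [sgn_neg_dl]; exact hc'⟩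
    · intro k
      rw [Finset.mem_Icc, Pi.neg_apply]
      have := dl_nonneg l k
      have := dl_le_one l k
      constructor <;> push_cast <;> linarith
    · simp only [Pi.neg_apply, Int.natAbs_neg]; exact sum_dl l
  rw [if_neg h1, if_neg h2, sub_zero]

private lemma FF_fin' (C : Finset (ι → SignType)) (n : ℕ) : FiniteDimensional ℝ (FF C n) := by
  let φ : ↥(FF C n) →ₗ[ℝ] (↥(EE C n) → ℝ) :=
    { toFun := fun f e => f.1 e.1
      map_add' := by intro f g; rfl
      map_smul' := by intro c f; rfl }
  refine FiniteDimensional.of_injective φ ?_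
  intro f g hfg
  apply Subtype.ext
  funext e
  by_cases he : e ∈ EE C n
  · exact congrFun hfg ⟨e, he⟩
  · rw [f.2 e he, g.2 e he]

theorem facets_le {b : ι → E d} (hS : Simple b) :
    (Finset.univ.filter (fun l => ∃ t ∈ Cells b, t l = 1)).card ≤
      d + Module.finrank ℝ ↥(FF (Cells b) 1 ⊓ Ker b ⊓ Par ι (-1)) := by
  set L : Finset ι := Finset.univ.filter (fun l => ∃ t ∈ Cells b, t l = 1) with hL
  let M : (↥L → ℝ) →ₗ[ℝ] E d := Fintype.linearCombination ℝ (fun l : ↥L => b l.1)
  let Φ : (↥L → ℝ) →ₗ[ℝ] Fn ι := Fintype.linearCombination ℝ (fun l : ↥L => gg l.1)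
  have hΦ : ∀ c e, Φ c e = ∑ l : ↥L, c l * gg l.1 e := by
    intro c e
    simp only [Φ, Fintype.linearCombination_apply, Finset.sum_apply, Pi.smul_apply, smul_eq_mul]
  have hmem : ∀ c : ↥(LinearMap.ker M), Φ c.1 ∈ FF (Cells b) 1 ⊓ Ker b ⊓ Par ι (-1) := by
    intro c
    refine ⟨⟨?_, ?_⟩, ?_⟩
    · intro e he
      rw [hΦ]
      apply Finset.sum_eq_zero
      intro l _
      have := gg_mem hS (l := l.1) ((Finset.mem_filter.mp l.2).2) e he
      rw [this, mul_zero]
    · unfold Ker
      rw [SetLike.mem_coe, Submodule.mem_iInf]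
      intro y
      rw [LinearMap.mem_ker]
      have h1 : D b y (Φ c.1) = ∑ l : ↥L, c.1 l • D b y (gg l.1) := by
        simp only [Φ, Fintype.linearCombination_apply, map_sum, map_smul]
      rw [h1]
      funext e
      rw [Finset.sum_apply]
      simp only [Pi.smul_apply, smul_eq_mul, D_gg, Pi.zero_apply]
      by_cases he : e = 0
      · simp only [he, if_true]
        have h2 : M c.1 = 0 := c.2
        have h3 : ∑ l : ↥L, c.1 l * (2 * ⟪b l.1, y⟫) = 2 * ⟪M c.1, y⟫ := by
          simp only [M, Fintype.linearCombination_apply, sum_inner, inner_smul_left, Finset.mul_sum]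
          apply Finset.sum_congr rfl
          intro l _
          simp; ring
        rw [h3, h2, inner_zero_left, mul_zero]
      · simp [he]
    · intro e
      rw [hΦ, hΦ, Finset.mul_sum]
      apply Finset.sum_congr rfl
      intro l _
      rw [gg_neg]; ring
  let Ψ : ↥(LinearMap.ker M) →ₗ[ℝ] ↥(FF (Cells b) 1 ⊓ Ker b ⊓ Par ι (-1)) :=
    { toFun := fun c => ⟨Φ c.1, hmem c⟩
      map_add' := by intro c c'; apply Subtype.ext; simp
      map_smul' := by intro r c; apply Subtype.ext; simp }
  have hinj : Function.Injective Ψ := by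
    intro c c' hcc
    apply Subtype.ext
    funext l
    have h1 : Φ c.1 = Φ c'.1 := congrArg Subtype.val hcc
    have h2 : ∀ c : ↥L → ℝ, Φ c (dl l.1) = c l := by
      intro c
      rw [hΦ, Finset.sum_eq_single l]
      · have : gg l.1 (dl l.1) = 1 := by
          unfold gg
          rw [if_pos rfl, if_neg, sub_zero]
          intro h
          have := congrFun h l.1
          rw [Pi.neg_apply, dl_self] at this
          norm_num at this
        rw [this, mul_one]
      · intro k _ hk
        have : gg k.1 (dl l.1) = 0 := by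
          unfold gg
          have hkl : l.1 ≠ k.1 := fun h => hk (Subtype.ext h.symm)
          rw [if_neg, if_neg, sub_zero]
          · intro h
            have := congrFun h l.1
            rw [Pi.neg_apply, dl_self, dl_ne hkl] at this
            norm_num at this
          · intro h
            have := congrFun h l.1
            rw [dl_self, dl_ne hkl] at this
            norm_num at this
        rw [this, mul_zero]
      · intro h; exact absurd (Finset.mem_univ _) h
    rw [← h2 c.1, ← h2 c'.1, h1]
  have := FF_fin' (Cells b) 1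
  have : FiniteDimensional ℝ ↥(FF (Cells b) 1 ⊓ Ker b ⊓ Par ι (-1)) :=
    Submodule.finiteDimensional_of_le (S₂ := FF (Cells b) 1) (inf_le_left.trans inf_le_left)
  have h1 := LinearMap.finrank_le_finrank_of_injective hinj
  have h2 := LinearMap.finrank_range_add_finrank_ker M
  have h3 : Module.finrank ℝ ↥(LinearMap.range M) ≤ d := by
    have := Submodule.finrank_le (LinearMap.range M)
    rwa [finrank_euclideanSpace_fin] at this
  rw [Module.finrank_fintype_fun_eq_card, Fintype.card_coe] at h2
  omega

end

end Pool.Agent.KST
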