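import Pool.Agent.KST.A5
import Pool.Agent.KST.G2
import Pool.Agent.KST.G3
import Pool.Agent.KST.G4
import Pool.Agent.KST.M0
import Pool.Agent.KST.Q1
import Pool.Agent.KST.Q2

/-! Row Q3: what equality gives, combination. -/

set_option autoImplicit false

open scoped BigOperators RealInnerProductSpace

namespace Pool.Agent.KST

noncomputable section

open Classical

variable {ι : Type} [Fintype ι] {d : ℕ}

omit [Fintype ι] in
private theorem sum_pow_hh (V : Finset (ι → SignType)) (P : (ι → SignType) → Finset ι)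
    (hP : ∀ v ∈ V, (P v).card ≤ d) :
    ∑ v ∈ V, 2 ^ (P v).card = ∑ n ∈ Finset.range (d + 1), 2 ^ n * hh V P n := by
  rw [← Finset.sum_fiberwise_of_maps_to (t := Finset.range (d + 1))
    (g := fun v => (P v).card) (fun v hv => Finset.mem_range.2 (by have := hP v hv; omega))]
  refine Finset.sum_congr rfl fun n _ => ?_
  rw [hh, Finset.sum_congr rfl (g := fun _ => 2 ^ n) (fun v hv => by
    rw [(Finset.mem_filter.1 hv).2])]
  rw [Finset.sum_const, smul_eq_mul, mul_comm]

private theorem VF_eq_empty {b : ι → E d} {j : ι} (h : ¬ ∃ t ∈ Cells b, t j = 1) :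
    VF b j = ∅ := by
  rw [Finset.eq_empty_iff_forall_notMem]
  intro v hv
  have h1 := Finset.mem_filter.1 hv
  exact h ⟨v, (Finset.mem_filter.1 h1.1).1, h1.2⟩

private theorem card_PP_le {b : ι → E d} (hS : Simple b) (hb : Bornology.IsBounded (Pol b))
    {a : E d} (ha : Gen b a) {v : ι → SignType} (hv : v ∈ Verts b) : (PP b a v).card ≤ d := by
  have h := sweep_cells hS hb ha
  exact (Finset.card_le_card (h.psub v hv)).trans (h.card v hv).le

theorem main_eq {b : ι → E d} (hS : Simple b) (hb : Bornology.IsBounded (Pol b)) {J : Finset ι}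
    (hJ : Sep b J) (hd : 2 ≤ d)
    (heq : (Cells b).card + 2 * (J.filter (fun j => ∃ t ∈ Cells b, t j = 1)).card ≤
      3 ^ d + 2 * ∑ j ∈ J, ((Cells b).filter (fun s => s j = 1)).card) :
    (Finset.univ.filter (fun l => l ∉ J ∧ ∃ t ∈ Cells b, t l = 1)).card ≤ d := by
  obtain ⟨a, ha, -⟩ := exists_gen_near hS 0 one_pos
  choose aj haj hlj using fun j : ι => exists_low hS j
  set κ : ℕ → ℕ := fun n => Module.finrank ℝ ↥(FF (Cells b) n ⊓ Ker b ⊓ Par ι (-1)) with hκ
  set h : ℕ → ℕ := fun n => hh (Verts b) (PP b a) n with hh1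
  set g : ι → ℕ → ℕ := fun j n => hh (VF b j) (PP b (aj j)) n with hg
  set r := (J.filter (fun j => ∃ t ∈ Cells b, t j = 1)).card with hr
  have hsw := sweep_cells hS hb ha
  have hneg : ∀ s ∈ Cells b, -s ∈ Cells b := fun s hs => neg_mem_cells hs
  -- the numbers h
  have e1 : ∀ n, 2 * κ n + d.choose n = h n := fun n => finrank_minus hsw hneg n
  -- the number of cells
  have e2 : (Cells b).card = 3 ^ d + 2 * ∑ n ∈ Finset.range (d + 1), 2 ^ n * κ n := by
    rw [card_cells hS hb ha, sum_pow_hh (Verts b) (PP b a) (fun v hv => card_PP_le hS hb ha hv)]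
    have : ∀ n ∈ Finset.range (d + 1), 2 ^ n * hh (Verts b) (PP b a) n =
        2 ^ n * d.choose n + 2 * (2 ^ n * κ n) := by
      intro n _
      have := e1 n
      simp only [hh1] at this
      rw [← this]; ring
    rw [Finset.sum_congr rfl this, Finset.sum_add_distrib, ← Finset.mul_sum]
    congr 1
    have h3 := add_pow (2 : ℕ) 1 d
    simp only [one_pow, mul_one] at h3
    exact h3.symm
  -- facets
  have vf : ∀ j, ∀ v ∈ VF b j, v ∈ Verts b := fun j v hv => (Finset.mem_filter.1 hv).1
  have e3 : ∀ j, ((Cells b).filter (fun s => s j = 1)).card =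
      ∑ n ∈ Finset.range (d + 1), 2 ^ n * g j n := by
    intro j
    rw [card_facet hS hb (haj j) (hlj j)]
    exact sum_pow_hh (VF b j) (PP b (aj j)) (fun v hv => card_PP_le hS hb (haj j) (vf j v hv))
  have g_zero : ∀ j, (¬ ∃ t ∈ Cells b, t j = 1) → ∀ n, g j n = 0 := by
    intro j hj n
    simp only [hg, hh, VF_eq_empty hj, Finset.filter_empty, Finset.card_empty]
  have e4 : ∀ j n, g j n ≤ Module.finrank ℝ ↥(FF (Star b j) n ⊓ Ker b) := by
    intro j n
    by_cases hj : ∃ t ∈ Cells b, t j = 1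
    · exact (finrank_ker (sweep_star hS hb (haj j) (hlj j) hj) n).ge
    · rw [g_zero j hj n]; exact Nat.zero_le _
  have e5 : ∀ n, 1 ≤ n → ∑ j ∈ J, g j n ≤ κ n := fun n hn =>
    (Finset.sum_le_sum fun j _ => e4 j n).trans (main_ker hJ hn)
  -- sums over J of numbers which are at most one and vanish for empty facets
  have e6 : ∀ u : ι → ℕ, (∀ j, u j ≤ 1) → (∀ j, (¬ ∃ t ∈ Cells b, t j = 1) → u j = 0) →
      ∑ j ∈ J, u j ≤ r := by
    intro u hu hu0
    rw [hr, Finset.card_filter]
    refine Finset.sum_le_sum fun j _ => ?_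
    by_cases hj : ∃ t ∈ Cells b, t j = 1
    · rw [if_pos hj]; exact hu j
    · rw [if_neg hj, hu0 j hj]
  have e7 : ∑ j ∈ J, g j 0 ≤ r :=
    e6 _ (fun j => hh_zero_le hS hb (haj j) (hlj j)) (fun j hj => g_zero j hj 0)
  have e8 : ∑ j ∈ J, g j (d - 1) ≤ r :=
    e6 _ (fun j => hh_top_facet hS hb (haj j) (hlj j) (by omega)) (fun j hj => g_zero j hj _)
  -- sum over J of the facet numbers
  have e9 : ∑ j ∈ J, ((Cells b).filter (fun s => s j = 1)).card =
      ∑ n ∈ Finset.range (d + 1), 2 ^ n * ∑ j ∈ J, g j n := by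
    rw [Finset.sum_congr rfl (fun j _ => e3 j), Finset.sum_comm]
    exact Finset.sum_congr rfl fun n _ => (Finset.mul_sum _ _ _).symm
  -- equality
  have e10 : κ (d - 1) ≤ ∑ j ∈ J, g j (d - 1) := by
    by_contra hcon0
    have hcon := not_le.1 hcon0
    have hlt : ∑ n ∈ Finset.range (d + 1), 2 ^ n * ∑ j ∈ J, g j n <
        r + ∑ n ∈ Finset.range (d + 1), 2 ^ n * κ n := by
      have hsplit : ∀ u : ℕ → ℕ, ∑ n ∈ Finset.range (d + 1), 2 ^ n * u n =
          ∑ n ∈ Finset.range d, 2 ^ (n + 1) * u (n + 1) + u 0 := by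
        intro u
        rw [Finset.sum_range_succ']
        simp
      rw [hsplit (fun n => ∑ j ∈ J, g j n), hsplit κ]
      have : ∑ n ∈ Finset.range d, 2 ^ (n + 1) * ∑ j ∈ J, g j (n + 1) <
          ∑ n ∈ Finset.range d, 2 ^ (n + 1) * κ (n + 1) := by
        refine Finset.sum_lt_sum (fun n _ => Nat.mul_le_mul_left _ (e5 (n + 1) (by omega)))
          ⟨d - 2, Finset.mem_range.2 (by omega), ?_⟩
        have hdd : d - 2 + 1 = d - 1 := by omega
        rw [hdd]
        exact Nat.mul_lt_mul_of_pos_left hcon (by positivity)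
      omega
    rw [e9, e2] at heq
    omega
  -- the number of facets
  have e11 : κ 1 = κ (d - 1) := by
    have h1 := hh_symm hS hb ha (n := 1) (by omega)
    have h2 := e1 1
    have h3 := e1 (d - 1)
    have h4 : d.choose 1 = d.choose (d - 1) := by
      have := Nat.choose_symm (n := d) (k := 1) (by omega)
      exact this.symm
    simp only [hh1] at h2 h3
    omega
  have e12 := facets_le hS
  have e13 : (Finset.univ.filter (fun l => ∃ t ∈ Cells b, t l = 1)).card =
      (Finset.univ.filter (fun l => l ∉ J ∧ ∃ t ∈ Cells b, t l = 1)).card + r := by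
    rw [hr, ← Finset.card_union_of_disjoint]
    · congr 1
      ext l
      simp only [Finset.mem_filter, Finset.mem_univ, true_and, Finset.mem_union]
      by_cases hl : l ∈ J <;> simp [hl]
    · rw [Finset.disjoint_left]
      intro l hl hl'
      exact (Finset.mem_filter.1 hl).2.1 (Finset.mem_filter.1 hl').1
  have e14 : κ 1 ≤ r := by rw [e11]; exact e10.trans e8
  have e15 : (Finset.univ.filter (fun l => ∃ t ∈ Cells b, t l = 1)).card ≤ d + κ 1 := e12
  omega

end

end Pool.Agent.KST
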