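import Pool.Agent.KST.Defs

/-! # Row Q4: the facets outside the caps suffice -/

set_option autoImplicit false

open scoped BigOperators RealInnerProductSpace

namespace Pool.Agent.KST

noncomputable section

open Classical

set_option linter.unusedSectionVars false

variable {ι : Type} [Fintype ι] {d : ℕ}

theorem Q4_cell {b : ι → E d} {x : E d} (hx : x ∈ Pol b) : ∃ s, IsCell b s x := by
  refine ⟨fun l => if ⟪b l, x⟫ = 1 then 1 else if ⟪b l, x⟫ = -1 then -1 else 0, fun l => ?_⟩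
  have h := hx l
  rw [abs_le] at h
  dsimp only
  split_ifs with h1 h2
  · exact ⟨fun h => absurd h (by decide), fun _ => by simpa using h1⟩
  · exact ⟨fun h => absurd h (by decide), fun _ => by simpa using h2⟩
  · refine ⟨fun _ => ?_, fun h => absurd rfl h⟩
    rw [abs_lt]
    exact ⟨lt_of_le_of_ne h.1 (Ne.symm h2), lt_of_le_of_ne h.2 h1⟩

theorem Q4_mem {b : ι → E d} {s : ι → SignType} : s ∈ Cells b ↔ ∃ x, IsCell b s x := by
  rw [Cells, Finset.mem_filter]
  exact ⟨fun h => h.2, fun h => ⟨Finset.mem_univ _, h⟩⟩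

theorem Q4_pol {b : ι → E d} {s : ι → SignType} {x : E d} (hs : IsCell b s x) : x ∈ Pol b := by
  intro l
  by_cases h : s l = 0
  · exact le_of_lt ((hs l).1 h)
  · rw [(hs l).2 h]
    rcases SignType.trichotomy (s l) with h1 | h1 | h1
    · rw [h1]; simp
    · exact absurd h1 h
    · rw [h1]; simp

theorem Q4_neg {b : ι → E d} {s : ι → SignType} {x : E d} (hs : IsCell b s x) :
    IsCell b (-s) (-x) := by
  intro l
  rw [Pi.neg_apply, inner_neg_right, abs_neg]
  refine ⟨fun h => (hs l).1 (by simpa using h), fun h => ?_⟩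
  rw [(hs l).2 (by simpa using h), SignType.coe_neg]

/-- the sign of a tight constraint is determined -/
theorem Q4_sgn {b : ι → E d} {s : ι → SignType} {x : E d} (hs : IsCell b s x) {l : ι}
    {σ : SignType} (hσ : σ ≠ 0) (h : ⟪b l, x⟫ = (σ : ℝ)) : s l = σ := by
  have h1 : s l ≠ 0 := by
    intro h0
    have h2 := (hs l).1 h0
    rw [h] at h2
    rcases SignType.trichotomy σ with h3 | h3 | h3
    · rw [h3] at h2; simp at h2
    · exact hσ h3
    · rw [h3] at h2; simp at h2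
  have h2 := (hs l).2 h1
  rw [h] at h2
  revert h2 hσ h1
  generalize s l = τ
  rcases SignType.trichotomy σ with h3 | h3 | h3 <;>
  rcases SignType.trichotomy τ with h4 | h4 | h4 <;>
  rw [h3, h4] <;> simp <;> norm_num

variable {α β : Type} [Fintype α] [Fintype β] {a : α → E d} {g : β → E d}

theorem Q4_out {i : α} (hi : ¬ ∃ t ∈ Cells (Sum.elim a g), t (Sum.inl i) = 1) {y : E d}
    (hy : y ∈ Pol a) {σ : SignType} (hσ : σ ≠ 0) (h : ⟪a i, y⟫ = (σ : ℝ)) :
    ∃ (k : β) (t : SignType), t ≠ 0 ∧ 1 < (t : ℝ) * ⟪g k, y⟫ := by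
  by_contra hcon
  push Not at hcon
  have hP : y ∈ Pol (Sum.elim a g) := by
    rintro (l | k)
    · exact hy l
    · rw [Sum.elim_inr, abs_le]
      have h1 := hcon k 1 (by decide)
      have h2 := hcon k (-1) (by decide)
      rw [SignType.coe_one] at h1
      rw [SignType.coe_neg_one] at h2
      constructor <;> linarith
  obtain ⟨s, hs⟩ := Q4_cell hP
  have h1 : s (Sum.inl i) = σ := Q4_sgn hs hσ h
  apply hi
  rcases SignType.trichotomy σ with h3 | h3 | h3
  · refine ⟨-s, ?_, ?_⟩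
    · exact Q4_mem.mpr ⟨-y, Q4_neg hs⟩
    · rw [Pi.neg_apply, h1, h3, neg_neg]
  · exact absurd h3 hσ
  · refine ⟨s, ?_, by rw [h1, h3]⟩
    exact Q4_mem.mpr ⟨y, hs⟩

theorem Q4_seg {x y : E d} (hx : x ∈ Pol a) (hy : y ∈ Pol a) {c : ℝ} (h0 : 0 ≤ c) (h1 : c ≤ 1) :
    x + c • (y - x) ∈ Pol a := by
  intro l
  have h2 := hx l
  have h3 := hy l
  rw [abs_le] at h2 h3 ⊢
  rw [inner_add_right, inner_smul_right, inner_sub_right]
  constructor <;> nlinarith

theorem Q4_key (H : Hyp a g) {i : α} (hi : ¬ ∃ t ∈ Cells (Sum.elim a g), t (Sum.inl i) = 1)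
    {x y : E d} (hx : x ∈ Pol a) (hy : y ∈ Pol a) {σ : SignType} (hσ : σ ≠ 0)
    (hxi : ⟪a i, x⟫ = (σ : ℝ)) (hyi : ⟪a i, y⟫ = (σ : ℝ)) {j : β} {s : SignType}
    (h : 1 ≤ (s : ℝ) * ⟪g j, x⟫) : 1 < (s : ℝ) * ⟪g j, y⟫ := by
  by_contra hcon
  rw [not_lt] at hcon
  -- a point with value exactly one
  obtain ⟨c, hc0, hc1, hc⟩ : ∃ c : ℝ, 0 ≤ c ∧ c ≤ 1 ∧
      (s : ℝ) * ⟪g j, x⟫ + c * ((s : ℝ) * ⟪g j, y⟫ - (s : ℝ) * ⟪g j, x⟫) = 1 := by
    rcases eq_or_lt_of_le h with h1 | h1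
    · exact ⟨0, le_rfl, zero_le_one, by rw [← h1]; ring⟩
    · have h2 : 0 < (s : ℝ) * ⟪g j, x⟫ - (s : ℝ) * ⟪g j, y⟫ := by linarith
      refine ⟨((s : ℝ) * ⟪g j, x⟫ - 1) / ((s : ℝ) * ⟪g j, x⟫ - (s : ℝ) * ⟪g j, y⟫), ?_, ?_, ?_⟩
      · exact div_nonneg (by linarith) h2.le
      · rw [div_le_one h2]; linarith
      · have h3 : ∀ p q : ℝ, 0 < p - q → p + (p - 1) / (p - q) * (q - p) = 1 := by
          intro p q h
          have h4 : (p - 1) / (p - q) * (q - p) = -(p - 1) := by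
            rw [div_mul_eq_mul_div, div_eq_iff h.ne']
            ring
          rw [h4]
          ring
        exact h3 _ _ h2
  have hu := Q4_seg hx hy hc0 hc1
  have hui : ⟪a i, x + c • (y - x)⟫ = (σ : ℝ) := by
    rw [inner_add_right, inner_smul_right, inner_sub_right, hxi, hyi]; ring
  have huj : (s : ℝ) * ⟪g j, x + c • (y - x)⟫ = 1 := by
    rw [inner_add_right, inner_smul_right, inner_sub_right, ← hc]; ring
  obtain ⟨k, t, ht0, ht⟩ := Q4_out hi hu hσ hui
  obtain ⟨h1, h2⟩ := H.disj _ hu j k s t huj.ge ht.le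
  subst h1 h2
  rw [huj] at ht
  exact lt_irrefl _ ht

theorem Q4_face (hb : Bornology.IsBounded (Pol a)) {c : α → SignType} {p q : E d}
    (hp : IsCell a c p) (hq : IsCell a c q) (hne : p ≠ q) :
    ∃ (c' : α → SignType) (w : E d), IsCell a c' w ∧ c' ≠ c ∧
      ∀ i, c i ≠ 0 → ⟪a i, w⟫ = ((c i : SignType) : ℝ) := by
  set v : E d := q - p with hv
  have hv0 : v ≠ 0 := by
    rw [hv, Ne, sub_eq_zero]
    exact fun h => hne h.symm
  have hvi : ∀ i, c i ≠ 0 → ⟪a i, v⟫ = 0 := by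
    intro i hi
    rw [hv, inner_sub_right, (hp i).2 hi, (hq i).2 hi, sub_self]
  have hcont : ∀ i, Continuous (fun r : ℝ => ⟪a i, p + r • v⟫) := by
    intro i
    fun_prop
  let T : Set ℝ := {r | 0 ≤ r ∧ p + r • v ∈ Pol a}
  have hT0 : (0 : ℝ) ∈ T := ⟨le_rfl, by rw [zero_smul, add_zero]; exact Q4_pol hp⟩
  have hTc : IsClosed T := by
    have h1 : IsClosed {r : ℝ | 0 ≤ r} := isClosed_Ici
    have h2 : IsClosed {r : ℝ | p + r • v ∈ Pol a} := by
      have h3 : {r : ℝ | p + r • v ∈ Pol a} = ⋂ i, {r : ℝ | |⟪a i, p + r • v⟫| ≤ 1} := by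
        ext r
        simp only [Set.mem_ofPred_eq, Set.mem_iInter]
        rfl
      rw [h3]
      exact isClosed_iInter fun i => isClosed_le (hcont i).abs continuous_const
    exact h1.inter h2
  have hTb : BddAbove T := by
    obtain ⟨R, hR⟩ := hb.exists_norm_le
    refine ⟨(R + ‖p‖) / ‖v‖, ?_⟩
    rintro r ⟨hr0, hr⟩
    have h1 := hR _ hr
    have hvpos : 0 < ‖v‖ := norm_pos_iff.mpr hv0
    rw [le_div_iff₀ hvpos]
    have h2 : ‖r • v‖ ≤ ‖p + r • v‖ + ‖p‖ := by
      have := norm_sub_le (p + r • v) p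
      rwa [add_sub_cancel_left] at this
    rw [norm_smul, Real.norm_eq_abs, abs_of_nonneg hr0] at h2
    linarith
  have hm : sSup T ∈ T := hTc.csSup_mem ⟨0, hT0⟩ hTb
  obtain ⟨c', hc'⟩ := Q4_cell hm.2
  refine ⟨c', p + sSup T • v, hc', ?_, ?_⟩
  · rintro rfl
    have hev : ∀ᶠ r in nhds (sSup T), ∀ i, |⟪a i, p + r • v⟫| ≤ 1 := by
      rw [Filter.eventually_all]
      intro i
      by_cases hi : c' i = 0
      · have h1 : |⟪a i, p + sSup T • v⟫| < 1 := (hc' i).1 hi
        have h2 : ∀ᶠ r in nhds (sSup T), |⟪a i, p + r • v⟫| < 1 :=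
          ((hcont i).abs.tendsto (sSup T)).eventually (gt_mem_nhds h1)
        exact h2.mono fun r hr => hr.le
      · refine Filter.Eventually.of_forall fun r => ?_
        rw [inner_add_right, inner_smul_right, hvi i hi, mul_zero, add_zero]
        exact Q4_pol hp i
    rw [Metric.eventually_nhds_iff] at hev
    obtain ⟨ε, hε, hev⟩ := hev
    have h1 : sSup T + ε / 2 ∈ T := by
      refine ⟨by linarith [hm.1], hev ?_⟩
      rw [Real.dist_eq, add_sub_cancel_left, abs_of_pos (by linarith)]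
      linarith
    have h2 := le_csSup hTb h1
    linarith
  · intro i hi
    rw [inner_add_right, inner_smul_right, hvi i hi, mul_zero, add_zero]
    exact (hp i).2 hi

theorem pol_eq (H : Hyp a g)
    (hb : Bornology.IsBounded (Pol a)) (hd : 2 ≤ d)
    (hin : ∀ (j : β) (s : SignType), s ≠ 0 → (Inside a g j s).card ≤ 1) (x : E d)
    (hx : ∀ i, (∃ t ∈ Cells (Sum.elim a g), t (Sum.inl i) = 1) → |⟪a i, x⟫| ≤ 1) :
    x ∈ Pol a := by
  by_contra hxP
  obtain ⟨i1, hi1⟩ : ∃ i, 1 < |⟪a i, x⟫| := by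
    by_contra hcon
    push Not at hcon
    exact hxP hcon
  let L : α → Prop := fun i => ∃ t ∈ Cells (Sum.elim a g), t (Sum.inl i) = 1
  let NL : Finset α := Finset.univ.filter (fun i => ¬ L i)
  have hmemNL : ∀ i, i ∈ NL ↔ ¬ L i := by
    intro i
    simp only [NL, Finset.mem_filter, Finset.mem_univ, true_and]
  have hi1L : i1 ∈ NL := by
    rw [hmemNL]
    intro h
    exact absurd (hx i1 h) (not_le.mpr hi1)
  have hne : NL.Nonempty := ⟨i1, hi1L⟩
  let M : E d → ℝ := fun w => NL.sup' hne (fun i => |⟪a i, w⟫|)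
  have hMle : ∀ w, ∀ i ∈ NL, |⟪a i, w⟫| ≤ M w := fun w i hi =>
    Finset.le_sup' (fun i => |⟪a i, w⟫|) hi
  have hMex : ∀ w, ∃ i ∈ NL, M w = |⟪a i, w⟫| := fun w =>
    Finset.exists_mem_eq_sup' hne (fun i => |⟪a i, w⟫|)
  -- normalisation
  have norm : ∀ w, 0 < M w → (∀ i, L i → |⟪a i, w⟫| < M w) →
      (M w)⁻¹ • w ∈ Pol a ∧ (∀ i, L i → |⟪a i, (M w)⁻¹ • w⟫| < 1) ∧
        ∃ i ∈ NL, |⟪a i, (M w)⁻¹ • w⟫| = 1 := by
    intro w hM hL
    have hval : ∀ i, |⟪a i, (M w)⁻¹ • w⟫| = |⟪a i, w⟫| / M w := by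
      intro i
      rw [inner_smul_right, abs_mul, abs_of_pos (inv_pos.mpr hM), div_eq_inv_mul]
    have hlt : ∀ i, L i → |⟪a i, (M w)⁻¹ • w⟫| < 1 := by
      intro i hi
      rw [hval, div_lt_one hM]
      exact hL i hi
    refine ⟨?_, hlt, ?_⟩
    · intro i
      by_cases hi : L i
      · exact (hlt i hi).le
      · rw [hval, div_le_one hM]
        exact hMle w i ((hmemNL i).mpr hi)
    · obtain ⟨i, hi, hi'⟩ := hMex w
      exact ⟨i, hi, by rw [hval, ← hi', div_self hM.ne']⟩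
  have hMx : 1 < M x := lt_of_lt_of_le hi1 (hMle x i1 hi1L)
  obtain ⟨hz, hzL, i0, hi0, hzi0⟩ := norm x (by linarith) (fun i hi => lt_of_le_of_lt (hx i hi) hMx)
  generalize (M x)⁻¹ • x = z at hz hzL hzi0
  -- a direction
  obtain ⟨u, hu0, hu⟩ : ∃ u : E d, u ≠ 0 ∧ ⟪a i0, u⟫ = 0 := by
    by_contra hcon
    push Not at hcon
    have hinj : Function.Injective (innerSL ℝ (a i0) : E d →ₗ[ℝ] ℝ) := by
      rw [← LinearMap.ker_eq_bot, LinearMap.ker_eq_bot']
      intro m hm
      by_contra hm0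
      exact hcon m hm0 hm
    have h1 := LinearMap.finrank_le_finrank_of_injective hinj
    rw [finrank_euclideanSpace_fin, Module.finrank_self] at h1
    omega
  -- small perturbations
  have hev : ∀ᶠ r in nhds (0 : ℝ), ∀ i, L i → |⟪a i, z + r • u⟫| < 1 := by
    rw [Filter.eventually_all]
    intro i
    by_cases hi : L i
    · have hcont : Continuous (fun r : ℝ => |⟪a i, z + r • u⟫|) := by
        fun_prop
      have h1 : |⟪a i, z + (0 : ℝ) • u⟫| < 1 := by
        rw [zero_smul, add_zero]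
        exact hzL i hi
      exact ((hcont.tendsto 0).eventually (gt_mem_nhds h1)).mono fun r hr _ => hr
    · exact Filter.Eventually.of_forall fun r h => absurd h hi
  rw [Metric.eventually_nhds_iff] at hev
  obtain ⟨ε, hε, hev⟩ := hev
  let t : ℕ → ℝ := fun n => ε / (n + 2)
  have ht : ∀ n, ∀ i, L i → |⟪a i, z + t n • u⟫| < 1 := by
    intro n
    apply hev
    rw [dist_zero_right, Real.norm_eq_abs, abs_of_pos (by positivity)]
    exact div_lt_self hε (by have : (0 : ℝ) ≤ n := Nat.cast_nonneg n; linarith)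
  have htinj : ∀ n m, t n = t m → n = m := by
    intro n m h
    simp only [t] at h
    have hn : (0 : ℝ) < n + 2 := by positivity
    have hm : (0 : ℝ) < m + 2 := by positivity
    rw [div_eq_div_iff hn.ne' hm.ne'] at h
    have h2 := mul_left_cancel₀ hε.ne' h
    have h3 : (n : ℝ) = m := by linarith
    exact_mod_cast h3
  have hi0val : ∀ n, ⟪a i0, z + t n • u⟫ = ⟪a i0, z⟫ := by
    intro n
    rw [inner_add_right, inner_smul_right, hu, mul_zero, add_zero]
  have hM1 : ∀ n, 1 ≤ M (z + t n • u) := by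
    intro n
    have := hMle (z + t n • u) i0 hi0
    rwa [hi0val, hzi0] at this
  have hy := fun n => norm (z + t n • u) (by linarith [hM1 n])
    (fun i hi => lt_of_lt_of_le (ht n i hi) (hM1 n))
  choose c hc using fun n => Q4_cell (hy n).1
  obtain ⟨n, m, hnm, hcnm⟩ := Finite.exists_ne_map_eq_of_infinite c
  have hpq : (M (z + t n • u))⁻¹ • (z + t n • u) ≠ (M (z + t m • u))⁻¹ • (z + t m • u) := by
    intro h
    have h1 := congrArg (fun w => ⟪a i0, w⟫) h
    simp only [inner_smul_right, hi0val] at h1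
    have hz0 : ⟪a i0, z⟫ ≠ 0 := by
      intro h0
      rw [h0, abs_zero] at hzi0
      exact zero_ne_one hzi0
    have h2 : (M (z + t n • u))⁻¹ = (M (z + t m • u))⁻¹ := mul_right_cancel₀ hz0 h1
    rw [h2] at h
    have h3 : (M (z + t m • u))⁻¹ ≠ 0 := inv_ne_zero (by linarith [hM1 m])
    have h4 := smul_right_injective (E d) h3 h
    have h5 : t n • u = t m • u := add_left_cancel h4
    have h6 : (t n - t m) • u = 0 := by rw [sub_smul, h5, sub_self]
    rcases smul_eq_zero.mp h6 with h7 | h7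
    · exact hnm (htinj n m (by linarith))
    · exact hu0 h7
  -- the cell of the two points
  obtain ⟨i, hiNL, hi⟩ := (hy n).2.2
  have hiL : ¬ L i := (hmemNL i).mp hiNL
  have hci : c n i ≠ 0 := by
    intro h0
    have := (hc n i).1 h0
    rw [hi] at this
    exact lt_irrefl _ this
  have hpi := (hc n i).2 hci
  obtain ⟨k, s, hs0, hs⟩ := Q4_out hiL (hy n).1 hci hpi
  obtain ⟨c', w, hw, hcc', hwi⟩ := Q4_face hb (hc n) (by rw [hcnm]; exact hc m) hpq
  have hc'i : c' i = c n i := Q4_sgn hw hci (hwi i hci)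
  have hin1 : c n ∈ Inside a g k s := by
    rw [Inside, Finset.mem_filter, Q4_mem]
    exact ⟨⟨_, hc n⟩, fun y hy' => Q4_key H hiL (hy n).1 (Q4_pol hy') hci hpi
      ((hy' i).2 hci) hs.le⟩
  have hin2 : c' ∈ Inside a g k s := by
    rw [Inside, Finset.mem_filter, Q4_mem]
    refine ⟨⟨_, hw⟩, fun y hy' => Q4_key H hiL (hy n).1 (Q4_pol hy') hci hpi
      ?_ hs.le⟩
    rw [(hy' i).2 (by rw [hc'i]; exact hci), hc'i]
  have hcard : 1 < (Inside a g k s).card := Finset.one_lt_card.mpr ⟨_, hin2, _, hin1, hcc'⟩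
  exact absurd (hin k s hs0) (not_le.mpr hcard)

end

end Pool.Agent.KST
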