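import Pool.Agent.KST.Defs

/-! Row T0: truncation, separation and faces outside the caps -/

set_option autoImplicit false

open scoped BigOperators RealInnerProductSpace

namespace Pool.Agent.KST

noncomputable section

open Classical

variable {d : ℕ}

theorem T0_mem {ι : Type} [Fintype ι] {b : ι → E d} {s : ι → SignType} :
    s ∈ Cells b ↔ ∃ x, IsCell b s x := by
  simp [Cells]

theorem T0_pol {ι : Type} [Fintype ι] {b : ι → E d} {s : ι → SignType} {x : E d}
    (hs : IsCell b s x) : x ∈ Pol b := by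
  intro l
  by_cases h : s l = 0
  · exact ((hs l).1 h).le
  · rw [(hs l).2 h]
    rcases hsl : s l with _ | _ | _
    · exact absurd hsl h
    · simp
    · simp

theorem T0_polL {α β : Type} {a : α → E d} {g : β → E d} {x : E d}
    (hx : x ∈ Pol (Sum.elim a g)) : x ∈ Pol a := fun i => hx (Sum.inl i)

theorem T0_sq {s : SignType} (hs : s ≠ 0) : ((s : SignType) : ℝ) * ((s : SignType) : ℝ) = 1 := by
  rcases s with _ | _ | _
  · exact absurd rfl hs
  · simp
  · simp

theorem T0_abs {s : SignType} (hs : s ≠ 0) : |((s : SignType) : ℝ)| = 1 := by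
  rcases s with _ | _ | _
  · exact absurd rfl hs
  · simp
  · simp

theorem T0_disj {α β : Type} [Fintype α] [Fintype β] {a : α → E d} {g : β → E d}
    (H : Hyp a g) {t : α ⊕ β → SignType} (ht : t ∈ Cells (Sum.elim a g)) {j k : β}
    (hj : t (Sum.inr j) ≠ 0) (hk : t (Sum.inr k) ≠ 0) : j = k := by
  obtain ⟨x, hx⟩ := T0_mem.1 ht
  have h1 : ⟪g j, x⟫ = ((t (Sum.inr j) : SignType) : ℝ) := (hx (Sum.inr j)).2 hj
  have h2 : ⟪g k, x⟫ = ((t (Sum.inr k) : SignType) : ℝ) := (hx (Sum.inr k)).2 hk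
  refine (H.disj x (T0_polL (T0_pol hx)) j k (t (Sum.inr j)) (t (Sum.inr k)) ?_ ?_).1
  · rw [h1, T0_sq hj]
  · rw [h2, T0_sq hk]

theorem hyp_sep {α β : Type} [Fintype α] [Fintype β] {a : α → E d} {g : β → E d} (H : Hyp a g) :
    Sep (Sum.elim a g) (Finset.univ.filter (fun l => ∃ j, l = Sum.inr j)) := by
  refine ⟨?_, ?_⟩
  · intro t ht j hj j' hj' h1 h2
    obtain ⟨j0, rfl⟩ := (Finset.mem_filter.1 hj).2
    obtain ⟨j1, rfl⟩ := (Finset.mem_filter.1 hj').2
    rw [T0_disj H ht h1 h2]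
  · intro j hj
    obtain ⟨j0, rfl⟩ := (Finset.mem_filter.1 hj).2
    have key : ∀ p : {p : (α ⊕ β) × SignType // p.2 ≠ 0 ∧
        (∃ t ∈ Cells (Sum.elim a g), t (Sum.inr j0) = 1 ∧ t p.1 = p.2) ∧
        ∃ t ∈ Cells (Sum.elim a g),
          (∃ j' ∈ Finset.univ.filter (fun l : α ⊕ β => ∃ j, l = Sum.inr j), t j' ≠ 0) ∧
          t (Sum.inr j0) ≠ 1 ∧ t p.1 = p.2},
        ∃ q : {p : α × SignType // p.2 ≠ 0 ∧
          (∃ x ∈ Pol a, 1 ≤ ⟪g j0, x⟫ ∧ ⟪a p.1, x⟫ = ((p.2 : SignType) : ℝ)) ∧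
          ∃ x ∈ Pol a, (∃ k, 1 ≤ |⟪g k, x⟫|) ∧ ⟪g j0, x⟫ < 1 ∧
            ⟪a p.1, x⟫ = ((p.2 : SignType) : ℝ)},
          p.1 = (Sum.inl q.1.1, q.1.2) := by
      rintro ⟨⟨l, σ⟩, hσ, ⟨t, ht, ht1, htl⟩, t', ht', ⟨j', hj', hj'0⟩, ht'1, ht'l⟩
      simp only at hσ htl ht'l
      rcases l with i | k
      · obtain ⟨x, hx⟩ := T0_mem.1 ht
        obtain ⟨x', hx'⟩ := T0_mem.1 ht'
        obtain ⟨k, rfl⟩ := (Finset.mem_filter.1 hj').2
        have a1 : ⟪g j0, x⟫ = ((t (Sum.inr j0) : SignType) : ℝ) :=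
          (hx (Sum.inr j0)).2 (by rw [ht1]; decide)
        have a2 : ⟪a i, x⟫ = ((t (Sum.inl i) : SignType) : ℝ) :=
          (hx (Sum.inl i)).2 (by rw [htl]; exact hσ)
        have a3 : ⟪g k, x'⟫ = ((t' (Sum.inr k) : SignType) : ℝ) := (hx' (Sum.inr k)).2 hj'0
        have a4 : ⟪a i, x'⟫ = ((t' (Sum.inl i) : SignType) : ℝ) :=
          (hx' (Sum.inl i)).2 (by rw [ht'l]; exact hσ)
        refine ⟨⟨(i, σ), hσ, ⟨x, T0_polL (T0_pol hx), ?_, ?_⟩,
          x', T0_polL (T0_pol hx'), ⟨k, ?_⟩, ?_, ?_⟩, rfl⟩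
        · rw [a1, ht1]; simp
        · rw [a2, htl]
        · rw [a3, T0_abs hj'0]
        · by_cases h0 : t' (Sum.inr j0) = 0
          · exact (abs_lt.1 ((hx' (Sum.inr j0)).1 h0)).2
          · have a5 : ⟪g j0, x'⟫ = ((t' (Sum.inr j0) : SignType) : ℝ) :=
              (hx' (Sum.inr j0)).2 h0
            rw [a5]
            rcases h5 : t' (Sum.inr j0) with _ | _ | _
            · exact absurd h5 h0
            · simp
            · exact absurd h5 ht'1
        · rw [a4, ht'l]
      · exfalso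
        have e1 : j0 = k := T0_disj H ht (by rw [ht1]; decide) (by rw [htl]; exact hσ)
        subst e1
        apply ht'1
        rw [ht'l, ← htl, ht1]
    choose f hf using key
    have hinj : Function.Injective f := by
      intro p q hpq
      apply Subtype.ext
      rw [hf p, hf q, hpq]
    have hli := (H.ind j0).comp f hinj
    convert hli using 1
    funext p
    have := hf p
    show Sum.elim a g p.1.1 = a (f p).1.1
    rw [this]
    rfl

theorem T0_neg {ι : Type} [Fintype ι] {b : ι → E d} {s : ι → SignType}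
    (hs : s ∈ Cells b) : -s ∈ Cells b := by
  obtain ⟨x, hx⟩ := T0_mem.1 hs
  refine T0_mem.2 ⟨-x, fun l => ⟨fun h => ?_, fun h => ?_⟩⟩
  · rw [inner_neg_right, abs_neg]
    refine (hx l).1 ?_
    have h' : -(s l) = 0 := h
    rcases h5 : s l with _ | _ | _
    · rfl
    · rw [h5] at h'; exact absurd h' (by decide)
    · rw [h5] at h'; exact absurd h' (by decide)
  · rw [inner_neg_right, (hx l).2 (fun h0 => h (by show -(s l) = 0; rw [h0]; rfl))]
    show -((s l : SignType) : ℝ) = ((-(s l) : SignType) : ℝ)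
    rcases s l with _ | _ | _ <;> simp

theorem T0_card_neg {α β : Type} [Fintype α] [Fintype β] {a : α → E d} {g : β → E d} (j : β) :
    ((Cells (Sum.elim a g)).filter (fun s => s (Sum.inr j) = -1)).card =
      ((Cells (Sum.elim a g)).filter (fun s => s (Sum.inr j) = 1)).card := by
  refine Finset.card_bij (fun s _ => -s) ?_ ?_ ?_
  · intro s hs
    rw [Finset.mem_filter] at hs ⊢
    refine ⟨T0_neg hs.1, ?_⟩
    show -(s (Sum.inr j)) = 1
    rw [hs.2]; decide
  · intro s _ t _ h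
    exact neg_injective h
  · intro s hs
    rw [Finset.mem_filter] at hs
    refine ⟨-s, ?_, neg_neg s⟩
    rw [Finset.mem_filter]
    refine ⟨T0_neg hs.1, ?_⟩
    show -(s (Sum.inr j)) = -1
    rw [hs.2]

theorem card_split {α β : Type} [Fintype α] [Fintype β] {a : α → E d} {g : β → E d}
    (H : Hyp a g) :
    ((Cells (Sum.elim a g)).filter (fun s => ∀ j : β, s (Sum.inr j) = 0)).card +
      2 * ∑ j : β, ((Cells (Sum.elim a g)).filter (fun s => s (Sum.inr j) = 1)).card =
      (Cells (Sum.elim a g)).card := by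
  have h1 : ∀ s ∈ Cells (Sum.elim a g), (1 : ℕ) =
      (if ∀ j : β, s (Sum.inr j) = 0 then 1 else 0) +
        ∑ j : β, ((if s (Sum.inr j) = 1 then 1 else 0) + (if s (Sum.inr j) = -1 then 1 else 0)) := by
    intro s hs
    by_cases h : ∀ j : β, s (Sum.inr j) = 0
    · rw [if_pos h, Finset.sum_eq_zero (fun j _ => by rw [h j]; decide), add_zero]
    · rw [if_neg h]
      push Not at h
      obtain ⟨j0, hj0⟩ := h
      rw [Finset.sum_eq_single j0]
      · rcases h5 : s (Sum.inr j0) with _ | _ | _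
        · exact absurd h5 hj0
        · decide
        · decide
      · intro j _ hj
        have : s (Sum.inr j) = 0 := by
          by_contra h0
          exact hj (T0_disj H hs h0 hj0)
        rw [this]
        decide
      · intro h; exact absurd (Finset.mem_univ _) h
  have h2 : (Cells (Sum.elim a g)).card = ∑ s ∈ Cells (Sum.elim a g), 1 := by simp
  rw [h2, Finset.sum_congr rfl h1, Finset.sum_add_distrib, ← Finset.card_filter,
    Finset.sum_comm, Finset.mul_sum]
  congr 1
  refine Finset.sum_congr rfl fun j _ => ?_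
  rw [Finset.sum_add_distrib, ← Finset.card_filter, ← Finset.card_filter, T0_card_neg]
  ring

end

end Pool.Agent.KST
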