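import Pool.Agent.KST.Defs

/-! Row T1: faces inside the caps -/

set_option autoImplicit false

open scoped BigOperators RealInnerProductSpace

namespace Pool.Agent.KST

noncomputable section

open Classical

variable {d : ℕ}

theorem t1_mem {ι : Type} [Fintype ι] {b : ι → E d} {s : ι → SignType} :
    s ∈ Cells b ↔ ∃ x, IsCell b s x := by
  simp [Cells]

theorem t1_pol {ι : Type} [Fintype ι] {b : ι → E d} {s : ι → SignType} {x : E d}
    (hs : IsCell b s x) : x ∈ Pol b := by
  intro l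
  by_cases h : s l = 0
  · exact ((hs l).1 h).le
  · rw [(hs l).2 h]
    rcases hsl : s l with _ | _ | _
    · exact absurd hsl h
    · simp
    · simp

theorem t1_cell {ι : Type} [Fintype ι] {b : ι → E d} {x : E d} (hx : x ∈ Pol b) :
    ∃ s, IsCell b s x := by
  refine ⟨fun l => if |⟪b l, x⟫| < 1 then 0 else SignType.sign ⟪b l, x⟫, ?_⟩
  intro l
  by_cases h : |⟪b l, x⟫| < 1
  · simp [h]
  · have h1 : |⟪b l, x⟫| = 1 := le_antisymm (hx l) (not_lt.1 h)
    have hne : ⟪b l, x⟫ ≠ 0 := by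
      intro h0
      rw [h0, abs_zero] at h1
      exact absurd h1 (by norm_num)
    simp only [h, if_false]
    refine ⟨fun h0 => absurd (sign_eq_zero_iff.1 h0) hne, fun _ => ?_⟩
    rcases eq_or_eq_neg_of_abs_eq h1 with h2 | h2
    · rw [h2]; simp
    · rw [h2]; simp

theorem t1_dual {ι : Type} [Fintype ι] {b : ι → E d} {v : ι → SignType}
    (hli : LinearIndependent ℝ (fun l : {l : ι // v l ≠ 0} => b l.1)) (l : ι) (hl : v l ≠ 0)
    (c : ℝ) : ∃ y : E d, ∀ k, v k ≠ 0 → ⟪b k, y⟫ = if k = l then c else 0 := by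
  obtain ⟨T, hT⟩ := LinearMap.exists_leftInverse_of_injective
    (Finsupp.linearCombination ℝ (fun l : {l : ι // v l ≠ 0} => b l.1)) (LinearMap.ker_eq_bot.2 hli)
  let φ : E d →ₗ[ℝ] ℝ := (Finsupp.lapply (⟨l, hl⟩ : {l : ι // v l ≠ 0})).comp T
  let ψ : E d →L[ℝ] ℝ := LinearMap.toContinuousLinearMap φ
  refine ⟨c • (InnerProductSpace.toDual ℝ (E d)).symm ψ, ?_⟩
  intro k hk
  rw [inner_smul_right, real_inner_comm, InnerProductSpace.toDual_symm_apply]
  have h1 : T (b k) = Finsupp.single (⟨k, hk⟩ : {l : ι // v l ≠ 0}) (1 : ℝ) := by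
    have := congrArg (fun f => f (Finsupp.single (⟨k, hk⟩ : {l : ι // v l ≠ 0}) (1 : ℝ))) hT
    simpa using this
  have h2 : ψ (b k) = if k = l then 1 else 0 := by
    change (T (b k)) (⟨l, hl⟩ : {l : ι // v l ≠ 0}) = _
    rw [h1, Finsupp.single_apply]
    simp only [Subtype.mk.injEq]
  rw [h2]
  split_ifs <;> simp

theorem t1_inside_disj {α β : Type} [Fintype α] [Fintype β] {a : α → E d} {g : β → E d}
    (H : Hyp a g) {j k : β} {s t : SignType} {c : α → SignType} (h1 : c ∈ Inside a g j s)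
    (h2 : c ∈ Inside a g k t) : j = k ∧ s = t := by
  rw [Inside, Finset.mem_filter] at h1 h2
  obtain ⟨x, hx⟩ := t1_mem.1 h1.1
  exact H.disj x (t1_pol hx) j k s t (h1.2 x hx).le (h2.2 x hx).le

theorem inside_card {α β : Type} [Fintype α] [Fintype β] {a : α → E d} {g : β → E d}
    (H : Hyp a g) :
    ((Cells (Sum.elim a g)).filter (fun s => ∀ j : β, s (Sum.inr j) = 0)).card +
      ∑ j : β, ((Inside a g j 1).card + (Inside a g j (-1)).card) ≤ (Cells a).card := by
  set A := (Cells (Sum.elim a g)).filter (fun s => ∀ j : β, s (Sum.inr j) = 0) with hA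
  have hinj : Set.InjOn (fun s : (α ⊕ β) → SignType => s ∘ Sum.inl) (A : Set ((α ⊕ β) → SignType)) := by
    intro s hs t ht hst
    rw [hA, Finset.coe_filter] at hs ht
    funext l
    rcases l with i | j
    · exact congrFun hst i
    · rw [hs.2 j, ht.2 j]
  rw [← Finset.card_image_of_injOn hinj]
  have h1 : ∀ j : β, (Inside a g j 1).card + (Inside a g j (-1)).card =
      (Inside a g j 1 ∪ Inside a g j (-1)).card := by
    intro j
    rw [Finset.card_union_of_disjoint]
    rw [Finset.disjoint_left]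
    intro c hc hc'
    have := (t1_inside_disj H hc hc').2
    exact absurd this (by decide)
  rw [Finset.sum_congr rfl (fun j _ => h1 j), ← Finset.card_biUnion, ← Finset.card_union_of_disjoint]
  · apply Finset.card_le_card
    intro c hc
    rw [Finset.mem_union] at hc
    rcases hc with hc | hc
    · rw [Finset.mem_image] at hc
      obtain ⟨s, hs, rfl⟩ := hc
      rw [hA, Finset.mem_filter] at hs
      obtain ⟨x, hx⟩ := t1_mem.1 hs.1
      exact t1_mem.2 ⟨x, fun i => hx (Sum.inl i)⟩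
    · rw [Finset.mem_biUnion] at hc
      obtain ⟨j, -, hc⟩ := hc
      rw [Finset.mem_union] at hc
      rcases hc with hc | hc
      · exact (Finset.mem_filter.1 hc).1
      · exact (Finset.mem_filter.1 hc).1
  · rw [Finset.disjoint_left]
    intro c hc hc'
    rw [Finset.mem_image] at hc
    obtain ⟨s, hs, rfl⟩ := hc
    rw [hA, Finset.mem_filter] at hs
    obtain ⟨x, hx⟩ := t1_mem.1 hs.1
    have hxa : IsCell a (s ∘ Sum.inl) x := fun i => hx (Sum.inl i)
    rw [Finset.mem_biUnion] at hc'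
    obtain ⟨j, -, hc'⟩ := hc'
    have hj : |⟪g j, x⟫| < 1 := (hx (Sum.inr j)).1 (hs.2 j)
    rw [abs_lt] at hj
    rw [Finset.mem_union] at hc'
    rcases hc' with hc' | hc'
    · have := (Finset.mem_filter.1 hc').2 x hxa
      simp only [SignType.coe_one, one_mul] at this
      linarith [hj.2]
    · have := (Finset.mem_filter.1 hc').2 x hxa
      simp only [SignType.coe_neg_one, neg_mul, one_mul] at this
      linarith [hj.1]
  · intro j _ k _ hjk
    refine Finset.disjoint_left.2 ?_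
    intro c hc hc'
    rw [Finset.mem_union] at hc hc'
    rcases hc with hc | hc <;> rcases hc' with hc' | hc' <;>
      exact hjk (t1_inside_disj H hc hc').1

/-- moving a little: `x + ε u` stays in the polytope if the tight constraints do not move -/
theorem t1_small {α : Type} [Fintype α] {a : α → E d} {c : α → SignType} {x u : E d}
    (hx : IsCell a c x) (hu : ∀ i, c i ≠ 0 → ⟪a i, u⟫ = 0) :
    ∃ ε : ℝ, 0 < ε ∧ x + ε • u ∈ Pol a := by
  have h : ∀ i, ∃ ε : ℝ, 0 < ε ∧ ∀ δ, 0 < δ → δ ≤ ε → |⟪a i, x + δ • u⟫| ≤ 1 := by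
    intro i
    by_cases hi : c i = 0
    · have h1 := (hx i).1 hi
      refine ⟨(1 - |⟪a i, x⟫|) / (|⟪a i, u⟫| + 1), by
        apply div_pos (by linarith) (by positivity), ?_⟩
      intro δ hδ hδ'
      rw [inner_add_right, inner_smul_right]
      have h2 : δ * |⟪a i, u⟫| ≤ 1 - |⟪a i, x⟫| := by
        rw [le_div_iff₀ (by positivity)] at hδ'
        nlinarith [abs_nonneg ⟪a i, u⟫]
      calc |⟪a i, x⟫ + δ * ⟪a i, u⟫| ≤ |⟪a i, x⟫| + |δ * ⟪a i, u⟫| := abs_add_le _ _
        _ = |⟪a i, x⟫| + δ * |⟪a i, u⟫| := by rw [abs_mul, abs_of_pos hδ]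
        _ ≤ 1 := by linarith
    · refine ⟨1, one_pos, ?_⟩
      intro δ hδ hδ'
      rw [inner_add_right, inner_smul_right, hu i hi, mul_zero, add_zero, (hx i).2 hi]
      rcases hci : c i with _ | _ | _
      · exact absurd hci hi
      · simp
      · simp
  choose ε hε hε' using h
  by_cases hne : Nonempty α
  · obtain ⟨i0, hi0⟩ := Finite.exists_min ε
    exact ⟨ε i0, hε i0, fun i => hε' i _ (hε i0) (hi0 i)⟩
  · refine ⟨1, one_pos, fun i => absurd ⟨i⟩ hne⟩

theorem inside_pos {α β : Type} [Fintype α] [Fintype β] {a : α → E d} {g : β → E d}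
    (H : Hyp a g) (hb : Bornology.IsBounded (Pol a)) (j : β) (s : SignType) (hs : s ≠ 0)
    (h : ∃ t ∈ Cells (Sum.elim a g), t (Sum.inr j) = s) : 1 ≤ (Inside a g j s).card := by
  obtain ⟨t, ht, htj⟩ := h
  obtain ⟨x0, hx0⟩ := t1_mem.1 ht
  have hss : ((s : SignType) : ℝ) * ((s : SignType) : ℝ) = 1 := by
    rcases s with _ | _ | _
    · exact absurd rfl hs
    · simp
    · simp
  have htj0 : t (Sum.inr j) ≠ 0 := by rw [htj]; exact hs
  obtain ⟨u, hdv⟩ := t1_dual (H.simple t ht) (Sum.inr j) htj0 ((s : SignType) : ℝ)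
  have hxa : IsCell a (t ∘ Sum.inl) x0 := fun i => hx0 (Sum.inl i)
  obtain ⟨ε, hε, hmem⟩ := t1_small (a := a) (c := t ∘ Sum.inl) (x := x0) (u := u) hxa (by
    intro i hi
    have := hdv (Sum.inl i) hi
    simpa using this)
  have hgu : ⟪g j, u⟫ = ((s : SignType) : ℝ) := by
    have := hdv (Sum.inr j) htj0
    simpa [htj] using this
  have hgx : ⟪g j, x0⟫ = ((s : SignType) : ℝ) := by
    have := (hx0 (Sum.inr j)).2 htj0
    simpa [htj] using this
  -- the polytope is compact
  have hclosed : IsClosed (Pol a) := by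
    have : Pol a = ⋂ i, {x | |⟪a i, x⟫| ≤ 1} := by
      ext x; simp [Pol]
    rw [this]
    exact isClosed_iInter fun i => isClosed_le (by fun_prop) continuous_const
  have hcomp : IsCompact (Pol a) := Metric.isCompact_of_isClosed_isBounded hclosed hb
  obtain ⟨xm, hxm, hmax⟩ := hcomp.exists_isMaxOn ⟨_, hmem⟩
    (f := fun x => ((s : SignType) : ℝ) * ⟪g j, x⟫) (by fun_prop)
  have hM : 1 < ((s : SignType) : ℝ) * ⟪g j, xm⟫ := by
    have h1 : ((s : SignType) : ℝ) * ⟪g j, x0 + ε • u⟫ ≤ ((s : SignType) : ℝ) * ⟪g j, xm⟫ :=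
      hmax hmem
    rw [inner_add_right, inner_smul_right, hgu, hgx] at h1
    have : ((s : SignType) : ℝ) * (((s : SignType) : ℝ) + ε * ((s : SignType) : ℝ)) = 1 + ε := by
      linear_combination (1 + ε) * hss
    rw [this] at h1
    linarith
  obtain ⟨c, hc⟩ := t1_cell hxm
  apply Finset.card_pos.2
  refine ⟨c, Finset.mem_filter.2 ⟨t1_mem.2 ⟨xm, hc⟩, ?_⟩⟩
  intro y hy
  obtain ⟨δ, hδ, hz⟩ := t1_small (a := a) (c := c) (x := xm) (u := xm - y) hc (by
    intro i hi
    rw [inner_sub_right, (hc i).2 hi, (hy i).2 hi, sub_self])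
  have h1 : ((s : SignType) : ℝ) * ⟪g j, xm + δ • (xm - y)⟫ ≤ ((s : SignType) : ℝ) * ⟪g j, xm⟫ :=
    hmax hz
  rw [inner_add_right, inner_smul_right, inner_sub_right] at h1
  have h2 : δ * (((s : SignType) : ℝ) * ⟪g j, xm⟫ - ((s : SignType) : ℝ) * ⟪g j, y⟫) ≤ 0 := by
    nlinarith [h1]
  have h3 : ((s : SignType) : ℝ) * ⟪g j, xm⟫ - ((s : SignType) : ℝ) * ⟪g j, y⟫ ≤ 0 := by
    by_contra hcon
    push Not at hcon
    have := mul_pos hδ hcon
    linarith
  linarith

end

end Pool.Agent.KST
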