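import Pool.Agent.KST.Defs
import Pool.Agent.KST.G0
import Pool.Agent.KST.M1
import Pool.Agent.KST.T0
import Pool.Agent.KST.T1

/-! ROW T2 (the theorem for cells, and what equality gives) -/

set_option autoImplicit false

open scoped BigOperators RealInnerProductSpace

namespace Pool.Agent.KST

noncomputable section

open Classical

variable {d : ℕ}

/-- the index set of the cuts -/
private theorem T2_filter_inr (α β : Type) [Fintype α] [Fintype β] :
    (Finset.univ.filter (fun l : α ⊕ β => ∃ j, l = Sum.inr j)) =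
      Finset.univ.map Function.Embedding.inr := by
  ext l
  simp only [Finset.mem_filter, Finset.mem_univ, true_and, Finset.mem_map,
    Function.Embedding.inr_apply]
  constructor
  · rintro ⟨j, rfl⟩; exact ⟨j, rfl⟩
  · rintro ⟨j, rfl⟩; exact ⟨j, rfl⟩

private theorem T2_sum_inr {α β : Type} [Fintype α] [Fintype β] (f : α ⊕ β → ℕ) :
    ∑ l ∈ Finset.univ.filter (fun l : α ⊕ β => ∃ j, l = Sum.inr j), f l =
      ∑ j : β, f (Sum.inr j) := by
  rw [T2_filter_inr, Finset.sum_map]
  rfl

private theorem T2_card_inr {α β : Type} [Fintype α] [Fintype β] (p : α ⊕ β → Prop)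
    [DecidablePred p] :
    ((Finset.univ.filter (fun l : α ⊕ β => ∃ j, l = Sum.inr j)).filter p).card =
      ∑ j : β, (if p (Sum.inr j) then 1 else 0) := by
  rw [Finset.card_filter, T2_sum_inr]

private theorem T2_pol_sub {α β : Type} [Fintype α] [Fintype β] (a : α → E d) (g : β → E d) :
    Pol (Sum.elim a g) ⊆ Pol a := fun _ hx i => hx (Sum.inl i)

/-- the basic T2_numbers -/
private theorem T2_numbers {α β : Type} [Fintype α] [Fintype β] {a : α → E d} {g : β → E d}
    (H : Hyp a g) (hb : Bornology.IsBounded (Pol a)) :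
    (3 ^ d + 2 * ∑ j : β, ((Cells (Sum.elim a g)).filter (fun s => s (Sum.inr j) = 1)).card ≤
      (Cells (Sum.elim a g)).card +
        2 * ∑ j : β, (if ∃ t ∈ Cells (Sum.elim a g), t (Sum.inr j) = 1 then 1 else 0)) ∧
    (∀ j : β, 2 * (if ∃ t ∈ Cells (Sum.elim a g), t (Sum.inr j) = 1 then 1 else 0) ≤
      (Inside a g j 1).card + (Inside a g j (-1)).card) ∧
    (∀ j : β, (∃ t ∈ Cells (Sum.elim a g), t (Sum.inr j) = 1) →
      1 ≤ (Inside a g j 1).card ∧ 1 ≤ (Inside a g j (-1)).card) := by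
  have hpos : ∀ j : β, (∃ t ∈ Cells (Sum.elim a g), t (Sum.inr j) = 1) →
      1 ≤ (Inside a g j 1).card ∧ 1 ≤ (Inside a g j (-1)).card := by
    rintro j ⟨t, ht, htj⟩
    refine ⟨inside_pos H hb j 1 (by decide) ⟨t, ht, htj⟩,
      inside_pos H hb j (-1) (by decide) ⟨-t, neg_mem_cells ht, ?_⟩⟩
    rw [Pi.neg_apply, htj]
  refine ⟨?_, fun j => ?_, hpos⟩
  · have h := main H.simple (hb.subset (T2_pol_sub a g)) (hyp_sep H)
    rw [T2_sum_inr, T2_card_inr] at h
    exact h
  · by_cases hj : ∃ t ∈ Cells (Sum.elim a g), t (Sum.inr j) = 1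
    · rw [if_pos hj]
      have := hpos j hj
      omega
    · rw [if_neg hj]
      omega

theorem kalai_cells {α β : Type} [Fintype α] [Fintype β] {a : α → E d} {g : β → E d}
    (H : Hyp a g) (hb : Bornology.IsBounded (Pol a)) : 3 ^ d ≤ (Cells a).card := by
  obtain ⟨h1, h2, -⟩ := T2_numbers H hb
  have h3 := card_split H
  have h4 := inside_card H
  have h5 : 2 * ∑ j : β, (if ∃ t ∈ Cells (Sum.elim a g), t (Sum.inr j) = 1 then 1 else 0) ≤
      ∑ j : β, ((Inside a g j 1).card + (Inside a g j (-1)).card) := by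
    rw [Finset.mul_sum]
    exact Finset.sum_le_sum fun j _ => h2 j
  omega

theorem eq_main {α β : Type} [Fintype α] [Fintype β] {a : α → E d} {g : β → E d}
    (H : Hyp a g) (hb : Bornology.IsBounded (Pol a)) (heq : (Cells a).card ≤ 3 ^ d) :
    (Cells (Sum.elim a g)).card + 2 * ((Finset.univ.filter
      (fun l => ∃ j : β, l = Sum.inr j)).filter
        (fun l => ∃ t ∈ Cells (Sum.elim a g), t l = 1)).card ≤
      3 ^ d + 2 * ∑ l ∈ Finset.univ.filter (fun l => ∃ j : β, l = Sum.inr j),
        ((Cells (Sum.elim a g)).filter (fun s => s l = 1)).card := by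
  obtain ⟨-, h2, -⟩ := T2_numbers H hb
  have h3 := card_split H
  have h4 := inside_card H
  have h5 : 2 * ∑ j : β, (if ∃ t ∈ Cells (Sum.elim a g), t (Sum.inr j) = 1 then 1 else 0) ≤
      ∑ j : β, ((Inside a g j 1).card + (Inside a g j (-1)).card) := by
    rw [Finset.mul_sum]
    exact Finset.sum_le_sum fun j _ => h2 j
  rw [T2_sum_inr, T2_card_inr]
  omega

theorem eq_inside {α β : Type} [Fintype α] [Fintype β] {a : α → E d} {g : β → E d}
    (H : Hyp a g) (hb : Bornology.IsBounded (Pol a)) (heq : (Cells a).card ≤ 3 ^ d) (j : β)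
    (s : SignType) (hs : s ≠ 0) : (Inside a g j s).card ≤ 1 := by
  obtain ⟨h1, h2, h6⟩ := T2_numbers H hb
  have h3 := card_split H
  have h4 := inside_card H
  have h5 : ∑ j : β, ((Inside a g j 1).card + (Inside a g j (-1)).card) ≤
      ∑ j : β, 2 * (if ∃ t ∈ Cells (Sum.elim a g), t (Sum.inr j) = 1 then 1 else 0) := by
    rw [← Finset.mul_sum]
    omega
  have h7 : ∀ j : β, (Inside a g j 1).card + (Inside a g j (-1)).card =
      2 * (if ∃ t ∈ Cells (Sum.elim a g), t (Sum.inr j) = 1 then 1 else 0) := by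
    have h8 := (Finset.sum_eq_sum_iff_of_le (s := Finset.univ) fun j _ => h2 j).1
      (le_antisymm (Finset.sum_le_sum fun j _ => h2 j) h5)
    exact fun j => (h8 j (Finset.mem_univ _)).symm
  have h9 := h7 j
  have h10 : (Inside a g j 1).card ≤ 1 ∧ (Inside a g j (-1)).card ≤ 1 := by
    by_cases hj : ∃ t ∈ Cells (Sum.elim a g), t (Sum.inr j) = 1
    · rw [if_pos hj] at h9
      have := h6 j hj
      omega
    · rw [if_neg hj] at h9
      omega
  rcases s with _ | _ | _
  · exact absurd rfl hs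
  · exact h10.2
  · exact h10.1

end

end Pool.Agent.KST
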