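import Pool.Agent.KST.T0
import Pool.Agent.KST.T2
import Pool.Agent.KST.Q3
import Pool.Agent.KST.Q4

/-! Row Q5: equality holds only for parallelepipeds -/

set_option autoImplicit false

open scoped BigOperators RealInnerProductSpace

namespace Pool.Agent.KST

noncomputable section

open Classical

variable {d : ℕ}

/-- a family of constraints whose common zero set is trivial spans -/
theorem q5_span {α : Type} (L : Finset α) (a : α → E d)
    (h : ∀ u : E d, (∀ i ∈ L, ⟪a i, u⟫ = 0) → u = 0) :
    ⊤ ≤ Submodule.span ℝ (Set.range (fun i : {i : α // i ∈ L} => a i.1)) := by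
  have h1 : (Submodule.span ℝ (Set.range (fun i : {i : α // i ∈ L} => a i.1)))ᗮ = ⊥ := by
    rw [Submodule.eq_bot_iff]
    intro u hu
    apply h u
    intro i hi
    exact (Submodule.mem_orthogonal _ _).1 hu _ (Submodule.subset_span ⟨⟨i, hi⟩, rfl⟩)
  rw [Submodule.orthogonal_eq_bot_iff.1 h1]

theorem q5_zero {α : Type} [Fintype α] {a : α → E d} (hb : Bornology.IsBounded (Pol a))
    {L : Finset α} (hL : ∀ x, (∀ i ∈ L, |⟪a i, x⟫| ≤ 1) → x ∈ Pol a) :
    ∀ u : E d, (∀ i ∈ L, ⟪a i, u⟫ = 0) → u = 0 := by
  intro u hu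
  by_contra hne
  obtain ⟨r, hr⟩ := hb.exists_norm_le
  have hn : 0 < ‖u‖ := norm_pos_iff.2 hne
  have h1 : ((|r| + 1) / ‖u‖) • u ∈ Pol a := by
    apply hL
    intro i hi
    rw [real_inner_smul_right, hu i hi, mul_zero, abs_zero]
    exact zero_le_one
  have h2 := hr _ h1
  rw [norm_smul, Real.norm_eq_abs, abs_of_nonneg (by positivity), div_mul_cancel₀ _ hn.ne'] at h2
  linarith [le_abs_self r]

theorem q5_card {ι α : Type} [Fintype ι] [Fintype α] (b : ι → E d) (f : α → ι)
    (hf : Function.Injective f) (J : Finset ι) (hJ : ∀ i, f i ∉ J) :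
    (Finset.univ.filter (fun i => ∃ t ∈ Cells b, t (f i) = 1)).card ≤
      (Finset.univ.filter (fun l => l ∉ J ∧ ∃ t ∈ Cells b, t l = 1)).card := by
  rw [← Finset.card_image_of_injective _ hf]
  apply Finset.card_le_card
  intro l hl
  rw [Finset.mem_image] at hl
  obtain ⟨i, hi, rfl⟩ := hl
  rw [Finset.mem_filter] at hi ⊢
  exact ⟨Finset.mem_univ _, hJ i, hi.2⟩

theorem q5_mem {ι : Type} [Fintype ι] {p : ι → Prop} [DecidablePred p] {l : ι}
    (h : l ∈ Finset.univ.filter p) : p l := (Finset.mem_filter.1 h).2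

theorem kalai_eq {α β : Type} [Fintype α] [Fintype β] {a : α → E d} {g : β → E d} (H : Hyp a g)
    (hb : Bornology.IsBounded (Pol a)) (heq : (Cells a).card ≤ 3 ^ d) :
    ∃ L : Finset α, L.card = d ∧ LinearIndependent ℝ (fun i : {i : α // i ∈ L} => a i.1) ∧
      Pol a = {x | ∀ i ∈ L, |⟪a i, x⟫| ≤ 1} := by
  -- it is enough to find few sufficient constraints
  suffices hmain : ∃ L : Finset α, L.card ≤ d ∧
      ∀ x, (∀ i ∈ L, |⟪a i, x⟫| ≤ 1) → x ∈ Pol a by
    obtain ⟨L, hLd, hL⟩ := hmain
    have hspan := q5_span L a (q5_zero hb hL)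
    have hfin : Module.finrank ℝ (E d) = d := finrank_euclideanSpace_fin
    have hcard : Fintype.card {i : α // i ∈ L} = L.card := by simp
    have hge : d ≤ L.card := by
      have h1 := finrank_range_le_card (R := ℝ) (fun i : {i : α // i ∈ L} => a i.1)
      rw [Set.finrank, top_le_iff.1 hspan, finrank_top, hfin, hcard] at h1
      exact h1
    have heqc : L.card = d := le_antisymm hLd hge
    refine ⟨L, heqc, ?_, ?_⟩
    · apply linearIndependent_of_top_le_span_of_card_eq_finrank hspan
      rw [hcard, heqc, hfin]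
    · ext x
      constructor
      · intro hx i _
        exact hx i
      · intro hx
        exact hL x hx
  rcases Nat.lt_or_ge d 2 with hd | hd
  · have hd' : d = 0 ∨ d = 1 := by omega
    rcases hd' with rfl | rfl
    · refine ⟨∅, by simp, ?_⟩
      intro x _ l
      rw [Subsingleton.elim x 0, inner_zero_right, abs_zero]
      exact zero_le_one
    · -- dimension one
      have hone : ∀ x y : E 1, ⟪x, y⟫ = x 0 * y 0 := by
        intro x y
        rw [PiLp.inner_apply, Fin.sum_univ_one]
        simp [mul_comm]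
      by_cases hα : Nonempty α
      · obtain ⟨i, -, hi⟩ := Finset.exists_max_image (Finset.univ : Finset α) (fun i => |a i 0|)
          ⟨hα.some, Finset.mem_univ _⟩
        refine ⟨{i}, by simp, ?_⟩
        intro x hx l
        have h1 := hx i (Finset.mem_singleton_self i)
        rw [hone, abs_mul] at h1 ⊢
        exact le_trans (mul_le_mul_of_nonneg_right (hi l (Finset.mem_univ _)) (abs_nonneg _)) h1
      · refine ⟨∅, by simp, ?_⟩
        intro x _ l
        exact absurd ⟨l⟩ hα
  · refine ⟨Finset.univ.filter (fun i => ∃ t ∈ Cells (Sum.elim a g), t (Sum.inl i) = 1), ?_, ?_⟩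
    · have hbd : Bornology.IsBounded (Pol (Sum.elim a g)) := by
        apply hb.subset
        intro x hx i
        exact hx (Sum.inl i)
      have h1 := main_eq H.simple hbd (hyp_sep H) hd (eq_main H hb heq)
      refine le_trans (q5_card (Sum.elim a g) Sum.inl Sum.inl_injective _ ?_) h1
      intro i hi
      obtain ⟨j, hj⟩ := q5_mem hi
      exact absurd hj (by simp)
    · intro x hx
      apply pol_eq H hb hd (fun j s hs => eq_inside H hb heq j s hs) x
      intro i hi
      exact hx i (Finset.mem_filter.2 ⟨Finset.mem_univ _, hi⟩)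

end

end Pool.Agent.KST
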