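import Pool.Agent.KST.T2
import Pool.Agent.KST.Q5
import Pool.Agent.KST.N1
import Pool.Agent.K3E.Aff
import Pool.Agent.K3E.Plr
import Pool.Agent.KEQ.FV1
import Pool.Agent.KEQ.FV2

/-!
# Centrally symmetric polytopes whose non-simple part is sparse: the final translation
-/

set_option autoImplicit false

open scoped BigOperators RealInnerProductSpace

namespace Pool.Agent.KST

noncomputable section

open Classical

open Pool.Agent.K3E (TL TL_apply Fc Cube Cross Han)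

variable {d : ℕ}

/-- the vector of Euclidean space with the given coordinates -/
def up {ι : Type} (a : ι → Fin d → ℝ) : ι → E d := fun i => WithLp.toLp 2 (a i)

theorem inner_up {ι : Type} (a : ι → Fin d → ℝ) (i : ι) (x : E d) :
    ⟪up a i, x⟫ = a i ⬝ᵥ x.ofLp := by
  unfold up
  rw [EuclideanSpace.inner_eq_star_dotProduct]
  simp [dotProduct_comm]

/-- `SignType` and `ZMod 3` -/
def sz (c : SignType) : ZMod 3 := if c = 0 then 0 else if c = 1 then 1 else 2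

theorem sz_inj : Function.Injective sz := by
  decide

theorem sz_surj : Function.Surjective sz := by
  decide

theorem sz_zero (c : SignType) : sz c = 0 ↔ c = 0 := by
  revert c; decide

theorem sg_sz (c : SignType) : GRD.sg (sz c) = ((c : SignType) : ℝ) := by
  rcases c with _ | _ | _
  · show GRD.sg (sz 0) = ((0 : SignType) : ℝ)
    have : sz 0 = 0 := by decide
    rw [this, GRD.sg_zero]; simp
  · show GRD.sg (sz (-1)) = ((-1 : SignType) : ℝ)
    have : sz (-1) = 2 := by decide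
    rw [this, GRD.sg_two]; simp
  · show GRD.sg (sz 1) = ((1 : SignType) : ℝ)
    have : sz 1 = 1 := by decide
    rw [this, GRD.sg_one]; simp

theorem cells_card_NL {n : ℕ} (w : Fin n → Fin d → ℝ) :
    (Cells (up w)).card = GRD.NL (LinearMap.range (TL w)) := by
  unfold GRD.NL Cells
  refine Finset.card_bij (fun s _ => fun i => sz (s i)) ?_ ?_ ?_
  · intro s hs
    rw [Finset.mem_filter] at hs ⊢
    obtain ⟨x, hx⟩ := hs.2
    refine ⟨@Finset.mem_univ _ (_) _, TL w x.ofLp, ⟨x.ofLp, rfl⟩, fun i => ?_⟩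
    have h := hx i
    rw [inner_up] at h
    rw [TL_apply]
    refine ⟨fun h0 => h.1 ((sz_zero _).1 h0), fun h0 => ?_⟩
    rw [sg_sz]
    exact h.2 (fun h1 => h0 ((sz_zero _).2 h1))
  · intro s _ t _ h
    funext i
    exact sz_inj (congrFun h i)
  · intro s hs
    rw [Finset.mem_filter] at hs
    obtain ⟨-, y, ⟨x, rfl⟩, hx⟩ := hs
    choose f hf using sz_surj
    refine ⟨fun i => f (s i), ?_, ?_⟩
    · rw [Finset.mem_filter]
      refine ⟨@Finset.mem_univ _ (_) _, WithLp.toLp 2 x, fun i => ?_⟩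
      rw [inner_up]
      have h := hx i
      rw [TL_apply] at h
      have h1 : sz (f (s i)) = s i := hf _
      refine ⟨fun h0 => h.1 ?_, fun h0 => ?_⟩
      · rw [← h1, sz_zero]; exact h0
      · have h2 := h.2 (by rw [← h1]; exact fun h3 => h0 ((sz_zero _).1 h3))
        rw [← sg_sz, h1]
        exact h2
    · funext i
      exact hf _

theorem li_up {ι : Type} (p : ι → Prop) (a : ι → Fin d → ℝ) :
    LinearIndependent ℝ (fun k : {k : ι // p k} => up a k.1) ↔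
      LinearIndependent ℝ (fun k : {k : ι // p k} => a k.1) := by
  have h := LinearMap.linearIndependent_iff
    (v := fun k : {k : ι // p k} => a k.1)
    ((WithLp.linearEquiv 2 ℝ (Fin d → ℝ)).symm.toLinearMap)
    (LinearMap.ker_eq_bot.2 (WithLp.linearEquiv 2 ℝ (Fin d → ℝ)).symm.injective)
  exact h

theorem li_congr {ι : Type} {V : Type} [AddCommGroup V] [Module ℝ V] {p q : ι → Prop}
    (a : ι → V) (h : ∀ k, p k → q k)
    (hq : LinearIndependent ℝ (fun k : {k : ι // q k} => a k.1)) :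
    LinearIndependent ℝ (fun k : {k : ι // p k} => a k.1) := by
  have := hq.comp (fun k : {k : ι // p k} => (⟨k.1, h k.1 k.2⟩ : {k : ι // q k})) (by
    intro x y hxy
    exact Subtype.ext (congrArg (fun z : {k : ι // q k} => z.1) hxy))
  exact this

theorem up_elim {α β : Type} (a : α → Fin d → ℝ) (g : β → Fin d → ℝ) :
    Sum.elim (up a) (up g) = up (Sum.elim a g) := by
  funext k
  rcases k with k | k <;> rfl

/-- the polytope in coordinates -/
theorem mem_pol_up {ι : Type} [Fintype ι] (a : ι → Fin d → ℝ) (x : E d) :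
    x ∈ Pol (up a) ↔ ∀ i, |a i ⬝ᵥ x.ofLp| ≤ 1 := by
  unfold Pol
  constructor
  · intro h i
    have := h i
    rwa [inner_up] at this
  · intro h i
    rw [inner_up]
    exact h i

/-- hypotheses in coordinates: caps -/
def CapHyp {n r : ℕ} (a : Fin n → Fin d → ℝ) (g : Fin r → Fin d → ℝ) : Prop :=
  (∀ x : Fin d → ℝ, (∀ i, |a i ⬝ᵥ x| ≤ 1) → (∀ j, |g j ⬝ᵥ x| ≤ 1) →
    LinearIndependent ℝ (fun k : {k : Fin n ⊕ Fin r // |Sum.elim a g k ⬝ᵥ x| = 1} =>
      Sum.elim a g k.1)) ∧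
  (∀ x : Fin d → ℝ, (∀ i, |a i ⬝ᵥ x| ≤ 1) →
    ∀ j k, ∀ s t : ℝ, (s = 1 ∨ s = -1) → (t = 1 ∨ t = -1) →
      1 ≤ s * (g j ⬝ᵥ x) → 1 ≤ t * (g k ⬝ᵥ x) → j = k ∧ s = t) ∧
  (∀ j, LinearIndependent ℝ (fun p : {p : Fin n × ℝ // (p.2 = 1 ∨ p.2 = -1) ∧
      (∃ x : Fin d → ℝ, (∀ i, |a i ⬝ᵥ x| ≤ 1) ∧ 1 ≤ g j ⬝ᵥ x ∧ a p.1 ⬝ᵥ x = p.2) ∧
      (∃ x : Fin d → ℝ, (∀ i, |a i ⬝ᵥ x| ≤ 1) ∧ (∃ k, 1 ≤ |g k ⬝ᵥ x|) ∧ g j ⬝ᵥ x < 1 ∧
        a p.1 ⬝ᵥ x = p.2)} => a p.1.1))

/-- hypotheses in coordinates: non-simple points -/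
def NatHyp {n : ℕ} (a : Fin n → Fin d → ℝ) : Prop :=
  ∀ x : Fin d → ℝ, (∀ i, |a i ⬝ᵥ x| ≤ 1) →
    ¬ LinearIndependent ℝ (fun i : {i : Fin n // |a i ⬝ᵥ x| = 1} => a i.1) →
    LinearIndependent ℝ (fun i : {i : Fin n // |a i ⬝ᵥ x| = 1 ∧
      ∃ y : Fin d → ℝ, (∀ i, |a i ⬝ᵥ y| ≤ 1) ∧ y ≠ x ∧
        ¬ LinearIndependent ℝ (fun k : {k : Fin n // |a k ⬝ᵥ y| = 1} => a k.1) ∧
        a i ⬝ᵥ y = a i ⬝ᵥ x} => a i.1)

theorem sign_cases (s : SignType) {z : ℝ} (h : 1 ≤ ((s : SignType) : ℝ) * z) :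
    ((s : SignType) : ℝ) = 1 ∨ ((s : SignType) : ℝ) = -1 := by
  rcases s with _ | _ | _
  · exfalso
    have h2 : ((SignType.zero : SignType) : ℝ) = 0 := rfl
    rw [h2] at h
    norm_num at h
  · right; rfl
  · left; rfl

theorem sign_inj {s t : SignType} (h : ((s : SignType) : ℝ) = ((t : SignType) : ℝ)) : s = t := by
  rcases s with _ | _ | _ <;> rcases t with _ | _ | _ <;> first | rfl | (exfalso; revert h)
  · show ¬ ((0 : ℝ) = -1); norm_num
  · show ¬ ((0 : ℝ) = 1); norm_num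
  · show ¬ ((-1 : ℝ) = 0); norm_num
  · show ¬ ((-1 : ℝ) = 1); norm_num
  · show ¬ ((1 : ℝ) = 0); norm_num
  · show ¬ ((1 : ℝ) = -1); norm_num

theorem hyp_of_cap {n r : ℕ} {a : Fin n → Fin d → ℝ} {g : Fin r → Fin d → ℝ}
    (h : CapHyp a g) : Hyp (up a) (up g) := by
  refine ⟨?_, ?_, ?_⟩
  · intro s hs
    rw [up_elim] at hs ⊢
    unfold Cells at hs
    rw [Finset.mem_filter] at hs
    obtain ⟨-, x, hx⟩ := hs
    rw [li_up]
    have hle : ∀ k, |Sum.elim a g k ⬝ᵥ x.ofLp| ≤ 1 := by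
      intro k
      have h1 := hx k
      rw [inner_up] at h1
      by_cases h0 : s k = 0
      · exact (h1.1 h0).le
      · rw [h1.2 h0]
        rcases s k with _ | _ | _
        · show |(0 : ℝ)| ≤ 1; norm_num
        · show |(-1 : ℝ)| ≤ 1; norm_num
        · show |(1 : ℝ)| ≤ 1; norm_num
    refine li_congr _ ?_ (h.1 x.ofLp (fun i => hle (Sum.inl i)) (fun j => hle (Sum.inr j)))
    intro k hk
    have h1 := (hx k).2 hk
    rw [inner_up] at h1
    rw [h1]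
    revert hk
    rcases s k with _ | _ | _
    · intro hk; exact absurd rfl hk
    · intro _; show |(-1 : ℝ)| = 1; norm_num
    · intro _; show |(1 : ℝ)| = 1; norm_num
  · intro x hx j k s t hs ht
    rw [mem_pol_up] at hx
    simp only [inner_up] at hs ht
    obtain ⟨h1, h2⟩ := h.2.1 x.ofLp hx j k _ _ (sign_cases s hs) (sign_cases t ht) hs ht
    exact ⟨h1, sign_inj h2⟩
  · intro j
    have h3 := h.2.2 j
    refine (li_up (fun p : Fin n × SignType => p.2 ≠ 0 ∧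
      (∃ x ∈ Pol (up a), 1 ≤ ⟪up g j, x⟫ ∧ ⟪up a p.1, x⟫ = ((p.2 : SignType) : ℝ)) ∧
      ∃ x ∈ Pol (up a), (∃ k, 1 ≤ |⟪up g k, x⟫|) ∧ ⟪up g j, x⟫ < 1 ∧
        ⟪up a p.1, x⟫ = ((p.2 : SignType) : ℝ)) (fun p : Fin n × SignType => a p.1)).2 ?_
    refine h3.comp (fun p : {p : Fin n × SignType // p.2 ≠ 0 ∧
      (∃ x ∈ Pol (up a), 1 ≤ ⟪up g j, x⟫ ∧ ⟪up a p.1, x⟫ = ((p.2 : SignType) : ℝ)) ∧
      ∃ x ∈ Pol (up a), (∃ k, 1 ≤ |⟪up g k, x⟫|) ∧ ⟪up g j, x⟫ < 1 ∧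
        ⟪up a p.1, x⟫ = ((p.2 : SignType) : ℝ)} =>
          ⟨(p.1.1, ((p.1.2 : SignType) : ℝ)), ?_, ?_, ?_⟩) ?_
    · have h4 := p.2.1
      revert h4
      rcases p.1.2 with _ | _ | _
      · intro h4; exact absurd rfl h4
      · intro _; right; rfl
      · intro _; left; rfl
    · obtain ⟨x, hx, h5, h6⟩ := p.2.2.1
      rw [mem_pol_up] at hx
      rw [inner_up] at h5 h6
      exact ⟨x.ofLp, hx, h5, h6⟩
    · obtain ⟨x, hx, ⟨k, h4⟩, h5, h6⟩ := p.2.2.2
      rw [mem_pol_up] at hx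
      rw [inner_up] at h4 h5 h6
      exact ⟨x.ofLp, hx, ⟨k, h4⟩, h5, h6⟩
    · intro p q hpq
      have h7 := congrArg (fun z => z.1) hpq
      simp only [Prod.mk.injEq] at h7
      exact Subtype.ext (Prod.ext h7.1 (sign_inj h7.2))

theorem bdd_up {n : ℕ} (a : Fin n → Fin d → ℝ) (hinj : ∀ z, (∀ i, a i ⬝ᵥ z = 0) → z = 0) :
    Bornology.IsBounded (Pol (up a)) := by
  set f : E d →ₗ[ℝ] (Fin n → ℝ) := (TL a).comp (WithLp.linearEquiv 2 ℝ (Fin d → ℝ)).toLinearMap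
    with hf
  have hfa : ∀ x i, f x i = a i ⬝ᵥ x.ofLp := fun x i => TL_apply a x.ofLp i
  have hfi : Function.Injective f := by
    rw [← LinearMap.ker_eq_bot, LinearMap.ker_eq_bot']
    intro z hz
    have h1 : z.ofLp = 0 := hinj _ fun i => by rw [← hfa, hz]; rfl
    ext i
    rw [h1]; rfl
  obtain ⟨g, hg⟩ := LinearMap.exists_leftInverse_of_injective f (LinearMap.ker_eq_bot.2 hfi)
  have hcont : Continuous g := LinearMap.continuous_of_finiteDimensional g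
  have hb : Bornology.IsBounded (g '' (Metric.closedBall 0 1)) :=
    ((isCompact_closedBall (0 : Fin n → ℝ) 1).image hcont).isBounded
  refine hb.subset ?_
  intro x hx
  rw [mem_pol_up] at hx
  refine ⟨f x, ?_, ?_⟩
  · rw [mem_closedBall_zero_iff, pi_norm_le_iff_of_nonneg zero_le_one]
    intro i
    rw [hfa, Real.norm_eq_abs]
    exact hx i
  · have := LinearMap.congr_fun hg x
    exact this

theorem hyp_of_nat {n : ℕ} {a : Fin n → Fin d → ℝ} (hb : Bornology.IsBounded (Pol (up a)))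
    (h : NatHyp a) : ∃ (r : ℕ) (g : Fin r → E d), Hyp (up a) g := by
  refine nat_hyp (up a) hb ?_
  intro x hx h1
  have hx' := (mem_pol_up a x).1 hx
  have hli : ∀ z : E d,
      LinearIndependent ℝ (fun i : {i : Fin n // |⟪up a i, z⟫| = 1} => up a i.1) ↔
      LinearIndependent ℝ (fun i : {i : Fin n // |a i ⬝ᵥ z.ofLp| = 1} => a i.1) := by
    intro z
    rw [li_up]
    constructor
    · exact li_congr a (fun k hk => by rw [inner_up]; exact hk)
    · exact li_congr a (fun k hk => by rwa [inner_up] at hk)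
  have h2 := h x.ofLp hx' (fun h5 => h1 ((hli x).2 h5))
  rw [li_up (fun i : Fin n => |⟪up a i, x⟫| = 1 ∧ ∃ y ∈ Pol (up a), y ≠ x ∧
    ¬ LinearIndependent ℝ (fun k : {k : Fin n // |⟪up a k, y⟫| = 1} => up a k.1) ∧
    ⟪up a i, y⟫ = ⟪up a i, x⟫)]
  refine li_congr a (fun k hk => ?_) h2
  obtain ⟨h3, y, hy, hne, h4, h5⟩ := hk
  rw [inner_up] at h3
  rw [inner_up, inner_up] at h5
  refine ⟨h3, y.ofLp, (mem_pol_up a y).1 hy, ?_, fun h6 => h4 ((hli y).2 h6), h5⟩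
  intro h6
  apply hne
  ext i
  rw [h6]

/-- a bounded polytope given by `d` slabs is a linear image of the cube -/
theorem para_equiv {n : ℕ} (a : Fin n → Fin d → ℝ) (hb : Bornology.IsBounded (Pol (up a)))
    (L : Finset (Fin n)) (hL : L.card = d)
    (hP : Pol (up a) = {x | ∀ i ∈ L, |⟪up a i, x⟫| ≤ 1}) :
    ∃ L : (Fin d → ℝ) ≃ₗ[ℝ] (Fin d → ℝ), {x | ∀ i, |a i ⬝ᵥ x| ≤ 1} = {x | L x ∈ Cube d} := by
  have hK : ∀ x : Fin d → ℝ, (∀ i, |a i ⬝ᵥ x| ≤ 1) ↔ ∀ i ∈ L, |a i ⬝ᵥ x| ≤ 1 := by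
    intro x
    have h1 := mem_pol_up a (WithLp.toLp 2 x)
    rw [hP] at h1
    rw [← h1]
    constructor
    · intro h2 i hi
      have := h2 i hi
      rwa [inner_up] at this
    · intro h2 i hi
      have := h2 i hi
      rw [inner_up]
      exact this
  have e : Fin d ≃ {i : Fin n // i ∈ L} :=
    (Fintype.equivFinOfCardEq (by rw [Fintype.card_coe, hL])).symm
  obtain ⟨M, hM⟩ := Pool.Agent.K3E.exists_equiv (fun k => a (e k).1) (by
    intro z hz
    have hz' : ∀ i ∈ L, a i ⬝ᵥ z = 0 := by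
      intro i hi
      have := hz (e.symm ⟨i, hi⟩)
      rwa [Equiv.apply_symm_apply] at this
    by_contra hne
    have hmem : ∀ t : ℝ, (WithLp.toLp 2 (t • z) : E d) ∈ Pol (up a) := by
      intro t
      rw [mem_pol_up, hK]
      intro i hi
      show |a i ⬝ᵥ (t • z)| ≤ 1
      rw [dotProduct_smul, hz' i hi]; simp
    obtain ⟨R, hR⟩ := hb.subset_closedBall (0 : E d)
    have hz0 : (0 : ℝ) < ‖(WithLp.toLp 2 z : E d)‖ := by
      rw [norm_pos_iff]
      intro h0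
      apply hne
      have := congrArg WithLp.ofLp h0
      exact this
    have h1 := hR (hmem ((|R| + 1) / ‖(WithLp.toLp 2 z : E d)‖))
    rw [mem_closedBall_zero_iff, WithLp.toLp_smul, norm_smul, Real.norm_eq_abs,
      abs_of_pos (by positivity), div_mul_cancel₀ _ hz0.ne'] at h1
    linarith [le_abs_self R])
  refine ⟨M, ?_⟩
  ext x
  show (∀ i, |a i ⬝ᵥ x| ≤ 1) ↔ ∀ i, |M x i| ≤ 1
  rw [hK]
  constructor
  · intro h1 i
    rw [hM]
    exact h1 _ (e i).2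
  · intro h1 i hi
    have := h1 (e.symm ⟨i, hi⟩)
    rw [hM, Equiv.apply_symm_apply] at this
    exact this

/-- the number of cells, and the shape of the system in the case of equality -/
theorem cells_final {n : ℕ} (a : Fin n → Fin d → ℝ)
    (hinj : ∀ z, (∀ i, a i ⬝ᵥ z = 0) → z = 0)
    (h : NatHyp a ∨ ∃ (r : ℕ) (g : Fin r → Fin d → ℝ), CapHyp a g) :
    3 ^ d ≤ GRD.NL (LinearMap.range (TL a)) ∧
    (GRD.NL (LinearMap.range (TL a)) ≤ 3 ^ d →
      ∃ L : (Fin d → ℝ) ≃ₗ[ℝ] (Fin d → ℝ), {x | ∀ i, |a i ⬝ᵥ x| ≤ 1} = {x | L x ∈ Cube d}) := by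
  have hb := bdd_up a hinj
  have hH : ∃ (r : ℕ) (g : Fin r → E d), Hyp (up a) g := by
    rcases h with h | ⟨r, g, h⟩
    · exact hyp_of_nat hb h
    · exact ⟨r, up g, hyp_of_cap h⟩
  obtain ⟨r, g, H⟩ := hH
  rw [← cells_card_NL]
  refine ⟨kalai_cells H hb, fun heq => ?_⟩
  obtain ⟨L, hL, hLI, hP⟩ := kalai_eq H hb heq
  exact para_equiv a hb L hL hP

/-- from a linear description to the face lattices -/
theorem final_step {P : Set (Fin d → ℝ)} (L : (Fin d → ℝ) ≃ₗ[ℝ] (Fin d → ℝ))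
    (Q : Set (Fin d → ℝ)) (hL : P = {x | L x ∈ Q}) :
    (∃ (L : (Fin d → ℝ) ≃ₗ[ℝ] (Fin d → ℝ)), P = (fun x => L x) '' Q) ∧
      Nonempty ({F : Set (Fin d → ℝ) // IsExposed ℝ P F ∧ F.Nonempty} ≃o
        {G : Set (Fin d → ℝ) // IsExposed ℝ Q G ∧ G.Nonempty}) := by
  have h1 : P = K3E.aff L.symm 0 '' Q := by
    rw [hL]
    ext y
    constructor
    · intro hx
      exact ⟨L y, hx, by simp [K3E.aff]⟩
    · rintro ⟨q, hq, rfl⟩
      show L _ ∈ Q
      simpa [K3E.aff] using hq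
  refine ⟨⟨L.symm, ?_⟩, ?_⟩
  · rw [h1]
    congr 1
    funext x
    simp [K3E.aff]
  · subst h1
    exact ⟨K3E.fcIso L.symm 0 Q⟩

/-- the number of cells is at most the number of faces -/
theorem cells_le (hd : 1 ≤ d) {n : ℕ} (a : Fin n → Fin d → ℝ) {P : Set (Fin d → ℝ)}
    (hP : (P = {x | ∀ i, |a i ⬝ᵥ x| ≤ 1} ∧ Bornology.IsBounded P) ∨
      (P = convexHull ℝ (Set.range a ∪ Set.range (fun i => -a i)) ∧ (interior P).Nonempty)) :
    (GRD.NL (LinearMap.range (TL a)) : ℕ∞) ≤ (Fc P).encard := by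
  by_cases hfin : (Fc P).Finite
  · rw [← hfin.cast_ncard_eq]
    rcases hP with ⟨h3, h4⟩ | ⟨h3, h4⟩
    · exact_mod_cast KEQ.count_facet a h3 hfin
    · obtain ⟨k, rfl⟩ : ∃ k, n = k + 1 := by
        rcases n with _ | k
        · exfalso
          rw [h3] at h4
          have : (Set.range a ∪ Set.range (fun i => -a i)) = ∅ := by
            ext x
            simp
          rw [this, convexHull_empty] at h4
          simp at h4
        · exact ⟨k, rfl⟩
      exact_mod_cast KEQ.count_vertex a h3 hfin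
  · rw [Set.Infinite.encard_eq hfin]
    exact le_top

theorem inj_of {n : ℕ} (a : Fin n → Fin d → ℝ) {P : Set (Fin d → ℝ)}
    (hP : (P = {x | ∀ i, |a i ⬝ᵥ x| ≤ 1} ∧ Bornology.IsBounded P) ∨
      (P = convexHull ℝ (Set.range a ∪ Set.range (fun i => -a i)) ∧ (interior P).Nonempty)) :
    ∀ z, (∀ i, a i ⬝ᵥ z = 0) → z = 0 := by
  rcases hP with ⟨h1, h2⟩ | ⟨h1, h2⟩
  · exact fun z hz => K3E.inj_of_bounded a h1 h2 z hz
  · exact K3E.inj_of_interior a h1 h2

/-- from the shape of the system to the polytope -/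
theorem shape (hd : 1 ≤ d) {n : ℕ} (a : Fin n → Fin d → ℝ) {P : Set (Fin d → ℝ)}
    (hP : (P = {x | ∀ i, |a i ⬝ᵥ x| ≤ 1} ∧ Bornology.IsBounded P) ∨
      (P = convexHull ℝ (Set.range a ∪ Set.range (fun i => -a i)) ∧ (interior P).Nonempty))
    (hL : ∃ L : (Fin d → ℝ) ≃ₗ[ℝ] (Fin d → ℝ),
      {x | ∀ i, |a i ⬝ᵥ x| ≤ 1} = {x | L x ∈ Cube d}) :
    ∃ Q : Set (Fin d → ℝ), (Q = {x | ∀ i, |x i| ≤ 1} ∨ Q = {x | ∑ i, |x i| ≤ 1}) ∧
      Han d Q ∧
      (∃ (L : (Fin d → ℝ) ≃ₗ[ℝ] (Fin d → ℝ)), P = (fun x => L x) '' Q) ∧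
      Nonempty ({F : Set (Fin d → ℝ) // IsExposed ℝ P F ∧ F.Nonempty} ≃o
        {G : Set (Fin d → ℝ) // IsExposed ℝ Q G ∧ G.Nonempty}) := by
  obtain ⟨m, rfl⟩ : ∃ m, d = m + 1 := ⟨d - 1, by omega⟩
  have hcube : Han (m + 1) (Cube (m + 1)) := Pool.Agent.K3E.han_cube m
  have hcross : Han (m + 1) (Cross (m + 1)) := by
    rw [← Pool.Agent.K3E.pol_cube]
    exact hcube.pol
  obtain ⟨L, hL⟩ := hL
  rcases hP with ⟨h3, h4⟩ | ⟨h3, h4⟩
  · obtain ⟨h5, h6⟩ := final_step (P := P) L (Cube (m + 1)) (by rw [h3]; exact hL)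
    exact ⟨Cube (m + 1), Or.inl rfl, hcube, h5, h6⟩
  · obtain ⟨M, hM⟩ := K3E.pol_linear L (Cube (m + 1))
    have hcomp : IsCompact P := by
      rw [h3]
      exact Set.Finite.isCompact_convexHull ℝ ((Set.finite_range _).union (Set.finite_range _))
    have hconv : Convex ℝ P := by
      rw [h3]; exact convex_convexHull ℝ _
    have hsym : ∀ x ∈ P, -x ∈ P := by
      intro x hx
      have h5 : convexHull ℝ (-(Set.range a ∪ Set.range (fun i => -a i))) =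
          -convexHull ℝ (Set.range a ∪ Set.range (fun i => -a i)) := convexHull_neg _
      have h6 : -(Set.range a ∪ Set.range (fun i => -a i)) =
          Set.range a ∪ Set.range (fun i => -a i) := by
        ext y
        rw [Set.mem_neg]
        constructor
        · rintro (⟨i, hi⟩ | ⟨i, hi⟩)
          · right; exact ⟨i, by show -a i = y; rw [hi, neg_neg]⟩
          · left; exact ⟨i, by have : -a i = -y := hi; exact neg_injective this⟩
        · rintro (⟨i, rfl⟩ | ⟨i, rfl⟩)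
          · right; exact ⟨i, rfl⟩
          · left; exact ⟨i, by show a i = - -a i; rw [neg_neg]⟩
      rw [h6] at h5
      rw [h3, h5, Set.mem_neg, neg_neg, ← h3]
      exact hx
    have h0 : (0 : Fin (m + 1) → ℝ) ∈ P := by
      obtain ⟨x, hx⟩ := h4
      have hx' := interior_subset hx
      have := hconv hx' (hsym x hx') (a := 1 / 2) (b := 1 / 2) (by norm_num) (by norm_num)
        (by norm_num)
      simpa using this
    have hPM : P = {x | M x ∈ K3E.Pol (Cube (m + 1))} := by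
      rw [← hM, ← hL, ← K3E.pol_hull a h3, K3E.bipolar hconv hcomp.isClosed h0]
    rw [K3E.pol_cube] at hPM
    obtain ⟨h5, h6⟩ := final_step (P := P) M (Cross (m + 1)) hPM
    exact ⟨Cross (m + 1), Or.inr rfl, hcross, h5, h6⟩

theorem final (hd : 1 ≤ d) {n : ℕ} (a : Fin n → Fin d → ℝ)
    (h : NatHyp a ∨ ∃ (r : ℕ) (g : Fin r → Fin d → ℝ), CapHyp a g) {P : Set (Fin d → ℝ)}
    (hP : (P = {x | ∀ i, |a i ⬝ᵥ x| ≤ 1} ∧ Bornology.IsBounded P) ∨
      (P = convexHull ℝ (Set.range a ∪ Set.range (fun i => -a i)) ∧ (interior P).Nonempty)) :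
    (3 : ℕ∞) ^ d ≤ (Fc P).encard ∧
    ((Fc P).encard ≤ (3 : ℕ∞) ^ d →
      ∃ Q : Set (Fin d → ℝ), (Q = {x | ∀ i, |x i| ≤ 1} ∨ Q = {x | ∑ i, |x i| ≤ 1}) ∧
        Han d Q ∧
        (∃ (L : (Fin d → ℝ) ≃ₗ[ℝ] (Fin d → ℝ)), P = (fun x => L x) '' Q) ∧
        Nonempty ({F : Set (Fin d → ℝ) // IsExposed ℝ P F ∧ F.Nonempty} ≃o
          {G : Set (Fin d → ℝ) // IsExposed ℝ Q G ∧ G.Nonempty})) := by
  have hinj := inj_of a hP
  obtain ⟨h1, h2⟩ := cells_final a hinj h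
  have hle := cells_le hd a hP
  refine ⟨?_, fun heq => ?_⟩
  · refine le_trans ?_ hle
    exact_mod_cast h1
  · have h3 := hle.trans heq
    have h4 : GRD.NL (LinearMap.range (TL a)) ≤ 3 ^ d := by exact_mod_cast h3
    exact shape hd a hP (h2 h4)

end

end Pool.Agent.KST
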