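import Pool.Agent.KST.A0

/-! Row A1 of the KST project: chains of kernels. -/

set_option autoImplicit false

open scoped BigOperators RealInnerProductSpace

namespace Pool.Agent.KST

noncomputable section

open Classical

theorem A1_rank {F : Type} [AddCommGroup F] [Module ℝ F] (t : F →ₗ[ℝ] F)
    (A B : Submodule ℝ F) (hA : FiniteDimensional ℝ A) (hB : FiniteDimensional ℝ B)
    (h : ∀ f ∈ A, t f ∈ B) :
    Module.finrank ℝ A ≤ Module.finrank ℝ ↥(A ⊓ LinearMap.ker t) + Module.finrank ℝ B := by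
  have h1 := LinearMap.finrank_range_add_finrank_ker (t.domRestrict A)
  have h2 : Module.finrank ℝ (LinearMap.range (t.domRestrict A)) ≤ Module.finrank ℝ B := by
    apply Submodule.finrank_mono
    rintro _ ⟨x, rfl⟩
    exact h x.1 x.2
  have h3 : Module.finrank ℝ (LinearMap.ker (t.domRestrict A)) ≤
      Module.finrank ℝ ↥(A ⊓ LinearMap.ker t) := by
    have hfd : FiniteDimensional ℝ ↥(A ⊓ LinearMap.ker t) :=
      Submodule.finiteDimensional_inf_left A (LinearMap.ker t)
    let g : ↥(LinearMap.ker (t.domRestrict A)) →ₗ[ℝ] ↥(A ⊓ LinearMap.ker t) :=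
      { toFun := fun x => ⟨x.1.1, ⟨x.1.2, by
          have := x.2
          rw [LinearMap.mem_ker] at this
          exact this⟩⟩
        map_add' := fun x y => rfl
        map_smul' := fun c x => rfl }
    apply LinearMap.finrank_le_finrank_of_injective (f := g)
    intro x y hxy
    apply Subtype.ext
    apply Subtype.ext
    exact congrArg (fun z : ↥(A ⊓ LinearMap.ker t) => z.1) hxy
  omega

theorem A1_step {F : Type} [AddCommGroup F] [Module ℝ F] (t : F →ₗ[ℝ] F)
    (G : ℕ → Submodule ℝ F) (hfin : ∀ n, FiniteDimensional ℝ (G n))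
    (h0 : ∀ f ∈ G 0, t f = 0) (hs : ∀ n, ∀ f ∈ G (n + 1), t f ∈ G n) (n : ℕ) :
    Module.finrank ℝ (G n) ≤ S (fun k => Module.finrank ℝ ↥(G k ⊓ LinearMap.ker t)) n := by
  induction n with
  | zero =>
    rw [A0_S_zero]
    have : G 0 ⊓ LinearMap.ker t = G 0 := by
      apply inf_eq_left.mpr
      intro f hf
      exact h0 f hf
    rw [this]
  | succ n ih =>
    rw [A0_S_succ]
    have := A1_rank t (G (n + 1)) (G n) (hfin _) (hfin _) (hs n)
    omega

theorem chain {F : Type} [AddCommGroup F] [Module ℝ F] (m : ℕ) (T : Fin m → F →ₗ[ℝ] F)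
    (hc : ∀ i j, ∀ f, T i (T j f) = T j (T i f))
    (G : ℕ → Submodule ℝ F) (hfin : ∀ n, FiniteDimensional ℝ (G n))
    (h0 : ∀ k, ∀ f ∈ G 0, T k f = 0)
    (hs : ∀ k n, ∀ f ∈ G (n + 1), T k f ∈ G n) (n : ℕ) :
    Module.finrank ℝ (G n) ≤
      (S^[m] (fun k => Module.finrank ℝ ↥(G k ⊓ ⨅ i, LinearMap.ker (T i)))) n := by
  induction m generalizing G n with
  | zero =>
    have : (⨅ i : Fin 0, LinearMap.ker (T i)) = ⊤ := by
      rw [iInf_of_empty]
    show _ ≤ Module.finrank ℝ ↥(G n ⊓ ⨅ i, LinearMap.ker (T i))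
    rw [this, inf_top_eq]
  | succ m ih =>
    have hG' : ∀ k, G k ⊓ ⨅ i, LinearMap.ker (T i) =
        (G k ⊓ LinearMap.ker (T 0)) ⊓ ⨅ i : Fin m, LinearMap.ker (T i.succ) := by
      intro k
      ext f
      simp only [Submodule.mem_inf, Submodule.mem_iInf, LinearMap.mem_ker, Fin.forall_fin_succ]
      tauto
    have h1 := A1_step (T 0) G hfin (h0 0) (hs 0) n
    have h2 : ∀ k, Module.finrank ℝ ↥(G k ⊓ LinearMap.ker (T 0)) ≤
        (S^[m] (fun k => Module.finrank ℝ
          ↥((G k ⊓ LinearMap.ker (T 0)) ⊓ ⨅ i : Fin m, LinearMap.ker (T i.succ)))) k := by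
      intro k
      refine ih (fun i => T i.succ) (fun i j f => hc i.succ j.succ f)
        (fun k => G k ⊓ LinearMap.ker (T 0)) (fun n => ?_) ?_ ?_ k
      · have := hfin n
        exact Submodule.finiteDimensional_inf_left _ _
      · intro i f hf
        exact h0 i.succ f hf.1
      · intro i k f hf
        refine ⟨hs i.succ k f hf.1, ?_⟩
        have h3 : T 0 f = 0 := hf.2
        show T 0 (T i.succ f) = 0
        rw [hc, h3, map_zero]
    have hfun : (fun k => Module.finrank ℝ ↥(G k ⊓ ⨅ i, LinearMap.ker (T i))) =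
        fun k => Module.finrank ℝ
          ↥((G k ⊓ LinearMap.ker (T 0)) ⊓ ⨅ i : Fin m, LinearMap.ker (T i.succ)) := by
      funext k
      rw [hG' k]
    rw [Function.iterate_succ_apply', hfun]
    exact h1.trans (S_mono h2 n)

end

end Pool.Agent.KST
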