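import Pool.Agent.KST.Defs

/-!
# The shift operators
-/

set_option autoImplicit false

open scoped BigOperators RealInnerProductSpace

namespace Pool.Agent.KST

noncomputable section

open Classical

variable {ι : Type} [Fintype ι] {d : ℕ}

omit [Fintype ι] in
private theorem A2_up (e : ι → ℤ) (l : ι) :
    Function.update e l (e l + 1) = e + Pi.single l 1 := by
  funext k
  by_cases h : k = l
  · subst h; simp
  · simp [Function.update_of_ne h, h]

omit [Fintype ι] in
private theorem A2_down (e : ι → ℤ) (l : ι) :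
    Function.update e l (e l - 1) = e - Pi.single l 1 := by
  funext k
  by_cases h : k = l
  · subst h; simp
  · simp [Function.update_of_ne h, h]

omit [Fintype ι] in
private theorem A2_X_apply (l : ι) (f : Fn ι) (e : ι → ℤ) :
    X l f e = (if 0 ≤ e l then f (e + Pi.single l 1) else 0) -
      (if e l ≤ 0 then f (e - Pi.single l 1) else 0) := by
  rw [← A2_up, ← A2_down]
  rfl

theorem D_apply (b : ι → E d) (y : E d) (f : Fn ι) (e : ι → ℤ) :
    D b y f e = ∑ l, ⟪b l, y⟫ * X l f e := by
  simp [D, LinearMap.sum_apply, Finset.sum_apply]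

omit [Fintype ι] in
theorem X_comm (l k : ι) (f : Fn ι) : X l (X k f) = X k (X l f) := by
  by_cases h : l = k
  · subst h; rfl
  · funext e
    have h1 : (Pi.single k (1:ℤ) : ι → ℤ) l = 0 := by simp [h]
    have h2 : (Pi.single l (1:ℤ) : ι → ℤ) k = 0 := by simp [Ne.symm h]
    have e1 : e + Pi.single l (1:ℤ) + Pi.single k 1 = e + Pi.single k (1:ℤ) + Pi.single l 1 := by
      abel
    have e2 : e + Pi.single l (1:ℤ) - Pi.single k 1 = e - Pi.single k (1:ℤ) + Pi.single l 1 := by
      abel
    have e3 : e - Pi.single l (1:ℤ) + Pi.single k 1 = e + Pi.single k (1:ℤ) - Pi.single l 1 := by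
      abel
    have e4 : e - Pi.single l (1:ℤ) - Pi.single k 1 = e - Pi.single k (1:ℤ) - Pi.single l 1 := by
      abel
    simp only [A2_X_apply, Pi.add_apply, Pi.sub_apply, h1, h2, add_zero, sub_zero, e1, e2, e3, e4]
    split_ifs <;> ring

theorem D_comm (b : ι → E d) (y z : E d) (f : Fn ι) : D b y (D b z f) = D b z (D b y f) := by
  simp only [D, LinearMap.sum_apply, LinearMap.smul_apply, map_sum, map_smul, Finset.smul_sum]
  rw [Finset.sum_comm]
  refine Finset.sum_congr rfl fun k _ => Finset.sum_congr rfl fun l _ => ?_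
  rw [X_comm, smul_comm]

private theorem A2_expand (b : ι → E d) (y : E d) :
    D b y = ∑ i : Fin d, y i • D b (EuclideanSpace.single i (1 : ℝ)) := by
  simp only [D, Finset.smul_sum, smul_smul]
  rw [Finset.sum_comm]
  refine Finset.sum_congr rfl fun l _ => ?_
  rw [← Finset.sum_smul]
  congr 1
  simp only [EuclideanSpace.inner_single_right, map_one, one_mul, conj_trivial]
  rw [PiLp.inner_apply]
  refine Finset.sum_congr rfl fun i _ => ?_
  simp [mul_comm]

theorem mem_Ker (b : ι → E d) (f : Fn ι) : f ∈ Ker b ↔ ∀ y, D b y f = 0 := by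
  simp only [Ker, Submodule.mem_iInf, LinearMap.mem_ker]

theorem Ker_eq (b : ι → E d) :
    Ker b = ⨅ i : Fin d, LinearMap.ker (D b (EuclideanSpace.single i (1 : ℝ))) := by
  ext f
  rw [mem_Ker]
  simp only [Submodule.mem_iInf, LinearMap.mem_ker]
  constructor
  · intro h i
    exact h _
  · intro h y
    rw [A2_expand, LinearMap.sum_apply]
    refine Finset.sum_eq_zero fun i _ => ?_
    rw [LinearMap.smul_apply, h i, smul_zero]

private theorem A2_nm_add (e : ι → ℤ) (l : ι) (h : 0 ≤ e l) :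
    ∑ x, ((e + Pi.single l (1:ℤ) : ι → ℤ) x).natAbs = ∑ x, (e x).natAbs + 1 := by
  rw [← Finset.add_sum_erase _ _ (Finset.mem_univ l),
    ← Finset.add_sum_erase (a := l) _ _ (Finset.mem_univ l)]
  have h1 : ∑ x ∈ Finset.univ.erase l, ((e + Pi.single l (1:ℤ) : ι → ℤ) x).natAbs =
      ∑ x ∈ Finset.univ.erase l, (e x).natAbs := by
    refine Finset.sum_congr rfl fun x hx => ?_
    have : x ≠ l := Finset.ne_of_mem_erase hx
    simp [this]
  rw [h1]
  have : (e + Pi.single l (1:ℤ) : ι → ℤ) l = e l + 1 := by simp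
  rw [this]; omega

private theorem A2_nm_sub (e : ι → ℤ) (l : ι) (h : e l ≤ 0) :
    ∑ x, ((e - Pi.single l (1:ℤ) : ι → ℤ) x).natAbs = ∑ x, (e x).natAbs + 1 := by
  rw [← Finset.add_sum_erase _ _ (Finset.mem_univ l),
    ← Finset.add_sum_erase (a := l) _ _ (Finset.mem_univ l)]
  have h1 : ∑ x ∈ Finset.univ.erase l, ((e - Pi.single l (1:ℤ) : ι → ℤ) x).natAbs =
      ∑ x ∈ Finset.univ.erase l, (e x).natAbs := by
    refine Finset.sum_congr rfl fun x hx => ?_
    have : x ≠ l := Finset.ne_of_mem_erase hx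
    simp [this]
  rw [h1]
  have : (e - Pi.single l (1:ℤ) : ι → ℤ) l = e l - 1 := by simp
  rw [this]; omega

omit [Fintype ι] in
private theorem A2_res_add (e : ι → ℤ) (l : ι) (h : 0 ≤ e l) :
    Le (sgn e) (sgn (e + Pi.single l 1)) := by
  intro k hk
  by_cases hkl : k = l
  · subst hkl
    have h1 : 0 < e k := by
      rcases lt_or_eq_of_le h with h | h
      · exact h
      · exfalso; apply hk; simp [sgn, ← h]
    simp only [sgn, Pi.add_apply, Pi.single_eq_same]
    rw [sign_pos h1, sign_pos (by linarith)]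
  · simp [sgn, hkl]

omit [Fintype ι] in
private theorem A2_res_sub (e : ι → ℤ) (l : ι) (h : e l ≤ 0) :
    Le (sgn e) (sgn (e - Pi.single l 1)) := by
  intro k hk
  by_cases hkl : k = l
  · subst hkl
    have h1 : e k < 0 := by
      rcases lt_or_eq_of_le h with h | h
      · exact h
      · exfalso; apply hk; simp [sgn, h]
    simp only [sgn, Pi.sub_apply, Pi.single_eq_same]
    rw [sign_neg h1, sign_neg (by linarith)]
  · simp [sgn, hkl]

private theorem A2_mem_EE (C : Finset (ι → SignType)) (n : ℕ) (e : ι → ℤ) :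
    e ∈ EE C n ↔ (∑ l, (e l).natAbs = n) ∧ sgn e ∈ C := by
  unfold EE
  rw [Finset.mem_filter, Fintype.mem_piFinset]
  constructor
  · rintro ⟨_, h⟩
    exact h
  · intro h
    refine ⟨fun l => ?_, h⟩
    have : (e l).natAbs ≤ n := by
      rw [← h.1]
      exact Finset.single_le_sum (f := fun l => (e l).natAbs) (fun _ _ => Nat.zero_le _)
        (Finset.mem_univ l)
    rw [Finset.mem_Icc]
    omega

private theorem A2_X_mem {C : Finset (ι → SignType)} (hdown : ∀ s t, t ∈ C → Le s t → s ∈ C)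
    (l : ι) (n : ℕ) {f : Fn ι} (hf : f ∈ FF C (n + 1)) : X l f ∈ FF C n := by
  intro e he
  rw [A2_mem_EE] at he
  rw [A2_X_apply]
  have h1 : 0 ≤ e l → f (e + Pi.single l 1) = 0 := by
    intro h
    apply hf
    intro h2
    rw [A2_mem_EE] at h2
    apply he
    refine ⟨?_, hdown _ _ h2.2 (A2_res_add e l h)⟩
    have := h2.1
    rw [A2_nm_add e l h] at this
    omega
  have h2 : e l ≤ 0 → f (e - Pi.single l 1) = 0 := by
    intro h
    apply hf
    intro h2
    rw [A2_mem_EE] at h2
    apply he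
    refine ⟨?_, hdown _ _ h2.2 (A2_res_sub e l h)⟩
    have := h2.1
    rw [A2_nm_sub e l h] at this
    omega
  split_ifs with h3 h4 h4
  · rw [h1 h3, h2 h4, sub_zero]
  · rw [h1 h3, sub_zero]
  · rw [h2 h4, sub_zero]
  · rw [sub_zero]

private theorem A2_X_zero {C : Finset (ι → SignType)} (l : ι) {f : Fn ι} (hf : f ∈ FF C 0) :
    X l f = 0 := by
  funext e
  rw [A2_X_apply]
  have h1 : 0 ≤ e l → f (e + Pi.single l 1) = 0 := by
    intro h
    apply hf
    intro h2
    rw [A2_mem_EE] at h2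
    have := h2.1
    rw [A2_nm_add e l h] at this
    omega
  have h2 : e l ≤ 0 → f (e - Pi.single l 1) = 0 := by
    intro h
    apply hf
    intro h2
    rw [A2_mem_EE] at h2
    have := h2.1
    rw [A2_nm_sub e l h] at this
    omega
  show _ = (0:ℝ)
  split_ifs with h3 h4 h4
  · rw [h1 h3, h2 h4, sub_zero]
  · rw [h1 h3, sub_zero]
  · rw [h2 h4, sub_zero]
  · rw [sub_zero]

theorem D_FF {C : Finset (ι → SignType)} (hdown : ∀ s t, t ∈ C → Le s t → s ∈ C)
    (b : ι → E d) (y : E d) (n : ℕ) (f : Fn ι) (hf : f ∈ FF C (n + 1)) : D b y f ∈ FF C n := by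
  simp only [D, LinearMap.sum_apply, LinearMap.smul_apply]
  exact Submodule.sum_mem _ fun l _ => Submodule.smul_mem _ _ (A2_X_mem hdown l n hf)

theorem D_FF_zero (C : Finset (ι → SignType)) (b : ι → E d) (y : E d) (f : Fn ι)
    (hf : f ∈ FF C 0) : D b y f = 0 := by
  simp only [D, LinearMap.sum_apply, LinearMap.smul_apply]
  exact Finset.sum_eq_zero fun l _ => by rw [A2_X_zero l hf, smul_zero]

omit [Fintype ι] in
private theorem A2_X_par (l : ι) (c : ℝ) {f : Fn ι} (hf : f ∈ Par ι c) : X l f ∈ Par ι (-c) := by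
  intro e
  have hf' : ∀ e, f (-e) = c * f e := hf
  rw [A2_X_apply, A2_X_apply]
  have e1 : -e + Pi.single l (1:ℤ) = -(e - Pi.single l 1) := by abel
  have e2 : -e - Pi.single l (1:ℤ) = -(e + Pi.single l 1) := by abel
  rw [e1, e2, hf', hf']
  simp only [Pi.neg_apply, Left.nonneg_neg_iff, Left.neg_nonpos_iff]
  split_ifs <;> ring

theorem D_Par (b : ι → E d) (y : E d) (c : ℝ) (f : Fn ι) (hf : f ∈ Par ι c) :
    D b y f ∈ Par ι (-c) := by
  simp only [D, LinearMap.sum_apply, LinearMap.smul_apply]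
  exact Submodule.sum_mem _ fun l _ => Submodule.smul_mem _ _ (A2_X_par l c hf)

end

end Pool.Agent.KST
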