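import Pool.Agent.KST.A0

/-! # ROW A3: counting the integer vectors -/

set_option autoImplicit false

open scoped BigOperators RealInnerProductSpace

namespace Pool.Agent.KST

noncomputable section

open Classical

variable {ι : Type} [Fintype ι] {d : ℕ}

private theorem A3_delta (m i : ℕ) (n : ℕ) :
    (S^[m] (fun n => if n = i then 1 else 0)) n =
      if i ≤ n then Nat.multichoose m (n - i) else 0 := by
  induction m generalizing n with
  | zero =>
    simp only [Function.iterate_zero, id]
    by_cases h : n = i
    · subst h; simp
    · by_cases h2 : i ≤ n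
      · have : n - i = (n - i - 1) + 1 := by omega
        rw [if_neg h, if_pos h2, this]
        simp
      · rw [if_neg h, if_neg h2]
  | succ m ih =>
    rw [Function.iterate_succ_apply']
    have hfun : S^[m] (fun n => if n = i then 1 else 0) =
        fun n => if i ≤ n then Nat.multichoose m (n - i) else 0 := by
      funext n; exact ih n
    rw [hfun]
    induction n with
    | zero =>
      simp only [S]
      rw [Finset.sum_range_one]
      by_cases h : i ≤ 0
      · rw [if_pos h, if_pos h]
        have : 0 - i = 0 := by omega
        rw [this]; simp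
      · rw [if_neg h, if_neg h]
    | succ n ihn =>
      simp only [S] at ihn ⊢
      rw [Finset.sum_range_succ, ihn]
      by_cases h : i ≤ n
      · rw [if_pos h, if_pos (by omega), if_pos (by omega)]
        have : n + 1 - i = (n - i) + 1 := by omega
        rw [this, Nat.multichoose_succ_succ]
        ring
      · by_cases h2 : i ≤ n + 1
        · have : i = n + 1 := by omega
          subst this
          simp
        · simp [h, h2]

private theorem A3_iter_zero (m n : ℕ) : (S^[m] (fun _ => 0)) n = 0 := by
  have h := S_iter_add m (fun _ => 0) (fun _ => 0) n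
  simp only [add_zero] at h
  omega

private theorem A3_iter_sum (m : ℕ) (V : Finset (ι → SignType)) (u : (ι → SignType) → ℕ → ℕ)
    (n : ℕ) : (S^[m] (fun k => ∑ v ∈ V, u v k)) n = ∑ v ∈ V, (S^[m] (u v)) n := by
  induction V using Finset.induction_on with
  | empty => simpa using A3_iter_zero m n
  | insert a s ha ih =>
    have e : (fun k => ∑ v ∈ insert a s, u v k) = fun k => u a k + ∑ v ∈ s, u v k := by
      funext k; rw [Finset.sum_insert ha]
    rw [e, S_iter_add, ih, Finset.sum_insert ha]

private theorem A3_mem_EE {C : Finset (ι → SignType)} {n : ℕ} {e : ι → ℤ} :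
    e ∈ EE C n ↔ (∑ l, (e l).natAbs = n) ∧ sgn e ∈ C := by
  unfold EE
  rw [Finset.mem_filter]
  constructor
  · exact fun h => h.2
  · intro h
    refine ⟨?_, h⟩
    rw [Fintype.mem_piFinset]
    intro l
    have : (e l).natAbs ≤ n := by
      rw [← h.1]
      exact Finset.single_le_sum (f := fun l => (e l).natAbs) (fun _ _ => Nat.zero_le _)
        (Finset.mem_univ l)
    rw [Finset.mem_Icc]
    omega

/-- the entries of a vector below `v` -/
private theorem A3_entry {v : ι → SignType} {e : ι → ℤ} (hle : Le (sgn e) v) (l : ι) :
    e l = ((v l : SignType) : ℤ) * ((e l).natAbs : ℤ) := by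
  by_cases h0 : e l = 0
  · rw [h0]; simp
  · have h1 : sgn e l ≠ 0 := by
      simp only [sgn]; exact sign_ne_zero.mpr h0
    have h2 := hle l h1
    rw [h2]
    simp only [sgn]
    rcases lt_or_gt_of_ne h0 with h | h
    · rw [sign_neg h]
      simp only [SignType.coe_neg_one]
      omega
    · rw [sign_pos h]
      simp only [SignType.coe_one]
      omega

private theorem A3_fiber {V : Finset (ι → SignType)} {C : Finset (ι → SignType)}
    {P : (ι → SignType) → Finset ι} {v : ι → SignType}
    (hvC : v ∈ C) (hdown : ∀ s t, t ∈ C → Le s t → s ∈ C)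
    (hcard : (supp v).card = d) (hP : P v ⊆ supp v) (n : ℕ) :
    ((EE C n).filter (fun e => Low P v (sgn e))).card =
      if (P v).card ≤ n then Nat.multichoose d (n - (P v).card) else 0 := by
  -- sum over the support
  have hsupp : ∀ e : ι → ℤ, Le (sgn e) v → ∑ l ∈ supp v, (e l).natAbs = ∑ l, (e l).natAbs := by
    intro e he
    refine Finset.sum_subset (Finset.subset_univ _) fun l _ hl => ?_
    have : v l = 0 := by
      by_contra h; exact hl (by simp [supp, h])
    have h1 := A3_entry he l
    rw [this] at h1
    simp at h1
    simp [h1]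
  have hpos : ∀ e : ι → ℤ, Low P v (sgn e) → ∀ l ∈ P v, 1 ≤ (e l).natAbs := by
    intro e he l hl
    have := he.2 l hl
    simp only [sgn] at this
    have h2 : e l ≠ 0 := sign_ne_zero.mp this
    omega
  have hPcard : ∑ l ∈ supp v, (if l ∈ P v then 1 else 0) = (P v).card := by
    rw [Finset.sum_ite_mem, Finset.inter_eq_right.mpr hP]
    simp
  have hge : ∀ e : ι → ℤ, Low P v (sgn e) → (P v).card ≤ ∑ l, (e l).natAbs := by
    intro e he
    rw [← hsupp e he.1, ← hPcard]
    refine Finset.sum_le_sum fun l _ => ?_
    split_ifs with hl
    · exact hpos e he l hl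
    · exact Nat.zero_le _
  by_cases hn : (P v).card ≤ n
  · rw [if_pos hn, ← hcard, ← Finset.card_finsuppAntidiag_nat_eq_multichoose]
    refine Finset.card_nbij'
      (fun e => Finsupp.equivFunOnFinite.symm
        (fun l => (e l).natAbs - (if l ∈ P v then 1 else 0)))
      (fun g => fun l => ((v l : SignType) : ℤ) * ((g l + (if l ∈ P v then 1 else 0) : ℕ) : ℤ))
      ?_ ?_ ?_ ?_
    · intro e he
      rw [Finset.mem_coe, Finset.mem_filter, A3_mem_EE] at he
      obtain ⟨⟨hsum, _⟩, hlow⟩ := he
      rw [Finset.mem_coe, Finset.mem_finsuppAntidiag]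
      constructor
      · have h1 : ∑ l ∈ supp v, ((e l).natAbs - (if l ∈ P v then 1 else 0)) +
            ∑ l ∈ supp v, (if l ∈ P v then 1 else 0) = ∑ l ∈ supp v, (e l).natAbs := by
          rw [← Finset.sum_add_distrib]
          refine Finset.sum_congr rfl fun l _ => ?_
          split_ifs with hl
          · have := hpos e hlow l hl; omega
          · omega
        rw [hPcard, hsupp e hlow.1, hsum] at h1
        show ∑ l ∈ supp v, ((e l).natAbs - (if l ∈ P v then 1 else 0)) = n - (P v).card
        omega
      · intro l hl
        rw [Finsupp.mem_support_iff] at hl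
        by_contra h
        apply hl
        have h0 : v l = 0 := by
          by_contra h'; exact h (by simp [supp, h'])
        have h1 := A3_entry hlow.1 l
        rw [h0] at h1
        simp at h1
        show (e l).natAbs - (if l ∈ P v then 1 else 0) = 0
        rw [h1]; simp
    · intro g hg
      rw [Finset.mem_coe, Finset.mem_finsuppAntidiag] at hg
      obtain ⟨hsum, hsup⟩ := hg
      have habs : ∀ l, ((((v l : SignType) : ℤ) * ((g l + (if l ∈ P v then 1 else 0) : ℕ) : ℤ)).natAbs)
          = if v l = 0 then 0 else g l + (if l ∈ P v then 1 else 0) := by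
        intro l
        rw [Int.natAbs_mul, Int.natAbs_natCast]
        cases hv : v l <;> simp
      have hle : Le (sgn (fun l => ((v l : SignType) : ℤ) *
          ((g l + (if l ∈ P v then 1 else 0) : ℕ) : ℤ))) v := by
        intro l hl
        simp only [sgn] at hl ⊢
        rw [sign_ne_zero] at hl
        have h2 : (0 : ℤ) < ((g l + (if l ∈ P v then 1 else 0) : ℕ) : ℤ) := by
          rcases Nat.eq_zero_or_pos (g l + (if l ∈ P v then 1 else 0)) with h | h
          · exfalso; apply hl; rw [h]; simp
          · exact_mod_cast h
        rw [sign_mul, sign_pos h2, mul_one]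
        cases v l <;> simp
      rw [Finset.mem_coe, Finset.mem_filter, A3_mem_EE]
      refine ⟨⟨?_, hdown _ _ hvC hle⟩, hle, ?_⟩
      · rw [← hsupp _ hle]
        simp only [habs]
        have h1 : ∑ l ∈ supp v, (if v l = 0 then 0 else g l + (if l ∈ P v then 1 else 0)) =
            ∑ l ∈ supp v, g l + ∑ l ∈ supp v, (if l ∈ P v then 1 else 0) := by
          rw [← Finset.sum_add_distrib]
          refine Finset.sum_congr rfl fun l hl => ?_
          have : v l ≠ 0 := by simpa [supp] using hl
          rw [if_neg this]
        rw [h1, hPcard]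
        have : ∑ l ∈ supp v, g l = n - (P v).card := hsum
        omega
      · intro l hl
        have hv : v l ≠ 0 := by simpa [supp] using hP hl
        simp only [sgn]
        rw [sign_ne_zero, if_pos hl]
        intro h
        have := congrArg Int.natAbs h
        have h3 := habs l
        rw [if_pos hl] at h3
        rw [h3, if_neg hv] at this
        simp at this
    · intro e he
      rw [Finset.mem_coe, Finset.mem_filter, A3_mem_EE] at he
      obtain ⟨⟨hsum, _⟩, hlow⟩ := he
      funext l
      show ((v l : SignType) : ℤ) *
        ((((e l).natAbs - (if l ∈ P v then 1 else 0)) + (if l ∈ P v then 1 else 0) : ℕ) : ℤ) = e l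
      have : ((e l).natAbs - (if l ∈ P v then 1 else 0)) + (if l ∈ P v then 1 else 0) = (e l).natAbs := by
        split_ifs with hl
        · have := hpos e hlow l hl; omega
        · omega
      rw [this]
      exact (A3_entry hlow.1 l).symm
    · intro g hg
      rw [Finset.mem_coe, Finset.mem_finsuppAntidiag] at hg
      obtain ⟨hsum, hsup⟩ := hg
      ext l
      show (((v l : SignType) : ℤ) * ((g l + (if l ∈ P v then 1 else 0) : ℕ) : ℤ)).natAbs -
        (if l ∈ P v then 1 else 0) = g l
      cases hv : v l with
      | zero =>
        have h1 : l ∉ supp v := by simp [supp, hv]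
        have h2 : g l = 0 := by
          by_contra h
          exact h1 (hsup (Finsupp.mem_support_iff.mpr h))
        rw [h2]; simp
      | neg =>
        simp only [SignType.neg_eq_neg_one, SignType.coe_neg_one]
        split_ifs <;> omega
      | pos =>
        simp only [SignType.pos_eq_one, SignType.coe_one]
        split_ifs <;> omega
  · rw [if_neg hn, Finset.card_eq_zero, Finset.filter_eq_empty_iff]
    intro e he hlow
    rw [A3_mem_EE] at he
    have := hge e hlow
    omega

theorem card_EE {b : ι → E d} {C V : Finset (ι → SignType)} {P : (ι → SignType) → Finset ι}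
    {ht : (ι → SignType) → ℝ} (h : Sweep b C V P ht) (n : ℕ) :
    (EE C n).card = (S^[d] (hh V P)) n := by
  have h1 : hh V P = fun k => ∑ v ∈ V, (if k = (P v).card then 1 else 0) := by
    funext k
    unfold hh
    rw [Finset.card_filter]
    refine Finset.sum_congr rfl fun v _ => ?_
    simp [eq_comm]
  rw [h1, A3_iter_sum d V (fun v k => if k = (P v).card then 1 else 0) n]
  have h2 : EE C n = V.biUnion (fun v => (EE C n).filter (fun e => Low P v (sgn e))) := by
    ext e
    simp only [Finset.mem_biUnion, Finset.mem_filter]
    constructor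
    · intro he
      obtain ⟨v, hv, hl⟩ := h.ex (sgn e) (A3_mem_EE.mp he).2
      exact ⟨v, hv, he, hl⟩
    · rintro ⟨v, _, he, _⟩; exact he
  rw [h2, Finset.card_biUnion]
  · refine Finset.sum_congr rfl fun v hv => ?_
    rw [A3_fiber (V := V) (h.sub v hv) h.down (h.card v hv) (h.psub v hv) n, A3_delta]
  · intro v hv w hw hvw
    rw [Function.onFun, Finset.disjoint_left]
    intro e he he'
    rw [Finset.mem_filter] at he he'
    exact hvw (h.uniq (sgn e) (A3_mem_EE.mp he.1).2 v hv w hw he.2 he'.2)

end

end Pool.Agent.KST
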