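import Pool.Agent.KST.Defs

/-! Row A4: a function in the common kernel is determined by its values at the points `m_v`. -/

set_option autoImplicit false

open scoped BigOperators RealInnerProductSpace

namespace Pool.Agent.KST

noncomputable section

open Classical

variable {ι : Type} [Fintype ι] {d : ℕ}

private theorem A4_D_apply (b : ι → E d) (y : E d) (f : Fn ι) (e : ι → ℤ) :
    D b y f e = ∑ l, ⟪b l, y⟫ * X l f e := by
  simp only [D, LinearMap.sum_apply, LinearMap.smul_apply, Finset.sum_apply, Pi.smul_apply,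
    smul_eq_mul]

omit [Fintype ι] in
private theorem A4_X_apply (l : ι) (f : Fn ι) (e : ι → ℤ) :
    X l f e = (if 0 ≤ e l then f (Function.update e l (e l + 1)) else 0) -
      (if e l ≤ 0 then f (Function.update e l (e l - 1)) else 0) := rfl

private theorem A4_dual {κ : Type} {u : κ → E d} (hu : LinearIndependent ℝ u) (c : κ → ℝ) :
    ∃ y : E d, ∀ k, ⟪u k, y⟫ = c k := by
  let φ0 : Submodule.span ℝ (Set.range u) →ₗ[ℝ] ℝ :=
    (Finsupp.linearCombination ℝ c).comp hu.repr
  obtain ⟨φ, hφ⟩ := LinearMap.exists_extend φ0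
  refine ⟨(InnerProductSpace.toDual ℝ (E d)).symm (LinearMap.toContinuousLinearMap φ), ?_⟩
  intro k
  rw [real_inner_comm, InnerProductSpace.toDual_symm_apply]
  show φ (u k) = c k
  have h1 : φ0 ⟨u k, Submodule.subset_span ⟨k, rfl⟩⟩ = φ (u k) := by
    rw [← hφ]; rfl
  rw [← h1]
  show (Finsupp.linearCombination ℝ c) (hu.repr ⟨u k, _⟩) = c k
  rw [hu.repr_eq_single k _ rfl, Finsupp.linearCombination_single, one_smul]

omit [Fintype ι] in
private theorem A4_sgn_apply (e : ι → ℤ) (l : ι) : sgn e l = SignType.sign (e l) := rfl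

private theorem A4_sgn_ne (e : ι → ℤ) (l : ι) : sgn e l ≠ 0 ↔ e l ≠ 0 := by
  rw [A4_sgn_apply, Ne, sign_eq_zero_iff]

private theorem A4_le_update (e : ι → ℤ) (l : ι) (hl : e l = 0) (z : ℤ) :
    Le (sgn e) (sgn (Function.update e l z)) := by
  intro k hk
  have hkl : k ≠ l := by
    rintro rfl
    exact (A4_sgn_ne e k).1 hk hl
  rw [A4_sgn_apply, A4_sgn_apply, Function.update_of_ne hkl]

/-- The key step. -/
private theorem A4_key {b : ι → E d} {C V : Finset (ι → SignType)}
    {P : (ι → SignType) → Finset ι} {ht : (ι → SignType) → ℝ} (h : Sweep b C V P ht) (n : ℕ)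
    (f : Fn ι) (hf : f ∈ FF C n) (hD : ∀ y, D b y f = 0)
    (hm : ∀ v ∈ V, (P v).card = n → f (fun l => if l ∈ P v then ((v l : SignType) : ℤ) else 0) = 0) :
    f = 0 := by
  by_contra hne
  obtain ⟨e₀, he₀⟩ : ∃ e, f e ≠ 0 := by
    by_contra hcon
    push Not at hcon
    exact hne (funext hcon)
  have hmem : ∀ e, f e ≠ 0 → e ∈ EE C n := by
    intro e he
    by_contra hcon
    exact he (hf e hcon)
  have hEE : ∀ e, e ∈ EE C n → (∑ l, (e l).natAbs = n) ∧ sgn e ∈ C := by
    intro e he
    exact (Finset.mem_filter.1 he).2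
  -- the pair of maximal height
  let T : Finset ((ι → ℤ) × (ι → SignType)) :=
    ((EE C n) ×ˢ V).filter (fun p => f p.1 ≠ 0 ∧ Low P p.2 (sgn p.1))
  have hTne : T.Nonempty := by
    obtain ⟨v, hv, hlow⟩ := h.ex _ (hEE _ (hmem _ he₀)).2
    exact ⟨(e₀, v), Finset.mem_filter.2 ⟨Finset.mk_mem_product (hmem _ he₀) hv, he₀, hlow⟩⟩
  obtain ⟨⟨e, v⟩, hp, hmax⟩ := T.exists_max_image (fun p => ht p.2) hTne
  obtain ⟨hp1, hfe, hlow⟩ := Finset.mem_filter.1 hp
  obtain ⟨heE, hvV⟩ := Finset.mem_product.1 hp1
  simp only at hfe hlow heE hvV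
  -- points above
  have habove : ∀ e' e'' : ι → ℤ, Low P v (sgn e') → Le (sgn e') (sgn e'') →
      ¬ Le (sgn e'') v → f e'' = 0 := by
    intro e' e'' h1 h2 h3
    by_contra hcon
    have h4 := (hEE _ (hmem _ hcon)).2
    obtain ⟨w, hw, hwl⟩ := h.ex _ h4
    have h5 := h.up _ _ h4 h2 v hvV h1 h3 w hw hwl
    have h6 := hmax (e'', w) (Finset.mem_filter.2
      ⟨Finset.mk_mem_product (hmem _ hcon) hw, hcon, hwl⟩)
    simp only at h6
    linarith
  -- the coordinate to be lowered
  have hsign : ∀ l, e l ≠ 0 → v l = SignType.sign (e l) := fun l hl =>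
    hlow.1 l ((A4_sgn_ne e l).2 hl)
  obtain ⟨l, hl0, hl1⟩ : ∃ l, e l ≠ 0 ∧ (l ∈ P v → 2 ≤ (e l).natAbs) := by
    by_contra hcon
    push Not at hcon
    have h1 : ∀ l, e l = if l ∈ P v then ((v l : SignType) : ℤ) else 0 := by
      intro l
      by_cases hl : e l = 0
      · have h2 : l ∉ P v := fun h3 => (A4_sgn_ne e l).1 (hlow.2 l h3) hl
        rw [hl, if_neg h2]
      · obtain ⟨h3, h4⟩ := hcon l hl
        rw [if_pos h3, hsign l hl]
        have h5 : (e l).natAbs ≠ 0 := by rwa [Ne, Int.natAbs_eq_zero]
        have h6 : (e l).natAbs = 1 := by omega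
        rcases Int.natAbs_eq (e l) with h7 | h7
        · rw [h7, h6]; rfl
        · rw [h7, h6]; rfl
    have h2 : e = fun l => if l ∈ P v then ((v l : SignType) : ℤ) else 0 := funext h1
    have h3 : (P v).card = n := by
      rw [← (hEE e heE).1]
      have h4 : ∀ l, (e l).natAbs = if l ∈ P v then 1 else 0 := by
        intro l
        by_cases hl : l ∈ P v
        · have h5 : e l ≠ 0 := (A4_sgn_ne e l).1 (hlow.2 l hl)
          obtain ⟨_, h6⟩ := hcon l h5
          have h7 : (e l).natAbs ≠ 0 := by rwa [Ne, Int.natAbs_eq_zero]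
          rw [if_pos hl]; omega
        · rw [h1 l, if_neg hl, if_neg hl]; rfl
      rw [Finset.sum_congr rfl (fun l _ => h4 l), Finset.sum_boole]
      simp
    have h4 := hm v hvV h3
    rw [← h2] at h4
    exact hfe h4
  have hvl : v l = SignType.sign (e l) := hsign l hl0
  -- the dual vector
  have hvl0 : v l ≠ 0 := by rw [hvl]; exact fun h1 => hl0 (sign_eq_zero_iff.1 h1)
  obtain ⟨y, hy⟩ := A4_dual (h.ind v hvV)
    (fun k => if k.1 = l then ((v l : SignType) : ℝ) else 0)
  have hyl : ⟪b l, y⟫ = ((v l : SignType) : ℝ) := by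
    have := hy ⟨l, hvl0⟩
    simpa using this
  have hyk : ∀ k, v k ≠ 0 → k ≠ l → ⟪b k, y⟫ = 0 := by
    intro k hk hkl
    have := hy ⟨k, hk⟩
    simpa [hkl] using this
  -- a uniform computation, by the sign of `e l`
  have hfin : ∀ e' : ι → ℤ, (∀ k, k ≠ l → e' k = e k) → Low P v (sgn e') →
      X l f e' = 0 := by
    intro e' hk' hlow'
    have h0 := congrFun (hD y) e'
    rw [A4_D_apply] at h0
    rw [Finset.sum_eq_single l] at h0
    · rw [hyl] at h0
      have h1 : (0 : Fn ι) e' = 0 := rfl
      rw [h1] at h0
      rcases mul_eq_zero.1 h0 with h2 | h2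
      · exfalso
        apply hvl0
        revert h2
        cases v l <;> simp
      · exact h2
    · intro k _ hkl
      by_cases hk : v k = 0
      · -- `e' k = 0`
        have h1 : e' k = 0 := by
          by_contra hcon
          have h2 := hlow'.1 k ((A4_sgn_ne e' k).2 hcon)
          rw [hk] at h2
          exact (A4_sgn_ne e' k).2 hcon h2.symm
        have h3 : ∀ z : ℤ, z ≠ 0 → f (Function.update e' k z) = 0 := by
          intro z hz
          refine habove e' _ hlow' (A4_le_update e' k h1 z) ?_
          intro h4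
          have h5 : sgn (Function.update e' k z) k ≠ 0 := by
            rw [A4_sgn_ne, Function.update_self]; exact hz
          have h6 := h4 k h5
          rw [hk] at h6
          exact h5 h6.symm
        rw [A4_X_apply, h1, if_pos le_rfl, if_pos le_rfl, h3 _ (by norm_num), h3 _ (by norm_num)]
        simp
      · rw [hyk k hk hkl, zero_mul]
    · intro h1
      exact absurd (Finset.mem_univ l) h1
  -- the lowered point
  have hlow' : ∀ z : ℤ, (z = 0 ∨ SignType.sign z = v l) → (l ∈ P v → z ≠ 0) →
      Low P v (sgn (Function.update e l z)) := by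
    intro z hz1 hz2
    refine ⟨?_, ?_⟩
    · intro k hk
      by_cases hkl : k = l
      · subst hkl
        rw [A4_sgn_apply, Function.update_self] at hk ⊢
        rcases hz1 with h1 | h1
        · rw [h1] at hk; exact absurd sign_zero hk
        · exact h1.symm
      · rw [A4_sgn_apply, Function.update_of_ne hkl] at hk ⊢
        exact hlow.1 k hk
    · intro k hk
      by_cases hkl : k = l
      · subst hkl
        rw [A4_sgn_ne, Function.update_self]
        exact hz2 hk
      · rw [A4_sgn_apply, Function.update_of_ne hkl]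
        exact hlow.2 k hk
  rcases lt_or_gt_of_ne hl0 with hneg | hpos
  · -- `e l < 0`
    have hv1 : v l = -1 := by rw [hvl]; exact sign_neg hneg
    have h1 := hlow' (e l + 1) (by
      rcases eq_or_lt_of_le (show e l + 1 ≤ 0 by omega) with h2 | h2
      · exact Or.inl h2
      · exact Or.inr (by rw [hv1]; exact sign_neg h2)) (by
      intro h2
      have := hl1 h2
      omega)
    have h2 := hfin _ (fun k hk => by rw [Function.update_of_ne hk]) h1
    rw [A4_X_apply] at h2
    simp only [Function.update_self, Function.update_idem] at h2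
    rw [if_pos (show e l + 1 ≤ 0 by omega)] at h2
    have h3 : Function.update e l (e l + 1 - 1) = e := by
      rw [add_sub_cancel_right, Function.update_eq_self]
    rw [h3] at h2
    have h4 : (if 0 ≤ e l + 1 then f (Function.update e l (e l + 1 + 1)) else 0) = 0 := by
      split_ifs with h5
      · have h6 : e l + 1 = 0 := by omega
        have h7 : Function.update e l (e l + 1 + 1) =
            Function.update (Function.update e l (e l + 1)) l 1 := by
          rw [Function.update_idem, h6]; rfl
        rw [h7]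
        refine habove _ _ h1 (A4_le_update _ l (by rw [Function.update_self]; exact h6) 1) ?_
        intro h8
        have h9 := h8 l (by rw [A4_sgn_ne, Function.update_self]; norm_num)
        rw [A4_sgn_apply, Function.update_self, hv1] at h9
        exact absurd h9 (by decide)
      · rfl
    rw [h4] at h2
    apply hfe
    linarith
  · -- `0 < e l`
    have hv1 : v l = 1 := by rw [hvl]; exact sign_pos hpos
    have h1 := hlow' (e l - 1) (by
      rcases eq_or_lt_of_le (show 0 ≤ e l - 1 by omega) with h2 | h2
      · exact Or.inl h2.symm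
      · exact Or.inr (by rw [hv1]; exact sign_pos h2)) (by
      intro h2
      have := hl1 h2
      omega)
    have h2 := hfin _ (fun k hk => by rw [Function.update_of_ne hk]) h1
    rw [A4_X_apply] at h2
    simp only [Function.update_self, Function.update_idem] at h2
    rw [if_pos (show 0 ≤ e l - 1 by omega)] at h2
    have h3 : Function.update e l (e l - 1 + 1) = e := by
      rw [sub_add_cancel, Function.update_eq_self]
    rw [h3] at h2
    have h4 : (if e l - 1 ≤ 0 then f (Function.update e l (e l - 1 - 1)) else 0) = 0 := by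
      split_ifs with h5
      · have h6 : e l - 1 = 0 := by omega
        have h7 : Function.update e l (e l - 1 - 1) =
            Function.update (Function.update e l (e l - 1)) l (-1) := by
          rw [Function.update_idem, h6]; rfl
        rw [h7]
        refine habove _ _ h1 (A4_le_update _ l (by rw [Function.update_self]; exact h6) (-1)) ?_
        intro h8
        have h9 := h8 l (by rw [A4_sgn_ne, Function.update_self]; norm_num)
        rw [A4_sgn_apply, Function.update_self, hv1] at h9
        exact absurd h9 (by decide)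
      · rfl
    rw [h4] at h2
    apply hfe
    linarith

theorem finrank_ker_le {b : ι → E d} {C V : Finset (ι → SignType)}
    {P : (ι → SignType) → Finset ι} {ht : (ι → SignType) → ℝ} (h : Sweep b C V P ht) (n : ℕ) :
    Module.finrank ℝ ↥(FF C n ⊓ Ker b) ≤ hh V P n := by
  let I := V.filter (fun v => (P v).card = n)
  let ev : ↥(FF C n ⊓ Ker b) →ₗ[ℝ] (I → ℝ) :=
    { toFun := fun f v => f.1 (fun l => if l ∈ P v.1 then ((v.1 l : SignType) : ℤ) else 0)
      map_add' := fun f g => rfl
      map_smul' := fun c f => rfl }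
  have hinj : Function.Injective ev := by
    rw [injective_iff_map_eq_zero]
    rintro ⟨f, hf⟩ h0
    obtain ⟨hf1, hf2⟩ := Submodule.mem_inf.1 hf
    have hD : ∀ y, D b y f = 0 := by
      intro y
      have := (Submodule.mem_iInf _).1 hf2 y
      exact LinearMap.mem_ker.1 this
    have h1 := A4_key h n f hf1 hD (by
      intro v hv hc
      exact congrFun h0 ⟨v, Finset.mem_filter.2 ⟨hv, hc⟩⟩)
    exact Subtype.ext h1
  have h2 := LinearMap.finrank_le_finrank_of_injective hinj
  rw [Module.finrank_fintype_fun_eq_card, Fintype.card_coe] at h2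
  exact h2

end

end Pool.Agent.KST
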