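import Pool.Agent.KST.A0
import Pool.Agent.KST.A1
import Pool.Agent.KST.A2
import Pool.Agent.KST.A2b
import Pool.Agent.KST.A3
import Pool.Agent.KST.A4

/-! # ROW A5: dimensions of the kernels -/

set_option autoImplicit false

open scoped BigOperators RealInnerProductSpace

namespace Pool.Agent.KST

noncomputable section

open Classical

variable {ι : Type} [Fintype ι] {d : ℕ}

private theorem A5_chain {b : ι → E d} {C : Finset (ι → SignType)}
    (hdown : ∀ s t, t ∈ C → Le s t → s ∈ C) (n : ℕ) :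
    (EE C n).card ≤ (S^[d] (fun k => Module.finrank ℝ ↥(FF C k ⊓ Ker b))) n := by
  have h := chain d (fun i : Fin d => D b (EuclideanSpace.single i (1 : ℝ)))
    (fun i j f => D_comm b _ _ f) (FF C) (FF_fin C)
    (fun k f hf => D_FF_zero C b _ f hf) (fun k n f hf => D_FF hdown b _ n f hf) n
  rw [finrank_FF, ← Ker_eq] at h
  exact h

private theorem A5_fin (C : Finset (ι → SignType)) (n : ℕ) (η : ℝ) :
    FiniteDimensional ℝ ↥(FF C n ⊓ Par ι η) := by
  have := FF_fin C n
  exact Submodule.finiteDimensional_of_le inf_le_left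

private theorem A5_chain_par {b : ι → E d} {C : Finset (ι → SignType)}
    (hdown : ∀ s t, t ∈ C → Le s t → s ∈ C) (η : ℝ) (n : ℕ) :
    Module.finrank ℝ ↥(FF C n ⊓ Par ι (η * (-1) ^ n)) ≤
      (S^[d] (fun k => Module.finrank ℝ ↥(FF C k ⊓ Ker b ⊓ Par ι (η * (-1) ^ k)))) n := by
  have h := chain d (fun i : Fin d => D b (EuclideanSpace.single i (1 : ℝ)))
    (fun i j f => D_comm b _ _ f) (fun n => FF C n ⊓ Par ι (η * (-1) ^ n))
    (fun n => A5_fin C n _)
    (fun k f hf => D_FF_zero C b _ f hf.1)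
    (fun k n f hf => ⟨D_FF hdown b _ n f hf.1, by
      have := D_Par b (EuclideanSpace.single k (1 : ℝ)) _ f hf.2
      have e : -(η * (-1) ^ (n + 1)) = η * (-1) ^ n := by ring
      rwa [e] at this⟩) n
  rw [← Ker_eq] at h
  have e : (fun k => Module.finrank ℝ ↥(FF C k ⊓ Par ι (η * (-1) ^ k) ⊓ Ker b)) =
      fun k => Module.finrank ℝ ↥(FF C k ⊓ Ker b ⊓ Par ι (η * (-1) ^ k)) := by
    funext k; rw [inf_right_comm]
  exact h.trans (le_of_eq (congrFun (congrArg (fun u => S^[d] u) e) n))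

theorem finrank_ker {b : ι → E d} {C V : Finset (ι → SignType)}
    {P : (ι → SignType) → Finset ι} {ht : (ι → SignType) → ℝ} (h : Sweep b C V P ht) (n : ℕ) :
    Module.finrank ℝ ↥(FF C n ⊓ Ker b) = hh V P n := by
  have key : (fun k => Module.finrank ℝ ↥(FF C k ⊓ Ker b)) = hh V P := by
    refine S_iter_inj d (fun n => finrank_ker_le h n) (fun n => ?_)
    rw [← card_EE h n]
    exact A5_chain h.down n
  exact congrFun key n

theorem finrank_minus {b : ι → E d} {C V : Finset (ι → SignType)}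
    {P : (ι → SignType) → Finset ι} {ht : (ι → SignType) → ℝ} (h : Sweep b C V P ht)
    (hsym : ∀ s ∈ C, -s ∈ C) (n : ℕ) :
    2 * Module.finrank ℝ ↥(FF C n ⊓ Ker b ⊓ Par ι (-1)) + d.choose n = hh V P n := by
  set up : ℕ → ℕ := fun k => Module.finrank ℝ ↥(FF C k ⊓ Ker b ⊓ Par ι (1 * (-1) ^ k)) with hup
  set um : ℕ → ℕ := fun k => Module.finrank ℝ ↥(FF C k ⊓ Ker b ⊓ Par ι ((-1) * (-1) ^ k)) with hum
  have hpar : ∀ k : ℕ, ((-1:ℝ)) ^ k = 1 ∨ ((-1:ℝ)) ^ k = -1 := neg_one_pow_eq_or ℝ
  -- sums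
  have hsum : ∀ k, up k + um k = hh V P k := by
    intro k
    have h1 := finrank_ker_par_add b hsym k
    rw [finrank_ker h k] at h1
    simp only [hup, hum]
    rcases hpar k with e | e
    · rw [e, one_mul, mul_one]; exact h1
    · rw [e, one_mul]
      have : (-1:ℝ) * -1 = 1 := by norm_num
      rw [this]; omega
  have hlev : ∀ k, Module.finrank ℝ ↥(FF C k ⊓ Par ι (1 * (-1) ^ k)) +
      Module.finrank ℝ ↥(FF C k ⊓ Par ι ((-1) * (-1) ^ k)) = (EE C k).card := by
    intro k
    have h1 := finrank_par_add b hsym k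
    rcases hpar k with e | e
    · rw [e, one_mul, mul_one]; exact h1
    · rw [e, one_mul]
      have : (-1:ℝ) * -1 = 1 := by norm_num
      rw [this]; omega
  have hdiff : ∀ k, Module.finrank ℝ ↥(FF C k ⊓ Par ι (1 * (-1) ^ k)) =
      Module.finrank ℝ ↥(FF C k ⊓ Par ι ((-1) * (-1) ^ k)) + (if k = 0 then 1 else 0) := by
    intro k
    have h1 := finrank_par_diff h.zero hsym k
    rcases Nat.eq_zero_or_pos k with e | e
    · subst e; rw [pow_zero, one_mul, mul_one]; exact h1
    · rw [if_neg (by omega)] at h1 ⊢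
      rcases hpar k with e | e
      · rw [e, one_mul, mul_one]; exact h1
      · rw [e, one_mul]
        have : (-1:ℝ) * -1 = 1 := by norm_num
        rw [this]; omega
  have cp : ∀ k, Module.finrank ℝ ↥(FF C k ⊓ Par ι (1 * (-1) ^ k)) ≤ (S^[d] up) k :=
    A5_chain_par (b := b) h.down 1
  have cm : ∀ k, Module.finrank ℝ ↥(FF C k ⊓ Par ι ((-1) * (-1) ^ k)) ≤ (S^[d] um) k :=
    A5_chain_par (b := b) h.down (-1)
  have hS : ∀ k, (S^[d] up) k + (S^[d] um) k = (EE C k).card := by
    intro k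
    rw [card_EE h k, ← S_iter_add]
    have : (fun k => up k + um k) = hh V P := funext hsum
    rw [this]
  have key : ∀ k, (S^[d] up) k = (S^[d] um) k + (if k = 0 then 1 else 0) := by
    intro k
    have := cp k; have := cm k; have := hS k; have := hlev k; have := hdiff k
    omega
  have fin := S_diff d key n
  have hs := hsum n
  rcases Nat.even_or_odd n with hn | hn
  · rw [hn.neg_one_pow, one_mul] at fin
    have e : um n = Module.finrank ℝ ↥(FF C n ⊓ Ker b ⊓ Par ι (-1)) := by
      simp only [hum]; rw [hn.neg_one_pow, mul_one]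
    omega
  · rw [hn.neg_one_pow, neg_one_mul] at fin
    have e : up n = Module.finrank ℝ ↥(FF C n ⊓ Ker b ⊓ Par ι (-1)) := by
      simp only [hup]; rw [hn.neg_one_pow, one_mul]
    omega

end

end Pool.Agent.KST
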