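import Pool.Agent.KST.Defs

/-! Row A0 of the KST project: partial sums. -/

set_option autoImplicit false

open scoped BigOperators RealInnerProductSpace

namespace Pool.Agent.KST

noncomputable section

open Classical

theorem S_mono {u v : ℕ → ℕ} (h : ∀ n, u n ≤ v n) (n : ℕ) : S u n ≤ S v n :=
  Finset.sum_le_sum fun k _ => h k

theorem S_iter_mono (m : ℕ) {u v : ℕ → ℕ} (h : ∀ n, u n ≤ v n) (n : ℕ) :
    (S^[m] u) n ≤ (S^[m] v) n := by
  induction m generalizing u v with
  | zero => exact h n
  | succ m ih =>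
    rw [Function.iterate_succ_apply, Function.iterate_succ_apply]
    exact ih (fun k => S_mono h k)

theorem A0_S_zero (u : ℕ → ℕ) : S u 0 = u 0 := by
  simp [S]

theorem A0_S_succ (u : ℕ → ℕ) (n : ℕ) : S u (n + 1) = S u n + u (n + 1) := by
  unfold S
  rw [Finset.sum_range_succ]

theorem A0_S_inj {u v : ℕ → ℕ} (h : S u = S v) : u = v := by
  funext n
  cases n with
  | zero =>
    have h0 := congrFun h 0
    rwa [A0_S_zero, A0_S_zero] at h0
  | succ n =>
    have h0 := congrFun h (n + 1)
    have h1 := congrFun h n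
    rw [A0_S_succ, A0_S_succ] at h0
    omega

theorem S_iter_inj (m : ℕ) {u v : ℕ → ℕ} (h : ∀ n, u n ≤ v n)
    (h' : ∀ n, (S^[m] v) n ≤ (S^[m] u) n) : u = v := by
  induction m generalizing u v with
  | zero => funext n; exact le_antisymm (h n) (h' n)
  | succ m ih =>
    apply A0_S_inj
    refine ih (fun k => S_mono h k) (fun k => ?_)
    have := h' k
    rwa [Function.iterate_succ_apply, Function.iterate_succ_apply] at this

theorem S_iter_add (m : ℕ) (u v : ℕ → ℕ) (n : ℕ) :
    (S^[m] (fun k => u k + v k)) n = (S^[m] u) n + (S^[m] v) n := by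
  induction m generalizing u v with
  | zero => rfl
  | succ m ih =>
    rw [Function.iterate_succ_apply, Function.iterate_succ_apply, Function.iterate_succ_apply,
      ← ih]
    have : S (fun k => u k + v k) = fun k => S u k + S v k := by
      funext k
      unfold S
      rw [Finset.sum_add_distrib]
    rw [this]

/-- partial sums over the integers -/
def A0_SZ (u : ℕ → ℤ) (n : ℕ) : ℤ := ∑ k ∈ Finset.range (n + 1), u k

theorem A0_SZ_inj {u v : ℕ → ℤ} (h : A0_SZ u = A0_SZ v) : u = v := by
  funext n
  cases n with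
  | zero =>
    have h0 := congrFun h 0
    simpa [A0_SZ] using h0
  | succ n =>
    have h0 := congrFun h (n + 1)
    have h1 := congrFun h n
    unfold A0_SZ at h0 h1
    rw [Finset.sum_range_succ, Finset.sum_range_succ _ (n + 1)] at h0
    linarith

theorem A0_SZ_iter_inj (m : ℕ) {u v : ℕ → ℤ} (h : A0_SZ^[m] u = A0_SZ^[m] v) : u = v := by
  induction m generalizing u v with
  | zero => exact h
  | succ m ih =>
    rw [Function.iterate_succ_apply, Function.iterate_succ_apply] at h
    exact A0_SZ_inj (ih h)

theorem A0_SZ_iter_add (m : ℕ) (u v : ℕ → ℤ) (n : ℕ) :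
    (A0_SZ^[m] (fun k => u k + v k)) n = (A0_SZ^[m] u) n + (A0_SZ^[m] v) n := by
  induction m generalizing u v with
  | zero => rfl
  | succ m ih =>
    rw [Function.iterate_succ_apply, Function.iterate_succ_apply, Function.iterate_succ_apply,
      ← ih]
    have : A0_SZ (fun k => u k + v k) = fun k => A0_SZ u k + A0_SZ v k := by
      funext k
      unfold A0_SZ
      rw [Finset.sum_add_distrib]
    rw [this]

theorem A0_cast (m : ℕ) (u : ℕ → ℕ) (n : ℕ) :
    ((S^[m] u) n : ℤ) = (A0_SZ^[m] (fun k => (u k : ℤ))) n := by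
  induction m generalizing u with
  | zero => rfl
  | succ m ih =>
    rw [Function.iterate_succ_apply, Function.iterate_succ_apply, ih]
    have : (fun k => ((S u k : ℕ) : ℤ)) = A0_SZ (fun k => (u k : ℤ)) := by
      funext k
      unfold S A0_SZ
      push_cast
      rfl
    rw [this]

theorem A0_alt_step (m n : ℕ) :
    A0_SZ (fun k => (-1) ^ k * ((m + 1).choose k : ℤ)) n = (-1) ^ n * (m.choose n : ℤ) := by
  induction n with
  | zero => simp [A0_SZ]
  | succ n ih =>
    unfold A0_SZ at ih ⊢
    rw [Finset.sum_range_succ, ih, Nat.choose_succ_succ]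
    push_cast
    ring

theorem A0_alt (m n : ℕ) :
    (A0_SZ^[m] (fun k => (-1) ^ k * (m.choose k : ℤ))) n = if n = 0 then 1 else 0 := by
  induction m with
  | zero =>
    cases n with
    | zero => simp
    | succ n => simp
  | succ m ih =>
    rw [Function.iterate_succ_apply]
    have : A0_SZ (fun k => (-1) ^ k * ((m + 1).choose k : ℤ)) =
        fun k => (-1) ^ k * (m.choose k : ℤ) := by
      funext k
      exact A0_alt_step m k
    rw [this, ih]

theorem S_diff (m : ℕ) {u w : ℕ → ℕ}
    (h : ∀ n, (S^[m] u) n = (S^[m] w) n + (if n = 0 then 1 else 0)) (n : ℕ) :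
    (u n : ℤ) = w n + (-1) ^ n * (m.choose n : ℤ) := by
  have key : (fun k => (u k : ℤ)) = fun k => (w k : ℤ) + (-1) ^ k * (m.choose k : ℤ) := by
    apply A0_SZ_iter_inj m
    funext k
    rw [A0_SZ_iter_add, ← A0_cast, ← A0_cast, A0_alt, h k]
    push_cast
    rfl
  exact congrFun key n

end

end Pool.Agent.KST
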