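import Mathlib

/-!
# Centrally symmetric polytopes whose non-simple part is sparse: definitions
-/

set_option autoImplicit false

open scoped BigOperators RealInnerProductSpace

namespace Pool.Agent.KST

noncomputable section

open Classical

/-- Euclidean space -/
abbrev E (d : ℕ) := EuclideanSpace ℝ (Fin d)

/-- functions on integer vectors -/
abbrev Fn (ι : Type) := (ι → ℤ) → ℝ

variable {ι : Type} [Fintype ι] {d : ℕ}

/-- support of a sign vector -/
def supp (s : ι → SignType) : Finset ι := Finset.univ.filter (fun l => s l ≠ 0)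

/-- `s` is a restriction of `t` -/
def Le (s t : ι → SignType) : Prop := ∀ l, s l ≠ 0 → t l = s l

/-- `x` lies in the relative interior of the face with sign vector `s` -/
def IsCell (b : ι → E d) (s : ι → SignType) (x : E d) : Prop :=
  ∀ l, (s l = 0 → |⟪b l, x⟫| < 1) ∧ (s l ≠ 0 → ⟪b l, x⟫ = ((s l : SignType) : ℝ))

/-- the sign vectors of the faces of `{x | ∀ l, |⟪b l, x⟫| ≤ 1}` -/
def Cells (b : ι → E d) : Finset (ι → SignType) :=
  Finset.univ.filter (fun s => ∃ x, IsCell b s x)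

/-- the vertices (for a simple polytope) -/
def Verts (b : ι → E d) : Finset (ι → SignType) :=
  (Cells b).filter (fun s => (supp s).card = d)

/-- all tight families of constraints are independent -/
def Simple (b : ι → E d) : Prop :=
  ∀ s ∈ Cells b, LinearIndependent ℝ (fun l : {l : ι // s l ≠ 0} => b l.1)

/-- the polytope -/
def Pol (b : ι → E d) : Set (E d) := {x | ∀ l, |⟪b l, x⟫| ≤ 1}

/-- a point of the face `s` -/
def pt (b : ι → E d) (s : ι → SignType) : E d :=
  if h : ∃ x, IsCell b s x then h.choose else 0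

/-- dual vector of `b l` at the vertex `v`: `⟪b l, y⟫ = v l` and `⟪b k, y⟫ = 0` for the other
constraints of `v` -/
def dv (b : ι → E d) (v : ι → SignType) (l : ι) : E d :=
  if h : ∃ y : E d, ∀ k, v k ≠ 0 → ⟪b k, y⟫ = if k = l then ((v l : SignType) : ℝ) else 0
  then h.choose else 0

/-- the constraints of `v` on which `a` has positive coefficient (the descending edges) -/
def PP (b : ι → E d) (a : E d) (v : ι → SignType) : Finset ι :=
  (supp v).filter (fun l => 0 < ⟪a, dv b v l⟫)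

/-- `a` is generic -/
def Gen (b : ι → E d) (a : E d) : Prop :=
  ∀ v ∈ Verts b, ∀ l ∈ supp v, ⟪a, dv b v l⟫ ≠ 0

/-- the closed star of the facet `j` (sign `+`) -/
def Star (b : ι → E d) (j : ι) : Finset (ι → SignType) :=
  (Cells b).filter (fun s => ∃ t ∈ Cells b, Le s t ∧ t j = 1)

/-- the vertices of the facet `j` (sign `+`) -/
def VF (b : ι → E d) (j : ι) : Finset (ι → SignType) :=
  (Verts b).filter (fun v => v j = 1)

/-- `v` is the lowest vertex of the face `s` -/
def Low (P : (ι → SignType) → Finset ι) (v s : ι → SignType) : Prop :=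
  Le s v ∧ ∀ l ∈ P v, s l ≠ 0

/-- a sweep of a complex `C` of sign vectors with vertex set `V` -/
structure Sweep (b : ι → E d) (C V : Finset (ι → SignType))
    (P : (ι → SignType) → Finset ι) (ht : (ι → SignType) → ℝ) : Prop where
  zero : (0 : ι → SignType) ∈ C
  sub : ∀ v ∈ V, v ∈ C
  card : ∀ v ∈ V, (supp v).card = d
  ind : ∀ v ∈ V, LinearIndependent ℝ (fun l : {l : ι // v l ≠ 0} => b l.1)
  psub : ∀ v ∈ V, P v ⊆ supp v
  down : ∀ s t, t ∈ C → Le s t → s ∈ C
  ex : ∀ s ∈ C, ∃ v ∈ V, Low P v s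
  uniq : ∀ s ∈ C, ∀ v ∈ V, ∀ w ∈ V, Low P v s → Low P w s → v = w
  up : ∀ s t, t ∈ C → Le s t → ∀ v ∈ V, Low P v s → ¬ Le t v → ∀ w ∈ V, Low P w t → ht v < ht w

/-- the sign vector of an integer vector -/
def sgn (e : ι → ℤ) : ι → SignType := fun l => SignType.sign (e l)

/-- integer vectors of size `n` with sign vector in `C` -/
def EE (C : Finset (ι → SignType)) (n : ℕ) : Finset (ι → ℤ) :=
  (Fintype.piFinset fun _ => Finset.Icc (-(n : ℤ)) n).filter
    (fun e => (∑ l, (e l).natAbs = n) ∧ sgn e ∈ C)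

/-- the shift operator of the constraint `l` -/
def X (l : ι) : Fn ι →ₗ[ℝ] Fn ι where
  toFun f e := (if 0 ≤ e l then f (Function.update e l (e l + 1)) else 0) -
    (if e l ≤ 0 then f (Function.update e l (e l - 1)) else 0)
  map_add' f g := by
    funext e
    simp only [Pi.add_apply]
    split_ifs <;> ring
  map_smul' c f := by
    funext e
    simp only [Pi.smul_apply, smul_eq_mul, RingHom.id_apply]
    split_ifs <;> ring

/-- the operator of the vector `y` -/
def D (b : ι → E d) (y : E d) : Fn ι →ₗ[ℝ] Fn ι := ∑ l, ⟪b l, y⟫ • X l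

/-- functions supported on `EE C n` -/
def FF (C : Finset (ι → SignType)) (n : ℕ) : Submodule ℝ (Fn ι) where
  carrier := {f | ∀ e, e ∉ EE C n → f e = 0}
  add_mem' := by
    intro f g hf hg e he
    simp only [Pi.add_apply, hf e he, hg e he, add_zero]
  zero_mem' := by intro e _; rfl
  smul_mem' := by
    intro c f hf e he
    simp only [Pi.smul_apply, hf e he, smul_zero]

/-- functions with `f (-e) = c * f e` -/
def Par (ι : Type) (c : ℝ) : Submodule ℝ (Fn ι) where
  carrier := {f | ∀ e, f (-e) = c * f e}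
  add_mem' := by
    intro f g hf hg e
    simp only [Pi.add_apply, hf e, hg e]; ring
  zero_mem' := by intro e; simp
  smul_mem' := by
    intro r f hf e
    simp only [Pi.smul_apply, hf e, smul_eq_mul]; ring

/-- common kernel of all operators -/
def Ker (b : ι → E d) : Submodule ℝ (Fn ι) := ⨅ y : E d, LinearMap.ker (D b y)

/-- partial sums -/
def S (u : ℕ → ℕ) (n : ℕ) : ℕ := ∑ k ∈ Finset.range (n + 1), u k

/-- the numbers `h` -/
def hh (V : Finset (ι → SignType)) (P : (ι → SignType) → Finset ι) (n : ℕ) : ℕ :=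
  (V.filter (fun v => (P v).card = n)).card

/-- the facet `(j, +)` is lowest for `a` -/
def LowF (b : ι → E d) (a : E d) (j : ι) : Prop :=
  ∀ v ∈ Verts b, ∀ w ∈ Verts b, v j = 1 → w j ≠ 1 → ⟪a, pt b v⟫ < ⟪a, pt b w⟫

/-- a face lies in at most one of the facets `(j, +)`, `(j, -)`, `j ∈ J`, and for every `j ∈ J` the
facets meeting `(j, +)` and another one of them have independent normals -/
structure Sep (b : ι → E d) (J : Finset ι) : Prop where
  disj : ∀ t ∈ Cells b, ∀ j ∈ J, ∀ j' ∈ J, t j ≠ 0 → t j' ≠ 0 → j = j'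
  ind : ∀ j ∈ J, LinearIndependent ℝ (fun p : {p : ι × SignType // p.2 ≠ 0 ∧
      (∃ t ∈ Cells b, t j = 1 ∧ t p.1 = p.2) ∧
      ∃ t ∈ Cells b, (∃ j' ∈ J, t j' ≠ 0) ∧ t j ≠ 1 ∧ t p.1 = p.2} => b p.1.1)

/-- hypotheses on a polytope `{x | ∀ i, |⟪a i, x⟫| ≤ 1}` and cutting vectors `g j` -/
structure Hyp {α β : Type} [Fintype α] [Fintype β] (a : α → E d) (g : β → E d) : Prop where
  simple : Simple (Sum.elim a g)
  disj : ∀ x ∈ Pol a, ∀ j k, ∀ s t : SignType, 1 ≤ ((s : SignType) : ℝ) * ⟪g j, x⟫ →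
      1 ≤ ((t : SignType) : ℝ) * ⟪g k, x⟫ → j = k ∧ s = t
  ind : ∀ j, LinearIndependent ℝ (fun p : {p : α × SignType // p.2 ≠ 0 ∧
      (∃ x ∈ Pol a, 1 ≤ ⟪g j, x⟫ ∧ ⟪a p.1, x⟫ = ((p.2 : SignType) : ℝ)) ∧
      ∃ x ∈ Pol a, (∃ k, 1 ≤ |⟪g k, x⟫|) ∧ ⟪g j, x⟫ < 1 ∧
        ⟪a p.1, x⟫ = ((p.2 : SignType) : ℝ)} => a p.1.1)

/-- the faces of `{x | ∀ i, |⟪a i, x⟫| ≤ 1}` inside the open cap `(j, s)` -/
def Inside {α β : Type} [Fintype α] [Fintype β] (a : α → E d) (g : β → E d) (j : β)
    (s : SignType) : Finset (α → SignType) :=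
  (Cells a).filter (fun c => ∀ x, IsCell a c x → 1 < ((s : SignType) : ℝ) * ⟪g j, x⟫)

end

end Pool.Agent.KST
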